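import Pool.Agent.Lib.MP_9c87eb_gt.Defs

section

/-! TASK A1a: the characters `chr a j`.

`PadicInt.toZModPow n` is a ring homomorphism `ℤ_[2] →+* ZMod (2 ^ n)`; `CRC.ztC_pow_self`,
`CRC.ztC_pow_eq_one_iff`; `NN j = 2 ^ 2 ^ j`. Compare `Pool.Agent.Lib.MP_13800a_gt.TowerLim`
(`num_eq_zero_iff`, `num_natCast`, `num_add`, `continuous_num`, `T.num_succ` in `OrbDefs`). For
`exists_chr_eq` take `i = (toZModPow (2 ^ (j+1)) a).val`. `a = 0` iff all `toZModPow n a = 0`
(`PadicInt.ext_of_toZModPow`); `2 ^ j` is unbounded. -/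

set_option autoImplicit false

namespace Pool.Agent.MQ

open Set Topology
open Pool.Agent.CRC (UI SB zt ztC S3 rot)

private theorem ztC_pow_mod (n i : ℕ) (hn : n ≠ 0) : ztC n ^ (i % n) = ztC n ^ i := by
  conv_rhs => rw [← Nat.div_add_mod i n, pow_add, pow_mul, CRC.ztC_pow_self n hn, one_pow, one_mul]

private theorem toZ_natCast_val (m n : ℕ) (h : m ≤ n) (a : ℤ_[2]) :
    (PadicInt.toZModPow (p := 2) m a).val = (PadicInt.toZModPow (p := 2) n a).val % 2 ^ m := by
  rw [← PadicInt.cast_toZModPow m n h a, ← ZMod.natCast_val, ZMod.val_natCast]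

theorem chr_zero (j : ℕ) : chr 0 j = 1 := by
  unfold chr
  rw [map_zero, ZMod.val_zero, pow_zero]

theorem chr_add (a b : ℤ_[2]) (j : ℕ) : chr (a + b) j = chr a j * chr b j := by
  unfold chr
  rw [map_add, ZMod.val_add, ← pow_add]
  exact ztC_pow_mod _ _ (NN_ne_zero j)

theorem chr_one (j : ℕ) : chr 1 j = ztC (NN j) := by
  have h : chr ((1 : ℕ) : ℤ_[2]) j = ztC (NN j) ^ 1 := by
    unfold chr
    rw [map_natCast, ZMod.val_natCast]
    exact ztC_pow_mod _ _ (NN_ne_zero j)
  rwa [Nat.cast_one, pow_one] at h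

theorem chr_natCast (i j : ℕ) : chr (i : ℤ_[2]) j = ztC (NN j) ^ i := by
  unfold chr
  rw [map_natCast, ZMod.val_natCast]
  exact ztC_pow_mod _ _ (NN_ne_zero j)

theorem continuous_chr (j : ℕ) : Continuous fun a : ℤ_[2] => chr a j := by
  have h0 : Continuous fun a : ℤ_[2] => (PadicInt.toZModPow (p := 2) (2 ^ j) a).val := by
    rw [continuous_discrete_rng]
    intro c
    rw [isOpen_iff_mem_nhds]
    intro a ha
    rw [Metric.mem_nhds_iff]
    refine ⟨(2 : ℝ) ^ (-((2 ^ j : ℕ) : ℤ)), by positivity, fun b hb => ?_⟩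
    rw [Metric.mem_ball, dist_eq_norm] at hb
    have h1 : b - a ∈ (Ideal.span {((2 : ℕ) : ℤ_[2]) ^ (2 ^ j)} : Ideal ℤ_[2]) := by
      rw [← PadicInt.norm_le_pow_iff_mem_span_pow]
      exact_mod_cast hb.le
    rw [← PadicInt.ker_toZModPow, RingHom.mem_ker, map_sub, sub_eq_zero] at h1
    show (PadicInt.toZModPow (p := 2) (2 ^ j) b).val = c
    rw [h1]
    exact ha
  have h2 : Continuous fun i : ℕ => ztC (NN j) ^ i := continuous_of_discreteTopology
  exact h2.comp h0

/-- every value of a character is a power of the root of unity, simultaneously at levels `j`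
and `j + 1` -/
theorem exists_chr_eq (a : ℤ_[2]) (j : ℕ) :
    ∃ i : ℕ, chr a (j + 1) = ztC (NN (j + 1)) ^ i ∧ chr a j = ztC (NN j) ^ i := by
  refine ⟨(PadicInt.toZModPow (p := 2) (2 ^ (j + 1)) a).val, rfl, ?_⟩
  unfold chr
  rw [toZ_natCast_val (2 ^ j) (2 ^ (j + 1)) (Nat.pow_le_pow_right (by norm_num) (by omega)) a]
  exact ztC_pow_mod _ _ (NN_ne_zero j)

theorem eq_zero_of_chr (a : ℤ_[2]) (h : ∀ j, chr a j = 1) : a = 0 := by
  have h1 : ∀ j, (PadicInt.toZModPow (p := 2) (2 ^ j) a).val = 0 := by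
    intro j
    have h2 := (CRC.ztC_pow_eq_one_iff (NN j) _ (NN_ne_zero j)).1 (h j)
    exact Nat.eq_zero_of_dvd_of_lt h2 (ZMod.val_lt _)
  rw [← PadicInt.ext_of_toZModPow]
  intro n
  rw [map_zero, ← ZMod.val_eq_zero,
    toZ_natCast_val n (2 ^ n) (Nat.lt_two_pow_self).le a, h1 n, Nat.zero_mod]

end Pool.Agent.MQ
end

section

/-! TASK A1b: scalar multiplication by points of the circle. -/

set_option autoImplicit false

namespace Pool.Agent.MQ

open Set Topology
open Pool.Agent.CRC (UI SB zt ztC S3 rot)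

theorem cD_one (x : DD) : cD 1 x = x := by
  apply Subtype.ext
  show ((1 : Circle) : ℂ) • x.1 = x.1
  rw [Circle.coe_one, one_smul]

theorem cD_mul (c c' : Circle) (x : DD) : cD (c * c') x = cD c (cD c' x) := by
  apply Subtype.ext
  show ((c * c' : Circle) : ℂ) • x.1 = (c : ℂ) • ((c' : ℂ) • x.1)
  rw [Circle.coe_mul, mul_smul]

theorem continuous_cD : Continuous fun p : Circle × DD => cD p.1 p.2 := by
  apply Continuous.subtype_mk
  exact (continuous_subtype_val.comp continuous_fst).smul (continuous_subtype_val.comp continuous_snd)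

theorem isometry_cD (c : Circle) : Isometry (cD c) := by
  apply Isometry.of_dist_eq
  intro x y
  rw [Subtype.dist_eq, Subtype.dist_eq]
  show dist ((c : ℂ) • x.1) ((c : ℂ) • y.1) = dist x.1 y.1
  rw [dist_eq_norm, dist_eq_norm, ← smul_sub, norm_smul, Circle.norm_coe, one_mul]

theorem cS_one {m : ℕ} (x : SB m) : cS 1 x = x := by
  apply Subtype.ext
  show ((1 : Circle) : ℂ) • x.1 = x.1
  rw [Circle.coe_one, one_smul]

theorem cS_mul {m : ℕ} (c c' : Circle) (x : SB m) : cS (c * c') x = cS c (cS c' x) := by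
  apply Subtype.ext
  show ((c * c' : Circle) : ℂ) • x.1 = (c : ℂ) • ((c' : ℂ) • x.1)
  rw [Circle.coe_mul, mul_smul]

theorem continuous_cS {m : ℕ} : Continuous fun p : Circle × SB m => cS p.1 p.2 := by
  apply Continuous.subtype_mk
  exact (continuous_subtype_val.comp continuous_fst).smul (continuous_subtype_val.comp continuous_snd)

theorem cS_iterate {m : ℕ} (c : Circle) (i : ℕ) (x : SB m) : (cS c)^[i] x = cS (c ^ i) x := by
  induction i with
  | zero => rw [pow_zero, cS_one]; rfl
  | succ i ih => rw [Function.iterate_succ_apply', ih, ← cS_mul, pow_succ']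

/-- the action on the sphere is free -/
theorem cS_eq_self {m : ℕ} (c : Circle) (x : SB m) (h : cS c x = x) : c = 1 := by
  have h1 : (c : ℂ) • x.1 = x.1 := congrArg Subtype.val h
  have h2 : x.1 ≠ 0 := by
    have := x.2
    rw [mem_sphere_zero_iff_norm] at this
    rw [← norm_ne_zero_iff, this]
    exact one_ne_zero
  have h3 : ((c : ℂ) - 1) • x.1 = 0 := by rw [sub_smul, one_smul, h1, sub_self]
  rcases smul_eq_zero.1 h3 with h4 | h4
  · apply Circle.ext
    rw [Circle.coe_one]
    exact sub_eq_zero.1 h4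
  · exact absurd h4 h2

/-- `quart` intertwines the rotations -/
theorem quart_rot (c : Circle) (z : S3) : quart (rot c z) = (c : ℂ) • quart z := by
  show (1 / 4 : ℝ) • (((c : ℂ) * z.1.1, (c : ℂ) * z.1.2) : VV) = (c : ℂ) • ((1 / 4 : ℝ) • z.1)
  rw [smul_comm]
  rfl

theorem continuous_quart : Continuous quart := by
  have h0 : Continuous fun z : S3 => (z.1 : VV) := continuous_subtype_val
  have h1 : Continuous fun v : VV => (1 / 4 : ℝ) • v := continuous_const_smul _
  exact h1.comp h0

theorem quart_injective : Function.Injective quart := by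
  intro z w h
  apply Subtype.ext
  exact smul_right_injective VV (by norm_num : (1 / 4 : ℝ) ≠ 0) h

/-- `z / 4` is not zero -/
theorem quart_ne_zero (z : S3) : quart z ≠ 0 := by
  intro h
  have h1 : z.1 = 0 := by
    rcases smul_eq_zero.1 (show (1 / 4 : ℝ) • z.1 = 0 from h) with h2 | h2
    · norm_num at h2
    · exact h2
  have h2 := z.2
  rw [h1] at h2
  simp at h2

theorem norm_quart_le (z : S3) : ‖quart z‖ ≤ 1 / 4 := by
  have hz := z.2
  have h1 := norm_nonneg z.1.1
  have h2 := norm_nonneg z.1.2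
  have h3 : ‖z.1‖ ≤ 1 := by
    rw [Prod.norm_def, max_le_iff]
    constructor <;> nlinarith
  show ‖(1 / 4 : ℝ) • z.1‖ ≤ 1 / 4
  rw [norm_smul, Real.norm_eq_abs, abs_of_pos (by norm_num : (0 : ℝ) < 1 / 4)]
  linarith

end Pool.Agent.MQ
end

section

/-! TASK A1c: the actions `actQ`, `actE` and the invariance of `Phi B`. -/

set_option autoImplicit false

namespace Pool.Agent.MQ

open Set Topology
open Pool.Agent.CRC (UI SB zt ztC S3 rot)

theorem actQ_zero (x : QQ) : actQ 0 x = x := by
  funext j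
  show cD (chr 0 j) (x j) = x j
  rw [chr_zero, cD_one]

theorem actQ_add (a b : ℤ_[2]) (x : QQ) : actQ (a + b) x = actQ a (actQ b x) := by
  funext j
  show cD (chr (a + b) j) (x j) = cD (chr a j) (cD (chr b j) (x j))
  rw [chr_add, cD_mul]

theorem continuous_actQ : Continuous fun p : ℤ_[2] × QQ => actQ p.1 p.2 := by
  refine continuous_pi fun j => ?_
  exact continuous_cD.comp (((continuous_chr j).comp continuous_fst).prodMk
    ((continuous_apply j).comp continuous_snd))

theorem actE_zero (x : EE) : actE 0 x = x := by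
  funext j
  show cS (chr 0 j) (x j) = x j
  rw [chr_zero, cS_one]

theorem actE_add (a b : ℤ_[2]) (x : EE) : actE (a + b) x = actE a (actE b x) := by
  funext j
  show cS (chr (a + b) j) (x j) = cS (chr a j) (cS (chr b j) (x j))
  rw [chr_add, cS_mul]

theorem continuous_actE : Continuous fun p : ℤ_[2] × EE => actE p.1 p.2 := by
  refine continuous_pi fun j => ?_
  have h1 : Continuous fun p : ℤ_[2] × EE => p.2 j := (continuous_apply j).comp continuous_snd
  have h2 : Continuous fun p : ℤ_[2] × EE => chr p.1 j := (continuous_chr j).comp continuous_fst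
  exact (continuous_cS (m := NN j)).comp (h2.prodMk h1)

theorem actE_free (a : ℤ_[2]) (x : EE) (h : actE a x = x) : a = 0 := by
  apply eq_zero_of_chr
  intro j
  exact cS_eq_self (chr a j) (x j) (congrFun h j)

theorem actE_one (x : EE) : actE 1 x = tau x := by
  funext j
  show cS (chr 1 j) (x j) = cS (ztC (NN j)) (x j)
  rw [chr_one]

/-- iterates of the generator -/
theorem tau_iterate (i : ℕ) (x : EE) : tau^[i] x = actE (i : ℤ_[2]) x := by
  induction i with
  | zero => rw [Nat.cast_zero, actE_zero]; rfl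
  | succ i ih =>
    rw [Function.iterate_succ_apply', ih, ← actE_one, ← actE_add, Nat.cast_succ, add_comm]

/-- `Phi B` is invariant: `x j = quart (z j)`, `z j = B.g j (x (j+1)) = B.f j (z (j+1))` (`B.hgf`), and
`B.heq` iterated (`exists_chr_eq`). -/
theorem actQ_mem_Phi (B : BondSys) (a : ℤ_[2]) {x : QQ} (hx : x ∈ Phi B) : actQ a x ∈ Phi B := by
  intro j
  obtain ⟨i, h1, h2⟩ := exists_chr_eq a j
  set w := B.g (j + 1) (x (j + 1 + 1) : VV) with hw
  have e1 : (x (j + 1) : VV) = quart w := hx (j + 1)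
  have e2 : (x j : VV) = quart (B.f j w) := by
    rw [hx j, e1, B.hgf]
  have e3 : B.f j (rot (ztC (NN (j + 1)) ^ i) w) = rot (ztC (NN j) ^ i) (B.f j w) := by
    rw [← CRC.rot_iterate, ← CRC.rot_iterate]
    have h3 : Function.Semiconj (B.f j) (rot (ztC (NN (j + 1)))) (rot (ztC (NN j))) := B.heq j
    exact (h3.iterate_right i) w
  show (chr a j : ℂ) • (x j : VV) = quart (B.g j ((chr a (j + 1) : ℂ) • (x (j + 1) : VV)))
  rw [e1, e2, ← quart_rot, ← quart_rot, B.hgf, h1, h2, e3]

theorem isClosed_Phi (B : BondSys) : IsClosed (Phi B) := by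
  have h : Phi B = ⋂ j, {x : QQ | (x j : VV) = quart (B.g j (x (j + 1) : VV))} := by
    ext x
    rw [Set.mem_iInter]
    rfl
  rw [h]
  refine isClosed_iInter fun j => isClosed_eq ?_ ?_
  · exact continuous_subtype_val.comp (continuous_apply j)
  · exact continuous_quart.comp ((B.hg j).comp
      (continuous_subtype_val.comp (continuous_apply (j + 1))))

end Pool.Agent.MQ
end
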