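import Pool.Agent.Lib.MP_9c87eb_gt.Defs
import Pool.Agent.Lib.MP_13800a_gt.Bond
import Pool.Agent.Lib.MP_9c87eb_gt.Mg.G001

section

/-! TASK G4: existence of the bonding maps with extensions.

`f j` = the map of `CRC.exists_bond (NN j)` (note `NN (j+1) = NN j * NN j`, `NN_succ`), `H` its null
homotopy. With the Euclidean norm `r v = √(|v₁|² + |v₂|²)`: `g j v = H (λ(r v), v / r v)` with
`λ(r) = clamp (2 - 8 r)` to `[0,1]` (`λ (1/4) = 0`, `λ (r) = 1` for `r ≤ 1/8`), and `g j 0 = q`.
Near `0` the function is constant `q`. -/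

set_option autoImplicit false

namespace Pool.Agent.MQ

open Set Topology
open Pool.Agent.CRC (UI S3 rot ztC)

private noncomputable def bxLam (r : ℝ) : unitInterval := Set.projIcc 0 1 zero_le_one (2 - 8 * r)

private theorem bx_continuous_bondN : Continuous Pool.Agent.CRC.bondN := by
  unfold Pool.Agent.CRC.bondN
  fun_prop

open Classical in
private noncomputable def bxG (H : unitInterval × S3 → S3) (q : S3) (v : ℂ × ℂ) : S3 :=
  if hv : v = 0 then q else H (bxLam (Pool.Agent.CRC.bondN v), Pool.Agent.CRC.bondNrm v hv)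

private theorem bx_continuous (H : unitInterval × S3 → S3) (q : S3) (hH : Continuous H)
    (hq : ∀ z, H (1, z) = q) : Continuous (bxG H q) := by
  rw [continuous_iff_continuousAt]
  intro v
  by_cases hv : v = 0
  · subst hv
    have h1 : ∀ᶠ w in 𝓝 (0 : ℂ × ℂ), Pool.Agent.CRC.bondN w < 1 / 8 := by
      refine bx_continuous_bondN.continuousAt.eventually_lt continuousAt_const ?_
      unfold Pool.Agent.CRC.bondN
      simp
    have h2 : bxG H q =ᶠ[𝓝 (0 : ℂ × ℂ)] fun _ => q := by
      filter_upwards [h1] with w hw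
      unfold bxG
      by_cases h0 : w = 0
      · rw [dif_pos h0]
      · rw [dif_neg h0]
        have h3 : bxLam (Pool.Agent.CRC.bondN w) = 1 := by
          unfold bxLam
          exact Set.projIcc_of_right_le _ (by linarith)
        rw [h3, hq]
    exact continuousAt_const.congr h2.symm
  · have h3 : ContinuousOn (bxG H q) {w | w ≠ 0} := by
      rw [continuousOn_iff_continuous_domRestrict]
      have h4 : Set.domRestrict {w : ℂ × ℂ | w ≠ 0} (bxG H q) = fun w =>
          H (bxLam (Pool.Agent.CRC.bondN w.1), Pool.Agent.CRC.bondNrm w.1 w.2) := by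
        funext w
        show bxG H q w.1 = _
        unfold bxG
        rw [dif_neg w.2]
      rw [h4]
      refine hH.comp (Continuous.prodMk ?_ ?_)
      · unfold bxLam
        exact continuous_projIcc.comp
          (continuous_const.sub (continuous_const.mul (bx_continuous_bondN.comp continuous_subtype_val)))
      · exact Pool.Agent.CRC.continuous_bondNrm (fun w : {w : ℂ × ℂ | w ≠ 0} => w.1)
          continuous_subtype_val (fun w => w.2)
    exact h3.continuousAt (isOpen_ne.mem_nhds hv)

private theorem bx_hgf (f : S3 → S3) (H : unitInterval × S3 → S3) (q : S3)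
    (h0 : ∀ z, H (0, z) = f z) (z : S3) : bxG H q (quart z) = f z := by
  have h1 : quart z = ((1 / 4 : ℝ) * z.1.1, (1 / 4 : ℝ) * z.1.2) := by
    unfold quart
    ext1 <;> simp
  have h2 : Pool.Agent.CRC.bondN (quart z) = 1 / 4 := by
    unfold Pool.Agent.CRC.bondN
    rw [h1]
    have h3 : ‖(((1 / 4 : ℝ) : ℂ) * z.1.1)‖ ^ 2 + ‖(((1 / 4 : ℝ) : ℂ) * z.1.2)‖ ^ 2 = (1 / 4) ^ 2 := by
      rw [norm_mul, norm_mul, mul_pow, mul_pow, ← mul_add, z.2, Complex.norm_real]
      norm_num
    rw [h3, Real.sqrt_sq (by norm_num)]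
  have h3 : quart z ≠ 0 := by
    intro h4
    rw [h4] at h2
    unfold Pool.Agent.CRC.bondN at h2
    simp at h2
  unfold bxG
  rw [dif_neg h3, h2]
  have h4 : bxLam (1 / 4) = 0 := by
    unfold bxLam
    exact Set.projIcc_of_le_left _ (by norm_num)
  rw [h4, h0]
  congr 1
  apply Subtype.ext
  show ((((Pool.Agent.CRC.bondN (quart z))⁻¹ : ℝ) : ℂ) * (quart z).1,
    (((Pool.Agent.CRC.bondN (quart z))⁻¹ : ℝ) : ℂ) * (quart z).2) = z.1
  rw [h2, h1]
  ext1
  · push_cast; ring
  · push_cast; ring

theorem exists_bondSys : Nonempty BondSys := by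
  choose f hf heq H hH h0 q hq using fun j : ℕ => Pool.Agent.CRC.exists_bond (NN j) (NN_pos j)
  exact ⟨{
    f := f
    g := fun j => bxG (H j) (q j)
    hf := hf
    hg := fun j => bx_continuous (H j) (q j) (hH j) (hq j)
    heq := fun j z => by rw [NN_succ]; exact heq j z
    hgf := fun j z => bx_hgf (f j) (H j) (q j) (h0 j) z }⟩

end Pool.Agent.MQ
end

section

/-! TASK A2: an invariant function with zero set `Phi B`.

If `Phi B = ∅` take `d = 1/2`. Otherwise let `d x = (1/2) * min 1 (infDist x (Phi B))` for the metric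
`PiCountable.metricSpace` of `QQ = ℕ → DD` (use `letI`); each `actQ a` is an isometry for it
(every `cD c` is an isometry) which maps `Phi B` onto `Phi B` (`actQ_mem_Phi`), and
`infDist x Φ = 0 ↔ x ∈ Φ` for closed nonempty `Φ`. -/

set_option autoImplicit false

namespace Pool.Agent.MQ

open Set Topology

private theorem dist_cD (c : Circle) (u v : DD) : dist (cD c u) (cD c v) = dist u v := by
  change dist ((c : ℂ) • u.1) ((c : ℂ) • v.1) = dist u.1 v.1
  rw [dist_smul₀, Circle.norm_coe, one_mul]

theorem exists_dist (B : BondSys) : ∃ d : QQ → ℝ, Continuous d ∧ (∀ x, 0 ≤ d x ∧ d x ≤ 1 / 2) ∧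
    (∀ x, d x = 0 ↔ x ∈ Phi B) ∧ ∀ a x, d (actQ a x) = d x := by
  classical
  rcases (Phi B).eq_empty_or_nonempty with he | hne
  · refine ⟨fun _ => 1 / 2, continuous_const, fun x => ⟨by norm_num, le_rfl⟩, fun x => ?_,
      fun _ _ => rfl⟩
    rw [he]; norm_num
  · letI : MetricSpace QQ := PiCountable.metricSpace
    have hiso : ∀ a : ℤ_[2], Isometry (actQ a) := by
      intro a
      refine Isometry.of_dist_eq fun x y => ?_
      rw [PiCountable.dist_eq_tsum, PiCountable.dist_eq_tsum]
      refine tsum_congr fun i => ?_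
      rw [show dist (actQ a x i) (actQ a y i) = dist (x i) (y i) from dist_cD _ _ _]
    have himg : ∀ a : ℤ_[2], actQ a '' (Phi B) = Phi B := by
      intro a
      ext y
      constructor
      · rintro ⟨x, hx, rfl⟩
        exact actQ_mem_Phi B a hx
      · intro hy
        refine ⟨actQ (-a) y, actQ_mem_Phi B (-a) hy, ?_⟩
        rw [← actQ_add, add_neg_cancel, actQ_zero]
    refine ⟨fun x => (1 / 2) * min 1 (Metric.infDist x (Phi B)), ?_, fun x => ⟨?_, ?_⟩, fun x => ?_,
      fun a x => ?_⟩
    · exact continuous_const.mul (continuous_const.min (Metric.continuous_infDist_pt _))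
    · have := Metric.infDist_nonneg (x := x) (s := Phi B)
      positivity
    · have : min 1 (Metric.infDist x (Phi B)) ≤ 1 := min_le_left _ _
      linarith
    · rw [(isClosed_Phi B).mem_iff_infDist_zero hne]
      have h0 := Metric.infDist_nonneg (x := x) (s := Phi B)
      constructor
      · intro h
        have h1 : min 1 (Metric.infDist x (Phi B)) = 0 := by linarith
        rcases min_choice 1 (Metric.infDist x (Phi B)) with h2 | h2
        · rw [h2] at h1; norm_num at h1
        · rw [h2] at h1; exact h1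
      · intro h
        change (1 / 2 : ℝ) * min 1 (Metric.infDist x (Phi B)) = 0
        rw [h]; norm_num
    · change (1 / 2 : ℝ) * min 1 (Metric.infDist (actQ a x) (Phi B)) =
        (1 / 2) * min 1 (Metric.infDist x (Phi B))
      rw [show Metric.infDist (actQ a x) (Phi B) = Metric.infDist x (Phi B) by
        conv_lhs => rw [← himg a]
        exact Metric.infDist_image (hiso a)]

end Pool.Agent.MQ
end
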