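import Pool.Agent.Lib.MP_9c87eb_gt.AsmDefs

section

/-! TASK R0: facts about `jj`, `ic`, `cl`. -/

set_option autoImplicit false

namespace Pool.Agent.MQ

open Set Topology

theorem r0_jj_apply (x : ℕ → Set.Ioo (0 : ℝ) 1) (n : ℕ) :
    jj x n = (1 / 2 : ℝ) ^ n * (x n : ℝ) := rfl

theorem continuous_jj : Continuous jj := by
  rw [continuous_iff_continuousAt]
  intro x₀
  rw [ContinuousAt, Metric.tendsto_nhds]
  intro ε hε
  obtain ⟨N, hN⟩ := exists_pow_lt_of_lt_one (half_pos hε) (by norm_num : (1 / 2 : ℝ) < 1)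
  have h1 : ∀ᶠ x in 𝓝 x₀, ∀ n ∈ Finset.range N, dist (x n) (x₀ n) < ε / 2 := by
    rw [Filter.eventually_all_finset]
    intro n _
    have h2 : Filter.Tendsto (fun x : ℕ → Set.Ioo (0 : ℝ) 1 => x n) (𝓝 x₀) (𝓝 (x₀ n)) :=
      (continuous_apply n).tendsto x₀
    exact Metric.tendsto_nhds.1 h2 _ (half_pos hε)
  filter_upwards [h1] with x hx
  refine lt_of_le_of_lt ?_ (half_lt_self hε)
  rw [BoundedContinuousFunction.dist_le (half_pos hε).le]
  intro n
  rw [r0_jj_apply, r0_jj_apply, Real.dist_eq, ← mul_sub, abs_mul,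
    abs_of_nonneg (by positivity : (0 : ℝ) ≤ (1 / 2) ^ n)]
  have hp : (1 / 2 : ℝ) ^ n ≤ 1 := pow_le_one₀ (by norm_num) (by norm_num)
  have hp0 : (0 : ℝ) ≤ (1 / 2) ^ n := by positivity
  rcases lt_or_ge n N with hn | hn
  · have h2 := hx n (Finset.mem_range.2 hn)
    rw [Subtype.dist_eq, Real.dist_eq] at h2
    calc (1 / 2 : ℝ) ^ n * |(x n : ℝ) - x₀ n| ≤ 1 * |(x n : ℝ) - x₀ n| := by gcongr
      _ ≤ ε / 2 := by rw [one_mul]; exact h2.le
  · have h3 : |(x n : ℝ) - x₀ n| ≤ 1 := by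
      rw [abs_le]
      have ha := (x n).2
      have hb := (x₀ n).2
      constructor <;> linarith [ha.1, ha.2, hb.1, hb.2]
    calc (1 / 2 : ℝ) ^ n * |(x n : ℝ) - x₀ n| ≤ (1 / 2 : ℝ) ^ n * 1 := by gcongr
      _ = (1 / 2 : ℝ) ^ n := mul_one _
      _ ≤ (1 / 2 : ℝ) ^ N := pow_le_pow_of_le_one (by norm_num) (by norm_num) hn
      _ ≤ ε / 2 := hN.le

theorem jj_injective : Function.Injective jj := by
  intro x y h
  funext n
  have h1 : jj x n = jj y n := by rw [h]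
  rw [r0_jj_apply, r0_jj_apply] at h1
  exact Subtype.ext (mul_left_cancel₀ (by positivity) h1)

theorem continuous_ic : Continuous ic := by
  refine continuous_pi fun n => ?_
  exact Continuous.subtype_mk (continuous_subtype_val.comp (continuous_apply n)) _

theorem ic_injective : Function.Injective ic := by
  intro x y h
  funext n
  have h1 : (ic x n : ℝ) = ic y n := by rw [h]
  exact Subtype.ext h1

theorem cl_jj (x : ℕ → Set.Ioo (0 : ℝ) 1) : cl (jj x) = ic x := by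
  funext n
  unfold cl
  have h1 : (2 : ℝ) ^ n * jj x n = (x n : ℝ) := by
    rw [r0_jj_apply, ← mul_assoc, ← mul_pow]
    norm_num
  rw [h1]
  exact Set.projIcc_of_mem zero_le_one (ic x n).2

/-- each coordinate is Lipschitz -/
theorem uniformContinuous_cl : UniformContinuous cl := by
  rw [uniformContinuous_pi]
  intro n
  have h1 : UniformContinuous fun y : EB => (2 : ℝ) ^ n * y n := by
    have h2 : UniformContinuous fun y : EB => y n :=
      (BoundedContinuousFunction.lipschitz_eval_const n).uniformContinuous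
    exact UniformContinuous.const_mul' h2 _
  exact (LipschitzWith.projIcc zero_le_one).uniformContinuous.comp h1

end Pool.Agent.MQ
end

section

/-! TASK R1: the relation `rho` on the moduli space.

The relation defining `MF` is an equivalence relation, so `mkM φ = mkM ψ` iff it holds
(`Quot.eq`/`Equivalence.eqvGen_iff`). Open: the preimage in `Em` of `{m | rho ε m m0}` is
`{φ | ∃ h : FF ≃ₜ FF, ∀ x, ‖jj (φ (h x)) - jj (φ0 x)‖ < ε}`; for fixed `h` the condition is open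
in the compact-open topology (`φ ↦ jj ∘ φ ∘ h` is continuous to `C(FF, EB)`, which is metric, and on
a compact space a pointwise strict bound is a strict bound of the distance:
`ContinuousMap.dist_lt_iff`). -/

set_option autoImplicit false

namespace Pool.Agent.MQ

open Set Topology

private theorem rel_equiv : Equivalence (fun φ ψ : Em => ∃ h : FF ≃ₜ FF, ∀ x : FF,
    ψ.1 x = φ.1 (h x)) where
  refl φ := ⟨Homeomorph.refl _, fun _ => rfl⟩
  symm := by
    rintro φ ψ ⟨h, hh⟩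
    exact ⟨h.symm, fun x => by rw [hh, h.apply_symm_apply]⟩
  trans := by
    rintro φ ψ χ ⟨h, hh⟩ ⟨k, hk⟩
    exact ⟨k.trans h, fun x => by rw [hk, hh]; rfl⟩

theorem mkM_eq_iff (φ ψ : Em) : mkM φ = mkM ψ ↔ ∃ h : FF ≃ₜ FF, ∀ x : FF, ψ.1 x = φ.1 (h x) := by
  unfold mkM
  rw [Quot.eq]
  exact rel_equiv.eqvGen_iff

theorem mkM_surjective : Function.Surjective mkM := Quot.mk_surjective

theorem continuous_mkM : Continuous mkM := continuous_quot_mk

theorem rho_rep {ε : ℝ} {m m' : MF} (h : rho ε m m') {φ : Em} (hφ : mkM φ = m) :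
    ∃ φ' : Em, mkM φ' = m' ∧ ∀ x, ‖jj (φ.1 x) - jj (φ'.1 x)‖ < ε := by
  obtain ⟨φ0, φ0', h0, h0', hc⟩ := h
  obtain ⟨k, hk⟩ := (mkM_eq_iff φ0 φ).1 (h0.trans hφ.symm)
  refine ⟨⟨φ0'.1.comp ⟨k, k.continuous⟩, φ0'.2.comp k.isEmbedding⟩, ?_, fun x => ?_⟩
  · rw [← h0', eq_comm, mkM_eq_iff]
    exact ⟨k, fun x => rfl⟩
  · rw [hk x]
    exact hc (k x)

theorem rho_refl {ε : ℝ} (hε : 0 < ε) (m : MF) : rho ε m m := by
  obtain ⟨φ, hφ⟩ := mkM_surjective m
  exact ⟨φ, φ, hφ, hφ, fun x => by simpa using hε⟩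

theorem rho_symm {ε : ℝ} {m m' : MF} (h : rho ε m m') : rho ε m' m := by
  obtain ⟨φ0, φ0', h0, h0', hc⟩ := h
  exact ⟨φ0', φ0, h0', h0, fun x => by rw [norm_sub_rev]; exact hc x⟩

theorem rho_trans {ε ε' : ℝ} {m m' m'' : MF} (h : rho ε m m') (h' : rho ε' m' m'') :
    rho (ε + ε') m m'' := by
  obtain ⟨φ0, φ1, h0, h1, hc⟩ := h
  obtain ⟨φ2, h2, hc2⟩ := rho_rep h' h1
  refine ⟨φ0, φ2, h0, h2, fun x => ?_⟩
  have h3 := hc x
  have h4 := hc2 x
  have h5 := norm_sub_le_norm_sub_add_norm_sub (jj (φ0.1 x)) (jj (φ1.1 x)) (jj (φ2.1 x))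
  linarith

private theorem isOpen_pt (ε : ℝ) (ψ0 : C(FF, EB)) :
    IsOpen {ψ : C(FF, EB) | ∀ x, ‖ψ x - ψ0 x‖ < ε} := by
  rcases lt_or_ge 0 ε with hε | hε
  · have h1 : {ψ : C(FF, EB) | ∀ x, ‖ψ x - ψ0 x‖ < ε} = Metric.ball ψ0 ε := by
      ext ψ
      rw [Metric.mem_ball, ContinuousMap.dist_lt_iff hε]
      simp only [Set.mem_ofPred_eq, dist_eq_norm]
    rw [h1]
    exact Metric.isOpen_ball
  · have h1 : {ψ : C(FF, EB) | ∀ x, ‖ψ x - ψ0 x‖ < ε} = ∅ := by
      ext ψ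
      simp only [Set.mem_ofPred_eq, Set.mem_empty_iff_false, iff_false, not_forall, not_lt]
      exact ⟨(1, fun _ => 0), hε.trans (norm_nonneg _)⟩
    rw [h1]
    exact isOpen_empty

theorem isOpen_rho (ε : ℝ) (m0 : MF) : IsOpen {m | rho ε m m0} := by
  obtain ⟨φ0, rfl⟩ := mkM_surjective m0
  have hq : Topology.IsQuotientMap mkM := isQuotientMap_quot_mk
  rw [← hq.isOpen_preimage]
  have h1 : mkM ⁻¹' {m | rho ε m (mkM φ0)} =
      ⋃ h : FF ≃ₜ FF, (fun φ : Em => ((⟨jj, continuous_jj⟩ : C(ℕ → Set.Ioo (0 : ℝ) 1, EB)).comp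
        (φ.1.comp ⟨h, h.continuous⟩))) ⁻¹'
        {ψ : C(FF, EB) | ∀ x, ‖ψ x - ((⟨jj, continuous_jj⟩ :
          C(ℕ → Set.Ioo (0 : ℝ) 1, EB)).comp φ0.1) x‖ < ε} := by
    ext φ
    simp only [Set.mem_preimage, Set.mem_ofPred_eq, Set.mem_iUnion, ContinuousMap.comp_apply,
      ContinuousMap.coe_mk]
    constructor
    · intro h
      obtain ⟨φ', h2, h3⟩ := rho_rep (rho_symm h) rfl
      obtain ⟨k, hk⟩ := (mkM_eq_iff φ φ').1 h2.symm
      refine ⟨k, fun x => ?_⟩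
      rw [norm_sub_rev, ← hk x]
      exact h3 x
    · rintro ⟨k, hk⟩
      refine ⟨⟨φ.1.comp ⟨k, k.continuous⟩, φ.2.comp k.isEmbedding⟩, φ0, ?_, rfl, fun x => hk x⟩
      rw [eq_comm, mkM_eq_iff]
      exact ⟨k, fun x => rfl⟩
  rw [h1]
  refine isOpen_iUnion fun h => (isOpen_pt _ _).preimage ?_
  exact (ContinuousMap.continuous_postcomp _).comp
    ((ContinuousMap.continuous_precomp _).comp continuous_subtype_val)

end Pool.Agent.MQ
end
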