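import Mathlib

section

/-! TASK G0: the Bing shrinking criterion.

Pass to metrics (`UniformSpace.metricSpace`). `Y` is compact (image of `X`). In the complete metric
space `C(X, Y)` let `G` be the closure of `{f ∘ Θ | Θ : X ≃ₜ X}`. For `ε > 0` the set
`U ε = {g ∈ G | ∀ x x', g x = g x' → dist x x' < ε}` is open in `G` (compactness) and dense in `G`:
near `f ∘ Θ₀` there is `f ∘ Θ.symm ∘ Θ₀` with `Θ` from the hypothesis for small entourages
(`Θ₀.symm` is uniformly continuous; `f (Θ x) ≈ f x` gives `f (Θ.symm x) ≈ f x`). By Baire some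
`g ∈ ⋂ U (1/n)` is near `f`; it is injective, and surjective as a uniform limit of surjective maps
of a compact space. `Continuous.homeoOfEquivCompactToT2`. -/

set_option autoImplicit false

namespace Pool.Agent.MQ

open Set Topology Uniformity

private theorem bing_metric {X Y : Type} [MetricSpace X] [CompactSpace X] [MetricSpace Y]
    (f : X → Y) (hf : Continuous f) (hs : Function.Surjective f)
    (h : ∀ ε > 0, ∃ Θ : X ≃ₜ X, (∀ x, dist (f (Θ x)) (f x) < ε) ∧
      ∀ x x', f x = f x' → dist (Θ x) (Θ x') < ε) :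
    ∀ ε > 0, ∃ g : X ≃ₜ Y, ∀ x, dist (g x) (f x) < ε := by
  intro ε hε
  have : CompactSpace Y := by
    rw [← isCompact_univ_iff, ← hs.range_eq]
    exact isCompact_range hf
  set S : Set C(X, Y) := {g | ∃ Θ : X ≃ₜ X, ∀ x, g x = f (Θ x)} with hS
  set G : Set C(X, Y) := closure S with hG
  have : CompleteSpace G := isClosed_closure.completeSpace_coe
  set U : ℕ → Set G := fun n =>
    {g | ∀ x x', (g : C(X, Y)) x = (g : C(X, Y)) x' → dist x x' < 1 / ((n : ℝ) + 1)} with hU
  have hopen : ∀ n, IsOpen (U n) := by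
    intro n
    rw [← isClosed_compl_iff]
    have hcl : IsClosed {p : G × (X × X) | (p.1 : C(X, Y)) p.2.1 = (p.1 : C(X, Y)) p.2.2 ∧
        1 / ((n : ℝ) + 1) ≤ dist p.2.1 p.2.2} := by
      have h1 : IsClosed {p : G × (X × X) | (p.1 : C(X, Y)) p.2.1 = (p.1 : C(X, Y)) p.2.2} :=
        isClosed_eq ((continuous_subtype_val.comp continuous_fst).eval (by fun_prop))
          ((continuous_subtype_val.comp continuous_fst).eval (by fun_prop))
      have h2 : IsClosed {p : G × (X × X) | 1 / ((n : ℝ) + 1) ≤ dist p.2.1 p.2.2} :=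
        isClosed_le continuous_const (by fun_prop)
      exact h1.inter h2
    have himg := isClosedMap_fst_of_compactSpace _ hcl
    convert himg using 1
    ext g
    simp only [hU, Set.mem_compl_iff, Set.mem_ofPred_eq, not_forall, not_lt, Set.mem_image,
      Prod.exists, exists_and_right, exists_eq_right]
    constructor
    · rintro ⟨x, x', hxx', hd⟩
      exact ⟨x, x', hxx', hd⟩
    · rintro ⟨x, x', hxx', hd⟩
      exact ⟨x, x', hxx', hd⟩
  have hdense : ∀ n, Dense (U n) := by
    intro n
    rw [Metric.dense_iff]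
    intro g r hr
    have hgG : (g : C(X, Y)) ∈ closure S := g.2
    rw [Metric.mem_closure_iff] at hgG
    obtain ⟨g0, ⟨Θ₀, hΘ₀⟩, hg0⟩ := hgG (r / 3) (by positivity)
    have huc : UniformContinuous Θ₀.symm :=
      CompactSpace.uniformContinuous_of_continuous Θ₀.symm.continuous
    rw [Metric.uniformContinuous_iff] at huc
    obtain ⟨δ, hδ, hδ'⟩ := huc (1 / ((n : ℝ) + 1)) (by positivity)
    obtain ⟨Θ, hΘ1, hΘ2⟩ := h (min δ (r / 3)) (lt_min hδ (by positivity))
    let g' : C(X, Y) := ⟨fun x => f (Θ.symm (Θ₀ x)), by fun_prop⟩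
    have hg'S : g' ∈ S := ⟨Θ₀.trans Θ.symm, fun x => rfl⟩
    refine ⟨⟨g', subset_closure hg'S⟩, ?_, ?_⟩
    · rw [Metric.mem_ball, Subtype.dist_eq]
      have h1 : dist g' g0 ≤ r / 3 := by
        rw [ContinuousMap.dist_le (by positivity)]
        intro x
        rw [hΘ₀ x]
        have := hΘ1 (Θ.symm (Θ₀ x))
        rw [Θ.apply_symm_apply] at this
        rw [dist_comm]
        exact (this.trans_le (min_le_right _ _)).le
      have h2 : dist g' (g : C(X, Y)) ≤ dist g' g0 + dist g0 (g : C(X, Y)) := dist_triangle _ _ _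
      have h3 : dist g0 (g : C(X, Y)) < r / 3 := by rw [dist_comm]; exact hg0
      linarith
    · intro x x' hxx'
      have h1 : f (Θ.symm (Θ₀ x)) = f (Θ.symm (Θ₀ x')) := hxx'
      have h2 := hΘ2 _ _ h1
      rw [Θ.apply_symm_apply, Θ.apply_symm_apply] at h2
      have h3 := hδ' (h2.trans_le (min_le_left _ _))
      rwa [Θ₀.symm_apply_apply, Θ₀.symm_apply_apply] at h3
  have hbaire : Dense (⋂ n, U n) := dense_iInter_of_isOpen_nat hopen hdense
  let f0 : C(X, Y) := ⟨f, hf⟩
  have hf0 : f0 ∈ G := subset_closure ⟨Homeomorph.refl X, fun x => rfl⟩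
  rw [Metric.dense_iff] at hbaire
  obtain ⟨g, hgb, hgU⟩ := hbaire ⟨f0, hf0⟩ ε hε
  rw [Metric.mem_ball, Subtype.dist_eq] at hgb
  have hinj : Function.Injective (g : C(X, Y)) := by
    intro x x' hxx'
    rw [← dist_le_zero]
    refine le_of_forall_pos_le_add fun e he => ?_
    obtain ⟨n, hn⟩ := exists_nat_one_div_lt he
    have := (Set.mem_iInter.1 hgU n) x x' hxx'
    linarith
  have hsurj : Function.Surjective (g : C(X, Y)) := by
    intro y
    have hcl : IsClosed (Set.range (g : C(X, Y))) := (isCompact_range (map_continuous _)).isClosed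
    have : y ∈ closure (Set.range (g : C(X, Y))) := by
      rw [Metric.mem_closure_iff]
      intro e he
      have hgG : (g : C(X, Y)) ∈ closure S := g.2
      rw [Metric.mem_closure_iff] at hgG
      obtain ⟨g0, ⟨Θ₀, hΘ₀⟩, hg0⟩ := hgG e he
      obtain ⟨x, hx⟩ := hs y
      refine ⟨(g : C(X, Y)) (Θ₀.symm x), Set.mem_range_self _, ?_⟩
      have h1 := ContinuousMap.dist_apply_le_dist (f := (g : C(X, Y))) (g := g0) (Θ₀.symm x)
      rw [hΘ₀, Θ₀.apply_symm_apply, hx] at h1
      rw [dist_comm]
      exact h1.trans_lt hg0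
    rw [hcl.closure_eq] at this
    exact this
  let e : X ≃ Y := Equiv.ofBijective _ ⟨hinj, hsurj⟩
  have hec : Continuous e := map_continuous (g : C(X, Y))
  refine ⟨hec.homeoOfEquivCompactToT2, fun x => ?_⟩
  have h1 := ContinuousMap.dist_apply_le_dist (f := (g : C(X, Y))) (g := f0) x
  exact h1.trans_lt hgb

theorem bing {X Y : Type} [UniformSpace X] [CompactSpace X] [T2Space X]
    [Filter.IsCountablyGenerated (𝓤 X)] [UniformSpace Y] [T2Space Y]
    [Filter.IsCountablyGenerated (𝓤 Y)] (f : X → Y) (hf : Continuous f)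
    (hs : Function.Surjective f)
    (h : ∀ V ∈ 𝓤 X, ∀ V' ∈ 𝓤 Y, ∃ Θ : X ≃ₜ X, (∀ x, (f (Θ x), f x) ∈ V') ∧
      ∀ x x', f x = f x' → (Θ x, Θ x') ∈ V) :
    ∀ V' ∈ 𝓤 Y, ∃ g : X ≃ₜ Y, ∀ x, (g x, f x) ∈ V' := by
  let : MetricSpace X := UniformSpace.metricSpace X
  let : MetricSpace Y := UniformSpace.metricSpace Y
  intro V' hV'
  obtain ⟨ε, hε, hεV⟩ := Metric.mem_uniformity_dist.1 hV'
  obtain ⟨g, hg⟩ := bing_metric f hf hs (fun ε hε => h _ (Metric.dist_mem_uniformity hε) _
    (Metric.dist_mem_uniformity hε)) ε hε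
  exact ⟨g, fun x => hεV (hg x)⟩

end Pool.Agent.MQ
end

section

/-! TASK O1: orbit spaces of compact spaces embed in `(0,1)^ℕ`.

The relation `∃ a, act a y = y'` is an equivalence relation, closed (image of the compact space
`G × Y`), and its quotient map is open (`act a` is a homeomorphism). So the quotient is compact, `T2`
(`t2Space_iff_of_isOpenQuotientMap`) and second countable (`IsOpenQuotientMap`/
`IsOpenMap` image of a basis), hence metrizable; a compact metric space embeds in `(0,1)^ℕ`:
`y ↦ (n ↦ (1 + dist y (x n)) / (3 + dist y (x n)))` with `x n` dense. -/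

set_option autoImplicit false

namespace Pool.Agent.MQ

open Set Topology

theorem exists_orbit_embedding {G : Type} [TopologicalSpace G] [AddCommGroup G] [CompactSpace G]
    {Y : Type} [TopologicalSpace Y] [CompactSpace Y] [T2Space Y] [SecondCountableTopology Y]
    (act : G → Y → Y) (h0 : ∀ y, act 0 y = y) (hadd : ∀ a b y, act (a + b) y = act a (act b y))
    (hc : Continuous fun p : G × Y => act p.1 p.2) :
    ∃ J : Y → ℕ → Set.Ioo (0 : ℝ) 1, Continuous J ∧ ∀ y y', J y = J y' ↔ ∃ a, act a y = y' := by
  rcases isEmpty_or_nonempty Y with hY | hY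
  · exact ⟨fun y => isEmptyElim y, continuous_of_const fun y => isEmptyElim y,
      fun y => isEmptyElim y⟩
  have hneg : ∀ a y, act (-a) (act a y) = y := fun a y => by
    rw [← hadd, neg_add_cancel, h0]
  have hneg' : ∀ a y, act a (act (-a) y) = y := fun a y => by
    rw [← hadd, add_neg_cancel, h0]
  have hca : ∀ a, Continuous (act a) := fun a => hc.comp (Continuous.prodMk_right a)
  let s : Setoid Y :=
    { r := fun y y' => ∃ a, act a y = y'
      iseqv :=
        { refl := fun y => ⟨0, h0 y⟩
          symm := by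
            rintro y y' ⟨a, rfl⟩
            exact ⟨-a, hneg a y⟩
          trans := by
            rintro y y' y'' ⟨a, rfl⟩ ⟨b, rfl⟩
            exact ⟨b + a, hadd b a y⟩ } }
  have hrel : ∀ y y' : Y, (Quotient.mk s y = Quotient.mk s y') ↔ ∃ a, act a y = y' :=
    fun y y' => Quotient.eq (r := s)
  have hopen : IsOpenMap (Quotient.mk s) := by
    intro U hU
    have : (Quotient.mk s) ⁻¹' (Quotient.mk s '' U) = ⋃ a, (act a) ⁻¹' U := by
      ext y
      simp only [mem_preimage, mem_image, mem_iUnion]
      constructor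
      · rintro ⟨u, hu, huy⟩
        obtain ⟨a, ha⟩ := (hrel u y).1 huy
        refine ⟨-a, ?_⟩
        rw [← ha, hneg]
        exact hu
      · rintro ⟨a, ha⟩
        exact ⟨act a y, ha, (hrel _ _).2 ⟨-a, hneg a y⟩⟩
    have hq : IsQuotientMap (Quotient.mk s) := isQuotientMap_quot_mk
    rw [← hq.isOpen_preimage, this]
    exact isOpen_iUnion fun a => hU.preimage (hca a)
  have hoq : IsOpenQuotientMap (Quotient.mk s) :=
    ⟨Quotient.mk_surjective, continuous_quot_mk, hopen⟩
  have : T2Space (Quotient s) := by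
    rw [t2Space_iff_of_isOpenQuotientMap hoq]
    have : {q : Y × Y | Quotient.mk s q.1 = Quotient.mk s q.2} =
        range (fun p : G × Y => (p.2, act p.1 p.2)) := by
      ext ⟨y, y'⟩
      simp only [mem_ofPred_eq, mem_range, Prod.mk.injEq, Prod.exists, hrel]
      constructor
      · rintro ⟨a, ha⟩
        exact ⟨a, y, rfl, ha⟩
      · rintro ⟨a, z, rfl, ha⟩
        exact ⟨a, ha⟩
    rw [this]
    exact (isCompact_range (continuous_snd.prodMk hc)).isClosed
  have : SecondCountableTopology (Quotient s) :=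
    TopologicalSpace.Quotient.secondCountableTopology hopen
  letI := TopologicalSpace.metrizableSpaceMetric (Quotient s)
  have : Nonempty (Quotient s) := ⟨Quotient.mk s hY.some⟩
  let x : ℕ → Quotient s := TopologicalSpace.denseSeq (Quotient s)
  have hx : DenseRange x := TopologicalSpace.denseRange_denseSeq _
  let J : Y → ℕ → Set.Ioo (0 : ℝ) 1 := fun y n =>
    ⟨(1 + dist (Quotient.mk s y) (x n)) / (3 + dist (Quotient.mk s y) (x n)), by
      have := dist_nonneg (x := Quotient.mk s y) (y := x n)
      constructor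
      · positivity
      · rw [div_lt_one (by positivity)]
        linarith⟩
  refine ⟨J, ?_, fun y y' => ?_⟩
  · refine continuous_pi fun n => Continuous.subtype_mk ?_ _
    have hd : Continuous fun y => dist (Quotient.mk s y) (x n) :=
      (continuous_quot_mk : Continuous (Quotient.mk s)).dist continuous_const
    refine (continuous_const.add hd).div (continuous_const.add hd) fun y => ?_
    have := dist_nonneg (x := Quotient.mk s y) (y := x n)
    positivity
  · rw [← hrel]
    constructor
    · intro h
      have h1 : ∀ n, dist (Quotient.mk s y) (x n) = dist (Quotient.mk s y') (x n) := by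
        intro n
        have h2 := congrArg (fun f : ℕ → Set.Ioo (0 : ℝ) 1 => (f n : ℝ)) h
        simp only [J] at h2
        have p1 := dist_nonneg (x := Quotient.mk s y) (y := x n)
        have p2 := dist_nonneg (x := Quotient.mk s y') (y := x n)
        rw [div_eq_div_iff (by positivity) (by positivity)] at h2
        nlinarith
      have h2 : (fun z => dist (Quotient.mk s y) z) = fun z => dist (Quotient.mk s y') z :=
        hx.equalizer (continuous_const.dist continuous_id) (continuous_const.dist continuous_id)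
          (funext h1)
      have h3 := congrFun h2 (Quotient.mk s y')
      simp only [dist_self] at h3
      exact dist_eq_zero.1 h3
    · intro h
      funext n
      apply Subtype.ext
      simp only [J, h]

end Pool.Agent.MQ
end
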