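import Pool.Agent.Lib.MP_9c87eb_gt.Defs

section

/-! TASK G7a: the pinch map `qm d : [0,1] × QQ → PM`. -/

set_option autoImplicit false

namespace Pool.Agent.MQ

open Set Topology
open Pool.Agent.CRC (UI)

/-- when two points of the interval have the same image on the circle -/
private theorem exp_eq_cases {s s' : UI}
    (h : Circle.exp (2 * Real.pi * (s : ℝ)) = Circle.exp (2 * Real.pi * (s' : ℝ))) :
    s = s' ∨ (s = 0 ∧ s' = 1) ∨ (s = 1 ∧ s' = 0) := by
  rw [Circle.exp_eq_exp] at h
  obtain ⟨m, hm⟩ := h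
  have hpi : (0 : ℝ) < 2 * Real.pi := by positivity
  have h1 : (s : ℝ) = s' + m := by
    have : 2 * Real.pi * (s : ℝ) = 2 * Real.pi * (s' + m) := by rw [hm]; ring
    exact mul_left_cancel₀ hpi.ne' this
  have s0 : (0 : ℝ) ≤ s := s.2.1
  have s1 : (s : ℝ) ≤ 1 := s.2.2
  have t0 : (0 : ℝ) ≤ s' := s'.2.1
  have t1 : (s' : ℝ) ≤ 1 := s'.2.2
  have hm1 : (m : ℝ) ≤ 1 := by linarith
  have hm2 : (-1 : ℝ) ≤ m := by linarith
  have hm1' : m ≤ 1 := by exact_mod_cast hm1
  have hm2' : -1 ≤ m := by exact_mod_cast hm2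
  have hm3 : m = -1 ∨ m = 0 ∨ m = 1 := by omega
  rcases hm3 with rfl | rfl | rfl
  · right
    left
    push_cast at h1
    exact ⟨Subtype.ext (by show (s : ℝ) = 0; linarith), Subtype.ext (by show (s' : ℝ) = 1; linarith)⟩
  · left
    push_cast at h1
    exact Subtype.ext (by linarith)
  · right
    right
    push_cast at h1
    exact ⟨Subtype.ext (by show (s : ℝ) = 1; linarith), Subtype.ext (by show (s' : ℝ) = 0; linarith)⟩

private theorem exp_eq_one_cases {s : UI} (h : Circle.exp (2 * Real.pi * (s : ℝ)) = 1) :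
    s = 0 ∨ s = 1 := by
  have h1 : Circle.exp (2 * Real.pi * (s : ℝ)) = Circle.exp (2 * Real.pi * ((0 : UI) : ℝ)) := by
    rw [h, Set.Icc.coe_zero, mul_zero, Circle.exp_zero]
  rcases exp_eq_cases h1 with h2 | h2 | h2
  · exact Or.inl h2
  · exact Or.inl h2.1
  · exact Or.inr h2.1

private theorem qm_of_mem_PS {d : QQ → ℝ} {p : UI × QQ} (hp : p ∈ PS d) :
    qm d p = ((1 : Circle), (0 : ℝ), fun _ => (0 : VV)) := by
  have hz : zC p = 1 := by
    unfold zC
    rcases hp with h | h
    · rw [h, Set.Icc.coe_one, mul_one, Circle.exp_two_pi]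
    · rw [h.1, Set.Icc.coe_zero, mul_zero, Circle.exp_zero]
  have he : eC d p = 0 := by
    unfold eC
    rcases hp with h | h
    · rw [h, Set.Icc.coe_one, sub_self, mul_zero]
    · rw [h.2, zero_mul]
  unfold qm
  rw [hz, he, Circle.coe_one, sub_self, norm_zero, add_zero]
  simp only [zero_smul]

/-- the fibres of the pinch map: if `exp(2πis) ≠ 1` then `0 < s < 1` and everything can be read off
(`exp(2πi ·)` is injective on `[0,1)`, `‖z - 1‖ + e > 0`); if `exp(2πis) = 1` then `s = 0` or `s = 1`,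
and `eC d (1, x) = 0`, `eC d (0, x) = d x`. -/
theorem qm_eq_iff {d : QQ → ℝ} (h0 : ∀ x, 0 ≤ d x) (p p' : UI × QQ) :
    qm d p = qm d p' ↔ p = p' ∨ (p ∈ PS d ∧ p' ∈ PS d) := by
  constructor
  · intro h
    have hz : zC p = zC p' := congrArg (fun q : PM => q.1) h
    have he : eC d p = eC d p' := congrArg (fun q : PM => q.2.1) h
    have hx : ∀ j, (‖(zC p : ℂ) - 1‖ + eC d p) • (p.2 j : VV) =
        (‖(zC p' : ℂ) - 1‖ + eC d p') • (p'.2 j : VV) := fun j =>
      congrFun (congrArg (fun q : PM => q.2.2) h) j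
    have he0 : 0 ≤ eC d p := mul_nonneg (h0 _) (by linarith [p.1.2.2])
    rcases exp_eq_cases hz with hs | hs | hs
    · by_cases hpos : ‖(zC p : ℂ) - 1‖ + eC d p = 0
      · right
        have hn := norm_nonneg ((zC p : ℂ) - 1)
        have e1 : ‖(zC p : ℂ) - 1‖ = 0 := by linarith
        have e2 : eC d p = 0 := by linarith
        have e3 : zC p = 1 := by
          apply Circle.ext
          rw [Circle.coe_one]
          exact sub_eq_zero.1 (norm_eq_zero.1 e1)
        rcases exp_eq_one_cases e3 with h1 | h1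
        · have h2 : p'.1 = 0 := by rw [← hs]; exact h1
          have e4 : d p.2 = 0 := by
            have : d p.2 * (1 - (p.1 : ℝ)) = 0 := e2
            rwa [h1, Set.Icc.coe_zero, sub_zero, mul_one] at this
          have e5 : d p'.2 = 0 := by
            have : d p'.2 * (1 - (p'.1 : ℝ)) = 0 := by
              show eC d p' = 0
              rw [← he, e2]
            rwa [h2, Set.Icc.coe_zero, sub_zero, mul_one] at this
          exact ⟨Or.inr ⟨h1, e4⟩, Or.inr ⟨h2, e5⟩⟩
        · have h2 : p'.1 = 1 := by rw [← hs]; exact h1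
          exact ⟨Or.inl h1, Or.inl h2⟩
      · left
        refine Prod.ext hs (funext fun j => Subtype.ext ?_)
        have h1 := hx j
        rw [← hz, ← he] at h1
        exact smul_right_injective VV hpos h1
    · right
      have e1 : eC d p' = 0 := by
        show d p'.2 * (1 - (p'.1 : ℝ)) = 0
        rw [hs.2, Set.Icc.coe_one, sub_self, mul_zero]
      have e2 : d p.2 * (1 - (p.1 : ℝ)) = 0 := by
        show eC d p = 0
        rw [he, e1]
      rw [hs.1, Set.Icc.coe_zero, sub_zero, mul_one] at e2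
      exact ⟨Or.inr ⟨hs.1, e2⟩, Or.inl hs.2⟩
    · right
      have e1 : eC d p = 0 := by
        show d p.2 * (1 - (p.1 : ℝ)) = 0
        rw [hs.1, Set.Icc.coe_one, sub_self, mul_zero]
      have e2 : d p'.2 * (1 - (p'.1 : ℝ)) = 0 := by
        show eC d p' = 0
        rw [← he, e1]
      rw [hs.2, Set.Icc.coe_zero, sub_zero, mul_one] at e2
      exact ⟨Or.inl hs.1, Or.inr ⟨hs.2, e2⟩⟩
  · rintro (rfl | ⟨h1, h2⟩)
    · rfl
    · rw [qm_of_mem_PS h1, qm_of_mem_PS h2]

theorem continuous_qm {d : QQ → ℝ} (hd : Continuous d) : Continuous (qm d) := by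
  have h1 : Continuous fun p : UI × QQ => (p.1 : ℝ) := continuous_subtype_val.comp continuous_fst
  have h2 : Continuous fun p : UI × QQ => zC p :=
    Circle.exp.continuous.comp (continuous_const.mul h1)
  have h3 : Continuous fun p : UI × QQ => eC d p :=
    (hd.comp continuous_snd).mul (continuous_const.sub h1)
  have h4 : Continuous fun p : UI × QQ => ((zC p : ℂ)) := continuous_subtype_val.comp h2
  have h5 : Continuous fun p : UI × QQ => ‖(zC p : ℂ) - 1‖ + eC d p :=
    ((h4.sub continuous_const).norm).add h3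
  refine h2.prodMk (h3.prodMk (continuous_pi fun j => ?_))
  have h6 : Continuous fun p : UI × QQ => (p.2 j : VV) :=
    continuous_subtype_val.comp ((continuous_apply j).comp continuous_snd)
  exact h5.smul h6

theorem continuous_qP {d : QQ → ℝ} (hd : Continuous d) : Continuous (qP d) := by
  exact (continuous_qm hd).subtype_mk _

theorem qP_surjective (d : QQ → ℝ) : Function.Surjective (qP d) := by
  rintro ⟨_, p, rfl⟩
  exact ⟨p, rfl⟩

theorem compactSpace_PP {d : QQ → ℝ} (hd : Continuous d) : CompactSpace (PP d) := by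
  exact isCompact_iff_compactSpace.mp (isCompact_range (continuous_qm hd))

theorem isQuotientMap_qP {d : QQ → ℝ} (hd : Continuous d) : IsQuotientMap (qP d) := by
  exact (continuous_qP hd).isClosedMap.isQuotientMap (continuous_qP hd) (qP_surjective d)

end Pool.Agent.MQ
end

section

/-! TASK G7b: lifting of functions and homeomorphisms to the pinched space. -/

set_option autoImplicit false

namespace Pool.Agent.MQ

open Set Topology
open Pool.Agent.CRC (UI)

/-- continuous functions on `[0,1] × QQ` which are constant on the pinched set descend -/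
theorem exists_lift {d : QQ → ℝ} (hd : Continuous d) (h0 : ∀ x, 0 ≤ d x) {Y : Type}
    [TopologicalSpace Y] (h : UI × QQ → Y) (hc : Continuous h)
    (hh : ∀ p ∈ PS d, ∀ p' ∈ PS d, h p = h p') :
    ∃ k : PP d → Y, Continuous k ∧ ∀ p, k (qP d p) = h p := by
  set f : C(UI × QQ, PP d) := ⟨qP d, continuous_qP hd⟩ with hf
  have hq : IsQuotientMap f := isQuotientMap_qP hd
  have hk : Function.FactorsThrough (⟨h, hc⟩ : C(UI × QQ, Y)) f := by
    intro a b hab
    have h1 : qm d a = qm d b := congrArg Subtype.val hab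
    show h a = h b
    rcases (qm_eq_iff h0 a b).1 h1 with h2 | h2
    · rw [h2]
    · exact hh a h2.1 b h2.2
  refine ⟨hq.lift ⟨h, hc⟩ hk, ContinuousMap.continuous _, fun p => ?_⟩
  have h2 := hq.lift_comp ⟨h, hc⟩ hk
  exact DFunLike.congr_fun h2 p

/-- homeomorphisms of `[0,1] × QQ` which fix the pinched set pointwise descend -/
theorem exists_lift_homeo {d : QQ → ℝ} (hd : Continuous d) (h0 : ∀ x, 0 ≤ d x)
    (Θ : (UI × QQ) ≃ₜ (UI × QQ)) (hΘ : ∀ p ∈ PS d, Θ p = p) :
    ∃ k : PP d ≃ₜ PP d, ∀ p, k (qP d p) = qP d (Θ p) := by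
  have hPS : ∀ p ∈ PS d, ∀ p' ∈ PS d, qP d p = qP d p' := fun p hp p' hp' =>
    Subtype.ext ((qm_eq_iff h0 p p').2 (Or.inr ⟨hp, hp'⟩))
  have hΘ' : ∀ p ∈ PS d, Θ.symm p = p := fun p hp => by
    conv_lhs => rw [← hΘ p hp]
    exact Θ.symm_apply_apply p
  obtain ⟨k, hk, hkq⟩ := exists_lift hd h0 (fun p => qP d (Θ p))
    ((continuous_qP hd).comp Θ.continuous) (fun p hp p' hp' => by
      simp only [hΘ p hp, hΘ p' hp']
      exact hPS p hp p' hp')
  obtain ⟨k', hk', hkq'⟩ := exists_lift hd h0 (fun p => qP d (Θ.symm p))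
    ((continuous_qP hd).comp Θ.symm.continuous) (fun p hp p' hp' => by
      simp only [hΘ' p hp, hΘ' p' hp']
      exact hPS p hp p' hp')
  refine ⟨⟨⟨k, k', ?_, ?_⟩, hk, hk'⟩, hkq⟩
  · intro y
    obtain ⟨p, rfl⟩ := qP_surjective d y
    rw [hkq, hkq', Θ.symm_apply_apply]
  · intro y
    obtain ⟨p, rfl⟩ := qP_surjective d y
    rw [hkq', hkq, Θ.apply_symm_apply]

end Pool.Agent.MQ
end

section

/-! TASK G7c: the map `cm : S¹ × QQ → PP 0`. (`Circle.exp (2 * π * s)`, `s ∈ [0,1]`, is all of the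
circle, also for `s ∈ [0,1)`; for `z = 1` the third coordinate of `cm` is `0`; for `z ≠ 1` one can divide
by `‖z - 1‖`. Do not use the file `Pinch1`.) -/

set_option autoImplicit false

namespace Pool.Agent.MQ

open Set Topology
open Pool.Agent.CRC (UI)

private theorem exists_UI (z : Circle) : ∃ s : UI, Circle.exp (2 * Real.pi * (s : ℝ)) = z := by
  have hpi : (2 : ℝ) * Real.pi ≠ 0 := by positivity
  set t : ℝ := Complex.arg (z : ℂ) / (2 * Real.pi) with ht
  refine ⟨⟨Int.fract t, Int.fract_nonneg t, (Int.fract_lt_one t).le⟩, ?_⟩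
  have h1 : 2 * Real.pi * Int.fract t =
      Complex.arg (z : ℂ) + ((-⌊t⌋ : ℤ) : ℝ) * (2 * Real.pi) := by
    have h2 : Complex.arg (z : ℂ) = 2 * Real.pi * t := by
      rw [ht]
      field_simp
    rw [h2, Int.fract]
    push_cast
    ring
  have h3 : Circle.exp (2 * Real.pi * Int.fract t) = Circle.exp (Complex.arg (z : ℂ)) :=
    Circle.exp_eq_exp.2 ⟨-⌊t⌋, h1⟩
  exact h3.trans (Circle.exp_arg z)

private theorem cm_eq_qm (s : UI) (x : QQ) :
    cm (zC (s, x), x) = qm (0 : QQ → ℝ) (s, x) := by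
  have he : eC (0 : QQ → ℝ) (s, x) = 0 := by
    unfold eC
    rw [Pi.zero_apply, zero_mul]
  unfold cm qm
  rw [he]
  simp only [add_zero]

theorem cm_mem (p : Circle × QQ) : cm p ∈ Set.range (qm (0 : QQ → ℝ)) := by
  obtain ⟨s, hs⟩ := exists_UI p.1
  refine ⟨(s, p.2), ?_⟩
  rw [← cm_eq_qm]
  have h : zC (s, p.2) = p.1 := hs
  rw [h]

/-- the map `S¹ × QQ → PP 0` -/
noncomputable def cP (p : Circle × QQ) : PP (0 : QQ → ℝ) := ⟨cm p, cm_mem p⟩

theorem continuous_cP : Continuous cP := by
  apply Continuous.subtype_mk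
  have h1 : Continuous fun p : Circle × QQ => ‖(p.1 : ℂ) - 1‖ :=
    ((continuous_subtype_val.comp continuous_fst).sub continuous_const).norm
  refine continuous_fst.prodMk (continuous_const.prodMk (continuous_pi fun j => ?_))
  have h6 : Continuous fun p : Circle × QQ => (p.2 j : VV) :=
    continuous_subtype_val.comp ((continuous_apply j).comp continuous_snd)
  exact h1.smul h6

theorem cP_surjective : Function.Surjective cP := by
  rintro ⟨_, ⟨s, x⟩, rfl⟩
  exact ⟨(zC (s, x), x), Subtype.ext (cm_eq_qm s x)⟩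

/-- `cP (exp(2πis), x) = qP 0 (s, x)` -/
theorem cP_zC (s : UI) (x : QQ) : cP (zC (s, x), x) = qP 0 (s, x) := by
  exact Subtype.ext (cm_eq_qm s x)

/-- the fibres of `cP` -/
theorem cP_eq_iff (p p' : Circle × QQ) : cP p = cP p' ↔ p = p' ∨ (p.1 = 1 ∧ p'.1 = 1) := by
  constructor
  · intro h
    have h1 : cm p = cm p' := congrArg Subtype.val h
    have hz : p.1 = p'.1 := congrArg (fun q : PM => q.1) h1
    have hx : ∀ j, ‖(p.1 : ℂ) - 1‖ • (p.2 j : VV) = ‖(p'.1 : ℂ) - 1‖ • (p'.2 j : VV) :=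
      fun j => congrFun (congrArg (fun q : PM => q.2.2) h1) j
    by_cases h2 : ‖(p.1 : ℂ) - 1‖ = 0
    · right
      have e3 : p.1 = 1 := by
        apply Circle.ext
        rw [Circle.coe_one]
        exact sub_eq_zero.1 (norm_eq_zero.1 h2)
      exact ⟨e3, by rw [← hz, e3]⟩
    · left
      refine Prod.ext hz (funext fun j => Subtype.ext ?_)
      have h3 := hx j
      rw [← hz] at h3
      exact smul_right_injective VV h2 h3
  · rintro (rfl | ⟨h1, h2⟩)
    · rfl
    · apply Subtype.ext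
      show cm p = cm p'
      unfold cm
      rw [h1, h2, Circle.coe_one, sub_self, norm_zero]
      simp only [zero_smul]

end Pool.Agent.MQ
end

section

/-! Facts about the pinched spaces (no task: this file only collects imports). -/
end
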