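import Pool.Agent.Lib.MP_9c87eb_gt.Mg.G006
import Pool.Agent.Lib.MP_9c87eb_gt.Mg.G004
import Pool.Agent.Lib.MP_9c87eb_gt.Mg.G005

section

/-! TASK G5: homeomorphisms of `QQ` which move `Phi B` into `{x | x i = 0 for i ≤ m}` and which are
`good` near `Phi B`.

Let `P` be as in `exists_push`, `cmp B i 0 z = z`, `cmp B i (k+1) z = B.f i (cmp B (i+1) k z)`
(composite of the bonding maps from level `i + k` to level `i`), and
`T x i = P (cmp B i (m - i) (B.g m (x (m+1)))) (x i)` for `i ≤ m`, `T x i = x i` for `i > m`.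
`T` is continuous and bijective (the coordinates `> m` are not changed), so a homeomorphism
(`Continuous.homeoOfEquivCompactToT2`).
If `x ∈ Phi B` then `x i = quart (z i)` with `z i = B.g i (x (i+1))`, `z i = B.f i (z (i+1))`
(by `B.hgf`), so `cmp B i (m-i) (B.g m (x (m+1))) = z i` and `T x i = 0` for `i ≤ m`.
Conversely `T x i = 0` for all `i ≤ m` iff `x i = quart (cmp B i (m-i) (B.g m (x (m+1))))` for
`i ≤ m`; then `x i = quart (B.g i (x (i+1)))` for all `i ≤ m` (for `i < m`:
`x (i+1) = quart w`, `B.g i (quart w) = B.f i w`). The closed sets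
`G m = {x | ∀ i ≤ m, x i = quart (B.g i (x (i+1)))}` decrease to `Phi B ⊆ O`, so `G m ⊆ O` for
some `m` (compactness), and then `{x | ∀ i ≤ m, ‖T x i‖ ≤ κ} ⊆ O` for some `κ > 0` (compactness
again; or `T` is a homeomorphism and the complement of `O` is compact). -/

set_option autoImplicit false

namespace Pool.Agent.MQ

open Set Topology
open Pool.Agent.CRC (S3 rot)

/-- composite of the bonding maps from level `i + k` to level `i` -/
private def g5c (B : BondSys) : ℕ → ℕ → S3 → S3
  | _, 0, z => z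
  | i, k + 1, z => B.f i (g5c B (i + 1) k z)

private theorem g5c_cont (B : BondSys) : ∀ k i, Continuous (g5c B i k)
  | 0, _ => continuous_id
  | k + 1, i => (B.hf i).comp (g5c_cont B k (i + 1))

private theorem g5c_eq (B : BondSys) (x : QQ) : ∀ k i,
    (∀ j, i < j → j ≤ i + k → (x j : VV) = quart (B.g j (x (j + 1) : VV))) →
    g5c B i k (B.g (i + k) (x (i + k + 1) : VV)) = B.g i (x (i + 1) : VV)
  | 0, _, _ => rfl
  | k + 1, i, h => by
    have h1 := g5c_eq B x k (i + 1) fun j hj hj' => h j (by omega) (by omega)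
    have h2 : i + (k + 1) = i + 1 + k := by omega
    have h3 : g5c B i (k + 1) (B.g (i + (k + 1)) (x (i + (k + 1) + 1) : VV)) =
        B.f i (g5c B (i + 1) k (B.g (i + 1 + k) (x (i + 1 + k + 1) : VV))) := by
      rw [h2]
      rfl
    rw [h3, h1, ← B.hgf, ← h (i + 1) (by omega) (by omega)]

theorem exists_theta (B : BondSys) (O : Set QQ) (hO : IsOpen O) (hΦ : Phi B ⊆ O) :
    ∃ (m : ℕ) (T : QQ ≃ₜ QQ) (κ : ℝ), 0 < κ ∧ κ ≤ 1 ∧
      (∀ x ∈ Phi B, ∀ i ≤ m, (T x i : VV) = 0) ∧
      ∀ x : QQ, (∀ i ≤ m, ‖(T x i : VV)‖ ≤ κ) → x ∈ O := by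
  classical
  obtain ⟨P, hPc, hPb, hP0⟩ := exists_push
  have hgc : ∀ i, Continuous fun x : QQ => B.g i (x (i + 1) : VV) := fun i =>
    (B.hg i).comp (continuous_subtype_val.comp (continuous_apply (i + 1)))
  obtain ⟨m, hm⟩ : ∃ m : ℕ, {x : QQ | ∀ i ≤ m, (x i : VV) = quart (B.g i (x (i + 1) : VV))} ⊆ O := by
    refine exists_subset_nhds_of_compactSpace
      (V := fun m : ℕ => {x : QQ | ∀ i ≤ m, (x i : VV) = quart (B.g i (x (i + 1) : VV))}) ?_ ?_ ?_
    · refine directed_of_isDirected_le fun a b hab x hx i hi => hx i (hi.trans hab)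
    · intro m
      simp only [Set.ofPred_forall]
      refine isClosed_iInter fun i => isClosed_iInter fun _ => ?_
      exact isClosed_eq (continuous_subtype_val.comp (continuous_apply i))
        (continuous_quart.comp (hgc i))
    · intro x hx
      refine hO.mem_nhds (hΦ fun j => ?_)
      exact (mem_iInter.1 hx j) j le_rfl
  -- the homeomorphism
  let Z : ℕ → QQ → S3 := fun i x => g5c B i (m - i) (B.g m (x (m + 1) : VV))
  have hZc : ∀ i, Continuous (Z i) := fun i => (g5c_cont B (m - i) i).comp (hgc m)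
  let T : QQ → QQ := fun x i => if i ≤ m then P (Z i x) (x i) else x i
  have hT1 : ∀ x i, i ≤ m → T x i = P (Z i x) (x i) := fun x i hi => if_pos hi
  have hT2 : ∀ x i, ¬ i ≤ m → T x i = x i := fun x i hi => if_neg hi
  have hTc : Continuous T := by
    refine continuous_pi fun i => ?_
    by_cases hi : i ≤ m
    · simp only [T, if_pos hi]
      exact hPc.comp ((hZc i).prodMk (continuous_apply i))
    · simp only [T, if_neg hi]
      exact continuous_apply i
  have hZ : ∀ x y : QQ, x (m + 1) = y (m + 1) → ∀ i, Z i x = Z i y := by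
    intro x y h i
    simp only [Z, h]
  have hTb : Function.Bijective T := by
    constructor
    · intro x y hxy
      have h1 : x (m + 1) = y (m + 1) := by
        rw [← hT2 x (m + 1) (by omega), ← hT2 y (m + 1) (by omega), hxy]
      funext i
      by_cases hi : i ≤ m
      · have h2 := congrFun hxy i
        rw [hT1 x i hi, hT1 y i hi, hZ x y h1 i] at h2
        exact (hPb _).1 h2
      · rw [← hT2 x i hi, ← hT2 y i hi, hxy]
    · intro y
      choose u hu using fun i => (hPb (Z i y)).2 (y i)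
      let x : QQ := fun i => if i ≤ m then u i else y i
      have hx1 : ∀ i, i ≤ m → x i = u i := fun i hi => if_pos hi
      have hx2 : ∀ i, ¬ i ≤ m → x i = y i := fun i hi => if_neg hi
      refine ⟨x, funext fun i => ?_⟩
      by_cases hi : i ≤ m
      · rw [hT1 x i hi, hx1 i hi, hZ x y (hx2 (m + 1) (by omega)) i, hu i]
      · rw [hT2 x i hi, hx2 i hi]
  let E : QQ ≃ QQ := Equiv.ofBijective T hTb
  have hEc : Continuous E := hTc
  let H : QQ ≃ₜ QQ := hEc.homeoOfEquivCompactToT2
  have hH : ∀ x, H x = T x := fun x => rfl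
  have hT0 : ∀ x : QQ, (∀ i ≤ m, (T x i : VV) = 0) → x ∈ O := by
    intro x hx
    refine hm ?_
    have h1 : ∀ k, ∀ i, i ≤ m → m - k ≤ i → (x i : VV) = quart (B.g i (x (i + 1) : VV)) := by
      intro k
      induction k with
      | zero =>
        intro i hi hi'
        have h2 : i = m := by omega
        subst h2
        have h3 := hx i le_rfl
        rw [hT1 x i le_rfl, hP0] at h3
        rw [h3]
        simp only [Z, Nat.sub_self]
        rfl
      | succ k ih =>
        intro i hi hi'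
        by_cases h2 : m - k ≤ i
        · exact ih i hi h2
        · have h3 := hx i hi
          rw [hT1 x i hi, hP0] at h3
          have h4 := g5c_eq B x (m - i) i fun j hj hj' => ih j (by omega) (by omega)
          have h5 : i + (m - i) = m := by omega
          rw [h5] at h4
          rw [h3]
          exact congrArg quart h4
    intro i hi
    exact h1 m i hi (by omega)
  obtain ⟨n, hn⟩ : ∃ n : ℕ, {x : QQ | ∀ i ≤ m, ‖(T x i : VV)‖ ≤ 1 / ((n : ℝ) + 1)} ⊆ O := by
    refine exists_subset_nhds_of_compactSpace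
      (V := fun n : ℕ => {x : QQ | ∀ i ≤ m, ‖(T x i : VV)‖ ≤ 1 / ((n : ℝ) + 1)}) ?_ ?_ ?_
    · refine directed_of_isDirected_le fun a b hab x hx i hi => (hx i hi).trans ?_
      exact one_div_le_one_div_of_le (by positivity) (by exact_mod_cast Nat.succ_le_succ hab)
    · intro n
      simp only [Set.ofPred_forall]
      refine isClosed_iInter fun i => isClosed_iInter fun _ => ?_
      exact isClosed_le (continuous_subtype_val.comp ((continuous_apply i).comp hTc)).norm
        continuous_const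
    · intro x hx
      refine hO.mem_nhds (hT0 x fun i hi => ?_)
      rw [← norm_le_zero_iff]
      refine ge_of_tendsto' tendsto_one_div_add_atTop_nhds_zero_nat fun n => ?_
      exact (mem_iInter.1 hx n) i hi
  refine ⟨m, H, 1 / ((n : ℝ) + 1), by positivity, ?_, ?_, fun x hx => hn fun i hi => hx i hi⟩
  · rw [div_le_one (by positivity)]
    have : (0 : ℝ) ≤ n := by positivity
    linarith
  · intro x hx i hi
    rw [hH, hT1 x i hi, hP0]
    have h4 := g5c_eq B x (m - i) i fun j _ _ => hx j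
    have h5 : i + (m - i) = m := by omega
    rw [h5] at h4
    rw [hx i]
    exact congrArg quart h4.symm

end Pool.Agent.MQ
end

section

/-! TASK G8: `PP d → PP 0`, `qP d p ↦ qP 0 p` is approximable by homeomorphisms.

The map `f` exists by `exists_lift` (`PS d ⊆ PS 0`, and `qP 0` is constant on `PS 0`). Its only
nondegenerate fibre is the image of `{s = 0} ∪ {s = 1}`. Use `bing`. Given `V, V'` choose
`ε ≤ 1/2` such that `(qP 0 p, qP 0 p') ∈ V'` for all `p, p'` with first coordinate `≤ ε`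
(the third coordinates of `qm 0 p` are `‖exp(2πis) - 1‖ • x j`), and an open `O ⊇ Phi B` with
`(qP d (0, x), qP d (0, x')) ∈ V` for `x, x' ∈ O` and `(qP d (0, x), *) ∈ V`, `(*, qP d (0, x)) ∈ V`
(`*` the pinch point `= qP d (0, x)` for `x ∈ Phi B` and `= qP d (1, x)`; for `Phi B = ∅` argue with
`exists_theta` and `O = ∅`: contradiction). With `T, m, κ` from `exists_theta` and `S` from
`exists_squeeze m ε κ` let `Ξ = (id × T)⁻¹ ∘ S ∘ (id × T)`: it fixes `PS d` pointwise and maps
`{0} × QQ` into `{0} × O`. Take `Θ = ` the homeomorphism of `PP d` induced by `Ξ`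
(`exists_lift_homeo`). -/

set_option autoImplicit false

namespace Pool.Agent.MQ

open Set Topology Uniformity
open Pool.Agent.CRC (UI)

theorem collapse_cgC : (𝓤 Circle).IsCountablyGenerated :=
  EMetric.instIsCountablyGeneratedUniformity (α := Circle)

theorem collapse_cg (d : QQ → ℝ) : (𝓤 (PP d)).IsCountablyGenerated := by
  have h := collapse_cgC
  have h1 : (𝓤 PM).IsCountablyGenerated := inferInstance
  rw [uniformity_subtype]
  infer_instance

theorem collapse_qP_eq {d : QQ → ℝ} (h0 : ∀ x, 0 ≤ d x) {p p' : UI × QQ}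
    (hp : p ∈ PS d) (hp' : p' ∈ PS d) : qP d p = qP d p' :=
  Subtype.ext ((qm_eq_iff h0 p p').2 (Or.inr ⟨hp, hp'⟩))

theorem collapse_PS_zero {d : QQ → ℝ} {p : UI × QQ} (hp : p ∈ PS d) :
    p ∈ PS (0 : QQ → ℝ) := by
  rcases hp with h | h
  · exact Or.inl h
  · exact Or.inr ⟨h.1, rfl⟩

theorem near_collapse (B : BondSys) {d : QQ → ℝ} (hd : Continuous d) (h0 : ∀ x, 0 ≤ d x)
    (hz : ∀ x, d x = 0 ↔ x ∈ Phi B) (V : Set (PP 0 × PP 0)) (hV : V ∈ 𝓤 (PP 0)) :
    ∃ g : PP d ≃ₜ PP 0, ∀ p, (g (qP d p), qP 0 p) ∈ V := by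
  classical
  have hz0 : Continuous (0 : QQ → ℝ) := continuous_const
  have h00 : ∀ x : QQ, 0 ≤ (0 : QQ → ℝ) x := fun _ => le_refl _
  have hcX : CompactSpace (PP d) := compactSpace_PP hd
  have hcY : CompactSpace (PP (0 : QQ → ℝ)) := compactSpace_PP hz0
  have hgX : (𝓤 (PP d)).IsCountablyGenerated := collapse_cg d
  have hgY : (𝓤 (PP (0 : QQ → ℝ))).IsCountablyGenerated := collapse_cg 0
  obtain ⟨f, hfc, hf⟩ := exists_lift hd h0 (qP 0) (continuous_qP hz0) (by
    intro p hp p' hp'
    exact collapse_qP_eq h00 (collapse_PS_zero hp) (collapse_PS_zero hp'))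
  have hfs : Function.Surjective f := by
    intro y
    obtain ⟨p, rfl⟩ := qP_surjective 0 y
    exact ⟨qP d p, hf p⟩
  have hmain : ∀ V ∈ 𝓤 (PP d), ∀ V' ∈ 𝓤 (PP (0 : QQ → ℝ)), ∃ Θ : PP d ≃ₜ PP d,
      (∀ x, (f (Θ x), f x) ∈ V') ∧ ∀ x x', f x = f x' → (Θ x, Θ x') ∈ V := by
    intro V hV V' hV'
    obtain ⟨W', hW', hW's, hW'V⟩ := comp_symm_mem_uniformity_sets hV'
    obtain ⟨W, hW, hWs, hWV⟩ := comp_symm_mem_uniformity_sets hV
    let x₀ : QQ := fun _ => ⟨0, by simp⟩
    -- the scale ε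
    have hev : ∀ᶠ s in 𝓝 (0 : UI), ∀ x ∈ (Set.univ : Set QQ),
        (qP 0 ((0 : UI), x₀), qP 0 (s, x)) ∈ W' := by
      refine IsCompact.eventually_forall_of_forall_eventually isCompact_univ ?_
      intro y _
      have h1 : Filter.Tendsto (fun z : UI × QQ => qP 0 z) (𝓝 ((0 : UI), y))
          (𝓝 (qP 0 ((0 : UI), y))) := (continuous_qP hz0).continuousAt
      have h2 : qP 0 ((0 : UI), y) = qP 0 ((0 : UI), x₀) :=
        collapse_qP_eq h00 (Or.inr ⟨rfl, rfl⟩) (Or.inr ⟨rfl, rfl⟩)
      rw [h2] at h1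
      exact h1 (UniformSpace.ball_mem_nhds _ hW')
    obtain ⟨ε', hε', hε⟩ := Metric.eventually_nhds_iff.1 hev
    obtain ⟨ε, hε0, hε1, hεε⟩ : ∃ ε : ℝ, 0 < ε ∧ ε ≤ 1 ∧ ε < ε' :=
      ⟨min (ε' / 2) (1 / 2), by positivity, (min_le_right _ _).trans (by norm_num),
        (min_le_left _ _).trans_lt (by linarith)⟩
    have hsmall : ∀ p : UI × QQ, (p.1 : ℝ) ≤ ε → (qP 0 ((0 : UI), x₀), qP 0 p) ∈ W' := by
      intro p hp
      refine hε ?_ p.2 (Set.mem_univ _)
      rw [Subtype.dist_eq, Real.dist_eq]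
      have h1 : ((0 : UI) : ℝ) = 0 := rfl
      rw [h1, sub_zero, abs_of_nonneg p.1.2.1]
      exact hp.trans_lt hεε
    -- the neighbourhood O
    let O : Set QQ := {x | qP d ((0 : UI), x) ∈
      interior (UniformSpace.ball (qP d ((1 : UI), x₀)) W)}
    have hO : IsOpen O := by
      refine isOpen_interior.preimage ?_
      exact (continuous_qP hd).comp (continuous_const.prodMk continuous_id)
    have hOΦ : Phi B ⊆ O := by
      intro x hx
      have h1 : qP d ((0 : UI), x) = qP d ((1 : UI), x₀) :=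
        collapse_qP_eq h0 (Or.inr ⟨rfl, (hz x).2 hx⟩) (Or.inl rfl)
      change qP d ((0 : UI), x) ∈ interior (UniformSpace.ball (qP d ((1 : UI), x₀)) W)
      rw [h1]
      exact mem_interior_iff_mem_nhds.2 (UniformSpace.ball_mem_nhds _ hW)
    have hOW : ∀ x ∈ O, (qP d ((1 : UI), x₀), qP d ((0 : UI), x)) ∈ W := by
      intro x hx
      have hx' : qP d ((0 : UI), x) ∈ interior (UniformSpace.ball (qP d ((1 : UI), x₀)) W) := hx
      have hx2 : qP d ((0 : UI), x) ∈ UniformSpace.ball (qP d ((1 : UI), x₀)) W :=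
        interior_subset hx'
      exact hx2
    obtain ⟨m, T, κ, hκ, hκ1, hT0, hTO⟩ := exists_theta B O hO hOΦ
    obtain ⟨S, hS1, hS2, hS3, hS4⟩ := exists_squeeze m ε κ hε0 hε1 hκ hκ1
    let iT : (UI × QQ) ≃ₜ (UI × QQ) := (Homeomorph.refl UI).prodCongr T
    have hiT : ∀ p : UI × QQ, iT p = (p.1, T p.2) := fun p => rfl
    have hiTs : ∀ p : UI × QQ, iT.symm p = (p.1, T.symm p.2) := fun p => rfl
    let Ξ : (UI × QQ) ≃ₜ (UI × QQ) := (iT.trans S).trans iT.symm
    have hΞ : ∀ p, Ξ p = iT.symm (S (iT p)) := fun p => rfl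
    have hΞfix : ∀ p ∈ PS d, Ξ p = p := by
      rintro p (hp | ⟨hp, hp'⟩)
      · rw [hΞ, hS1 (iT p), Homeomorph.symm_apply_apply]
        rw [hiT, hp]
        exact hε1
      · have h1 : S (iT p) = iT p := by
          rw [hiT, hp]
          exact hS3 _ (hT0 _ ((hz _).1 hp'))
        rw [hΞ, h1, Homeomorph.symm_apply_apply]
    have hΞ0 : ∀ x : QQ, (Ξ ((0 : UI), x)).1 = 0 ∧ (Ξ ((0 : UI), x)).2 ∈ O := by
      intro x
      obtain ⟨h1, h2⟩ := hS4 (T x)
      rw [hΞ, hiT, hiTs]
      refine ⟨h1, hTO _ ?_⟩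
      intro i hi
      rw [Homeomorph.apply_symm_apply]
      exact h2 i hi
    obtain ⟨Θ, hΘ⟩ := exists_lift_homeo hd h0 Ξ hΞfix
    refine ⟨Θ, ?_, ?_⟩
    · intro x
      obtain ⟨p, rfl⟩ := qP_surjective d x
      rw [hΘ, hf, hf]
      rcases le_or_gt ε (p.1 : ℝ) with hp | hp
      · have h1 : Ξ p = p := by
          rw [hΞ, hS1 (iT p) hp, Homeomorph.symm_apply_apply]
        rw [h1]
        exact refl_mem_uniformity hV'
      · have h1 : ((Ξ p).1 : ℝ) ≤ ε := by
          rw [hΞ, hiTs]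
          exact hS2 (iT p) hp.le
        refine hW'V ?_
        exact SetRel.prodMk_mem_comp (SetRel.symm W' (hsmall _ h1)) (hsmall p hp.le)
    · intro x x' hxx
      obtain ⟨p, rfl⟩ := qP_surjective d x
      obtain ⟨p', rfl⟩ := qP_surjective d x'
      rw [hf, hf] at hxx
      have h1 := (qm_eq_iff h00 p p').1 (congrArg Subtype.val hxx)
      rcases h1 with h1 | ⟨h1, h2⟩
      · rw [h1]
        exact refl_mem_uniformity hV
      · have h3 : ∀ q ∈ PS (0 : QQ → ℝ), (qP d ((1 : UI), x₀), Θ (qP d q)) ∈ W := by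
          rintro q hq
          rw [hΘ]
          rcases hq with hq | ⟨hq, -⟩
          · have h4 : q ∈ PS d := Or.inl hq
            rw [hΞfix q h4, collapse_qP_eq h0 h4 (Or.inl rfl : ((1 : UI), x₀) ∈ PS d)]
            exact refl_mem_uniformity hW
          · obtain ⟨q1, q2⟩ := q
            simp only at hq
            subst hq
            have h5 := hΞ0 q2
            have h6 : Ξ ((0 : UI), q2) = ((0 : UI), (Ξ ((0 : UI), q2)).2) := Prod.ext h5.1 rfl
            rw [h6]
            exact hOW _ h5.2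
        refine hWV ?_
        exact SetRel.prodMk_mem_comp (SetRel.symm W (h3 p h1)) (h3 p' h2)
  obtain ⟨g, hg⟩ := bing f hfc hfs hmain V hV
  refine ⟨g, fun p => ?_⟩
  have := hg (qP d p)
  rwa [hf] at this

end Pool.Agent.MQ
end
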