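import Pool.Agent.Lib.MP_9c87eb_gt.Defs

section

/-! TASK G9: `QQ × QP ≃ₜ HC`.

`DD` is the product of two closed unit discs of `ℂ`; the disc is homeomorphic to the square
(`exists_homeomorph_image_interior_closure_frontier_eq_unitBall` applied to a closed square in `ℂ`,
or `gaugeRescaleHomeomorph`), so `DD ≃ₜ (Fin 4 → unitInterval)`; then reindex countable products
(`Homeomorph.piCongrLeft`, `Homeomorph.piCurry`-type homeomorphisms). -/

set_option autoImplicit false

namespace Pool.Agent.MQ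

open Set Topology

/-- the order interval `[0,1]` of `Fin 4 → ℝ` is the product -/
private def iccHomeo : ↥(Set.Icc (0 : Fin 4 → ℝ) 1) ≃ₜ (Fin 4 → unitInterval) where
  toFun x := fun i => ⟨x.1 i, x.2.1 i, x.2.2 i⟩
  invFun y := ⟨fun i => (y i : ℝ), fun i => (y i).2.1, fun i => (y i).2.2⟩
  left_inv x := rfl
  right_inv y := rfl
  continuous_toFun := by
    apply continuous_pi
    intro i
    exact Continuous.subtype_mk ((continuous_apply i).comp continuous_subtype_val) _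
  continuous_invFun := by
    apply Continuous.subtype_mk
    apply continuous_pi
    intro i
    exact continuous_subtype_val.comp (continuous_apply i)

private theorem exists_DD_homeo : Nonempty (DD ≃ₜ (Fin 4 → unitInterval)) := by
  have hfr : Module.finrank ℝ (ℂ × ℂ) = Module.finrank ℝ (Fin 4 → ℝ) := by
    rw [Module.finrank_prod, Complex.finrank_real_complex, Module.finrank_fin_fun]
  let L : (ℂ × ℂ) ≃L[ℝ] (Fin 4 → ℝ) := ContinuousLinearEquiv.ofFinrankEq hfr
  set B : Set (ℂ × ℂ) := Metric.closedBall (0 : ℂ × ℂ) 1 with hB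
  set s : Set (Fin 4 → ℝ) := L '' B with hs
  set t : Set (Fin 4 → ℝ) := Set.Icc (0 : Fin 4 → ℝ) 1 with ht
  have hsc : Convex ℝ s := (convex_closedBall (0 : ℂ × ℂ) 1).linear_image L.toLinearEquiv.toLinearMap
  have hscomp : IsCompact s := (isCompact_closedBall (0 : ℂ × ℂ) 1).image L.continuous
  have hsne : (interior s).Nonempty := by
    have h1 : L '' (Metric.ball (0 : ℂ × ℂ) 1) ⊆ interior s := by
      apply interior_maximal
      · exact Set.image_mono Metric.ball_subset_closedBall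
      · exact L.toHomeomorph.isOpenMap _ Metric.isOpen_ball
    exact ⟨L 0, h1 ⟨0, Metric.mem_ball_self one_pos, rfl⟩⟩
  have hsb : Bornology.IsVonNBounded ℝ s :=
    NormedSpace.isVonNBounded_of_isBounded ℝ hscomp.isBounded
  have htc : Convex ℝ t := convex_Icc _ _
  have htne : (interior t).Nonempty := by
    refine ⟨fun _ => 1 / 2, ?_⟩
    rw [ht, ← Set.pi_univ_Icc, interior_pi_set Set.finite_univ]
    intro i _
    show (1 / 2 : ℝ) ∈ interior (Set.Icc (0 : ℝ) 1)
    rw [interior_Icc]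
    constructor <;> norm_num
  have htb : Bornology.IsVonNBounded ℝ t :=
    NormedSpace.isVonNBounded_of_isBounded ℝ (Metric.isBounded_Icc _ _)
  obtain ⟨e, -, he, -⟩ := exists_homeomorph_image_eq hsc hsne hsb htc htne htb
  rw [hscomp.isClosed.closure_eq, (isClosed_Icc : IsClosed t).closure_eq] at he
  exact ⟨(L.toHomeomorph.image B).trans ((e.image s).trans
    ((Homeomorph.setCongr he).trans iccHomeo))⟩

theorem exists_cube_homeo : Nonempty ((QQ × QP) ≃ₜ HC) := by
  obtain ⟨h⟩ := exists_DD_homeo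
  let hQ : QQ ≃ₜ (ℕ × Fin 4 → unitInterval) :=
    (Homeomorph.piCongrRight fun _ : ℕ => h).trans Homeomorph.piCurry.symm
  let hP : QP ≃ₜ (ℕ × (ℕ × Fin 4) → unitInterval) :=
    (Homeomorph.piCongrRight fun _ : ℕ => hQ).trans Homeomorph.piCurry.symm
  obtain ⟨e⟩ : Nonempty ((ℕ × Fin 4) ⊕ (ℕ × (ℕ × Fin 4)) ≃ ℕ) := nonempty_equiv_of_countable
  exact ⟨(hQ.prodCongr hP).trans (Homeomorph.sumArrowHomeomorphProdArrow.symm.trans
    (Homeomorph.piCongrLeft (Y := fun _ => unitInterval) e))⟩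

end Pool.Agent.MQ
end

section

/-! Definitions for the section lemma: families `K : P → Set E` of subsets of a normed space, each
of which is parametrized by `FF = S¹ × HC` compatibly with a function `θ : E → ℂ`. -/

set_option autoImplicit false

namespace Pool.Agent.MQ

open Set Topology

/-- the family `K` is uniformly continuous for the Hausdorff distance -/
def HUC {P : Type} [MetricSpace P] {E : Type} [NormedAddCommGroup E] (K : P → Set E) : Prop :=
  ∀ ε : ℝ, 0 < ε → ∃ δ : ℝ, 0 < δ ∧ ∀ p q, dist p q < δ → ∀ y ∈ K p, ∃ y' ∈ K q, ‖y - y'‖ < ε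

/-- `ψ` parametrizes the set `K0` by `FF`, and `θ ∘ ψ` is close to the circle coordinate -/
structure IsParam {E : Type} [NormedAddCommGroup E] (θ : E → ℂ) (K0 : Set E) (ψ : C(FF, E)) :
    Prop where
  inj : Function.Injective ψ
  rng : Set.range ψ = K0
  close : ∀ x : FF, ‖θ (ψ x) - (x.1 : ℂ)‖ < 1 / 4

/-- `(s, w)` is a state over `C ⊆ P` of accuracy `acc`: `s (p, z)` is within `acc p` of `K p`, and
`θ (s (p, z))` is a positive multiple of `z * exp (i w (p, z))`. -/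
structure IsSt {P : Type} [TopologicalSpace P] {E : Type} [NormedAddCommGroup E] (K : P → Set E)
    (θ : E → ℂ) (C : Set P) (acc : P → ℝ) (s : P × Circle → E) (w : P × Circle → ℝ) : Prop where
  cs : ContinuousOn s (C ×ˢ (Set.univ : Set Circle))
  cw : ContinuousOn w (C ×ˢ (Set.univ : Set Circle))
  near : ∀ p ∈ C, ∀ z, ∃ y ∈ K p, ‖s (p, z) - y‖ < acc p
  ne : ∀ p ∈ C, ∀ z, θ (s (p, z)) ≠ 0
  lift : ∀ p ∈ C, ∀ z, θ (s (p, z)) =
    (‖θ (s (p, z))‖ : ℂ) * ((z : ℂ) * (Circle.exp (w (p, z)) : ℂ))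

/-- `P` has arbitrarily fine coloured partitions with a fixed number of colours -/
def HasGrid (P : Type) [MetricSpace P] : Prop :=
  ∃ N : ℕ, ∀ δ : ℝ, 0 < δ → ∃ (m : ℕ) (l : Fin N → Fin m → P → ℝ),
    (∀ c i, Continuous (l c i)) ∧ (∀ c i p, 0 ≤ l c i p ∧ l c i p ≤ 1) ∧
    (∀ p, ∃ c i, l c i p = 1) ∧
    (∀ c i p q, l c i p ≠ 0 → l c i q ≠ 0 → dist p q < δ) ∧
    ∀ c i i' p, i ≠ i' → l c i p ≠ 0 → l c i' p = 0

end Pool.Agent.MQ
end

section

/-! TASK S1a: approximate retraction to `K0 ≅ S¹ × HC`.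

Extend `ψ⁻¹ : K0 → Circle × HC ⊆ ℂ × HC` to continuous `a : E → ℂ`, `b : E → HC` (Tietze: `K0 = range ψ` is
compact, `ψ` is a closed embedding, `E` is metric, hence normal; `ContinuousMap.exists_extension'`,
instances of `TietzeExtension` for `ℂ` and `ℕ → unitInterval`). At `y = ψ (z, x)`: `a y = z`, `b y = x`,
`‖θ y - z‖ < 1/4`, so `θ y ≠ 0`, `Re (a y / θ y) > 0`. The condition is open and `K0` is compact. -/

set_option autoImplicit false

namespace Pool.Agent.MQ

open Set Topology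

private theorem re_div_pos {z t : ℂ} (hz : ‖z‖ = 1) (h : ‖t - z‖ < 1 / 4) : 0 < (z / t).re := by
  have ht : t ≠ 0 := by
    rintro rfl
    rw [zero_sub, norm_neg, hz] at h
    norm_num at h
  rw [Complex.div_re, ← add_div]
  apply div_pos _ (Complex.normSq_pos.2 ht)
  have h1 : |(t - z).re| ≤ ‖t - z‖ := Complex.abs_re_le_norm _
  have h2 : |(t - z).im| ≤ ‖t - z‖ := Complex.abs_im_le_norm _
  have h3 : z.re * z.re + z.im * z.im = 1 := by
    have := Complex.normSq_eq_norm_sq z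
    rw [hz, Complex.normSq_apply] at this
    linarith
  have h4 : |z.re| ≤ 1 := hz ▸ Complex.abs_re_le_norm z
  have h5 : |z.im| ≤ 1 := hz ▸ Complex.abs_im_le_norm z
  have h6 : z.re * t.re + z.im * t.im = 1 + (z.re * (t - z).re + z.im * (t - z).im) := by
    rw [Complex.sub_re, Complex.sub_im]
    nlinarith
  have h7 : |z.re * (t - z).re| ≤ 1 / 4 := by
    rw [abs_mul]
    calc |z.re| * |(t - z).re| ≤ 1 * (1 / 4) :=
          mul_le_mul h4 (h1.trans h.le) (abs_nonneg _) zero_le_one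
      _ = 1 / 4 := one_mul _
  have h8 : |z.im * (t - z).im| ≤ 1 / 4 := by
    rw [abs_mul]
    calc |z.im| * |(t - z).im| ≤ 1 * (1 / 4) :=
          mul_le_mul h5 (h2.trans h.le) (abs_nonneg _) zero_le_one
      _ = 1 / 4 := one_mul _
  have h9 := (abs_le.1 h7).1
  have h10 := (abs_le.1 h8).1
  rw [h6]
  linarith

theorem exists_retr {E : Type} [NormedAddCommGroup E] [NormedSpace ℝ E] {θ : E → ℂ}
    (hθ : UniformContinuous θ) {K0 : Set E} {ψ : C(FF, E)} (hψ : IsParam θ K0 ψ) {ε : ℝ}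
    (hε : 0 < ε) :
    ∃ (δ : ℝ) (a : C(E, ℂ)) (b : C(E, HC)), 0 < δ ∧
      ∀ y ∈ K0, ∀ y', ‖y' - y‖ < 2 * δ → θ y' ≠ 0 ∧ a y' ≠ 0 ∧ 0 < (a y' / θ y').re ∧
        ∀ ζ : Circle, (ζ : ℂ) = a y' / (‖a y'‖ : ℂ) → ‖ψ (ζ, b y') - y'‖ < ε := by
  have hemb : IsClosedEmbedding ψ := ψ.continuous.isClosedEmbedding hψ.inj
  obtain ⟨a, ha⟩ := ContinuousMap.exists_extension' hemb
    (⟨fun x : FF => (x.1 : ℂ), by fun_prop⟩ : C(FF, ℂ))
  obtain ⟨b, hb⟩ := ContinuousMap.exists_extension' hemb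
    (⟨fun x : FF => x.2, by fun_prop⟩ : C(FF, HC))
  have ha' : ∀ x : FF, a (ψ x) = (x.1 : ℂ) := fun x => congrFun ha x
  have hb' : ∀ x : FF, b (ψ x) = x.2 := fun x => congrFun hb x
  have hcomp : IsCompact K0 := by
    rw [← hψ.rng]
    exact isCompact_range ψ.continuous
  set O : Set E := {y' | θ y' ≠ 0 ∧ a y' ≠ 0 ∧ 0 < (a y' / θ y').re ∧
        ∀ ζ : Circle, (ζ : ℂ) = a y' / (‖a y'‖ : ℂ) → ‖ψ (ζ, b y') - y'‖ < ε} with hO
  have hsub : K0 ⊆ interior O := by
    intro y0 hy0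
    rw [← hψ.rng] at hy0
    obtain ⟨⟨z, x⟩, rfl⟩ := hy0
    rw [mem_interior_iff_mem_nhds]
    have haz : a (ψ (z, x)) = (z : ℂ) := ha' (z, x)
    have hbx : b (ψ (z, x)) = x := hb' (z, x)
    have hz1 : ‖(z : ℂ)‖ = 1 := Circle.norm_coe z
    have hcl : ‖θ (ψ (z, x)) - (z : ℂ)‖ < 1 / 4 := hψ.close (z, x)
    have hθ0 : θ (ψ (z, x)) ≠ 0 := by
      intro h0
      rw [h0, zero_sub, norm_neg, hz1] at hcl
      norm_num at hcl
    have ha0 : a (ψ (z, x)) ≠ 0 := by
      rw [haz]; exact Circle.coe_ne_zero z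
    have hcθ : ContinuousAt θ (ψ (z, x)) := hθ.continuous.continuousAt
    have hca : ContinuousAt a (ψ (z, x)) := a.continuous.continuousAt
    have e1 : ∀ᶠ y' in 𝓝 (ψ (z, x)), θ y' ≠ 0 := hcθ.eventually_ne hθ0
    have e2 : ∀ᶠ y' in 𝓝 (ψ (z, x)), a y' ≠ 0 := hca.eventually_ne ha0
    have e3 : ∀ᶠ y' in 𝓝 (ψ (z, x)), 0 < (a y' / θ y').re := by
      have h1 : ContinuousAt (fun y' => (a y' / θ y').re) (ψ (z, x)) :=
        Complex.continuous_re.continuousAt.comp (hca.div hcθ hθ0)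
      apply h1.eventually_const_lt
      show 0 < (a (ψ (z, x)) / θ (ψ (z, x))).re
      rw [haz]
      exact re_div_pos hz1 hcl
    -- the last condition
    have hψc : ContinuousAt (fun p : FF => ψ p) (z, x) := ψ.continuous.continuousAt
    have h2 : ∀ᶠ p : FF in 𝓝 (z, x), ‖ψ p - ψ (z, x)‖ < ε / 2 := by
      have := hψc.eventually (Metric.ball_mem_nhds _ (half_pos hε))
      filter_upwards [this] with p hp
      rw [← dist_eq_norm]
      exact hp
    rw [nhds_prod_eq, Filter.eventually_prod_iff] at h2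
    obtain ⟨pa, hpa, pb, hpb, hpab⟩ := h2
    obtain ⟨r, hr, hpa'⟩ := Metric.eventually_nhds_iff.1 hpa
    have e4 : ∀ᶠ y' in 𝓝 (ψ (z, x)), ‖a y' / (‖a y'‖ : ℂ) - (z : ℂ)‖ < r := by
      have h3 : ContinuousAt (fun y' => a y' / (‖a y'‖ : ℂ)) (ψ (z, x)) := by
        apply hca.div
        · exact (Complex.continuous_ofReal.continuousAt).comp hca.norm
        · rw [haz, hz1]; simp
      have h4 := h3.eventually (Metric.ball_mem_nhds _ hr)
      filter_upwards [h4] with y' hy'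
      have hy2 : dist (a y' / (‖a y'‖ : ℂ)) (a (ψ (z, x)) / (‖a (ψ (z, x))‖ : ℂ)) < r := hy'
      rw [haz, hz1, Complex.ofReal_one, div_one, dist_eq_norm] at hy2
      exact hy2
    have e5 : ∀ᶠ y' in 𝓝 (ψ (z, x)), pb (b y') := by
      have h5 : Filter.Tendsto b (𝓝 (ψ (z, x))) (𝓝 x) := by
        have := b.continuous.tendsto (ψ (z, x))
        rwa [hbx] at this
      exact h5.eventually hpb
    have e6 : ∀ᶠ y' in 𝓝 (ψ (z, x)), ‖y' - ψ (z, x)‖ < ε / 2 := by
      filter_upwards [Metric.ball_mem_nhds _ (half_pos hε)] with y' hy'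
      rwa [mem_ball_iff_norm] at hy'
    filter_upwards [e1, e2, e3, e4, e5, e6] with y' h1 h2 h3 h4 h5 h6
    refine ⟨h1, h2, h3, ?_⟩
    intro ζ hζ
    have h7 : dist ζ z < r := by
      show dist (ζ : ℂ) (z : ℂ) < r
      rw [dist_eq_norm, hζ]
      exact h4
    have h8 := hpab (hpa' h7) h5
    calc ‖ψ (ζ, b y') - y'‖ = ‖(ψ (ζ, b y') - ψ (z, x)) - (y' - ψ (z, x))‖ := by
          congr 1; abel
      _ ≤ ‖ψ (ζ, b y') - ψ (z, x)‖ + ‖y' - ψ (z, x)‖ := norm_sub_le _ _
      _ < ε / 2 + ε / 2 := add_lt_add h8 h6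
      _ = ε := add_halves ε
  obtain ⟨δ, hδ, hthick⟩ := hcomp.exists_thickening_subset_open isOpen_interior hsub
  refine ⟨δ / 2, a, b, half_pos hδ, ?_⟩
  intro y hy y' hy'
  have h1 : y' ∈ Metric.thickening δ K0 := by
    rw [Metric.mem_thickening_iff]
    refine ⟨y, hy, ?_⟩
    rw [dist_eq_norm]
    linarith
  have h2 : y' ∈ O := interior_subset (hthick h1)
  exact h2

end Pool.Agent.MQ
end
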