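import Pool.Agent.Lib.MP_9c87eb_gt.Mg.G010
import Pool.Agent.Lib.MP_9c87eb_gt.Mg.G007
import Pool.Agent.Lib.MP_9c87eb_gt.Mg.G008
import Pool.Agent.Lib.MP_9c87eb_gt.Mg.G002

section

/-! TASK G10: `FF ≃ₜ PP d × QP` with control of the circle coordinate.

Compose `FF = S¹ × HC ≃ₜ S¹ × (QQ × QP)` (`exists_cube_homeo`), the homeomorphism
`g : S¹ × QQ × QP ≃ₜ PP 0 × QP` of `near_swap`, and `κ.symm × id` with `κ : PP d ≃ₜ PP 0` of
`near_collapse`. The first coordinate of `cP (z, x)` is `z`; `κ (qP d p) ≈ qP 0 p` whose first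
coordinate equals the first coordinate `zC p` of `qP d p` (`qP_surjective`). -/

set_option autoImplicit false

namespace Pool.Agent.MQ

open Set Topology Uniformity

theorem exists_geo (B : BondSys) {d : QQ → ℝ} (hd : Continuous d) (h0 : ∀ x, 0 ≤ d x)
    (hz : ∀ x, d x = 0 ↔ x ∈ Phi B) (ε : ℝ) (hε : 0 < ε) :
    ∃ G : FF ≃ₜ (PP d × QP), ∀ x : FF, dist ((G x).1 : PM).1 x.1 < ε := by
  obtain ⟨e⟩ := exists_cube_homeo
  have hε2 : 0 < ε / 2 := by linarith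
  have hu0 : UniformContinuous fun a : PP 0 => (a : PM).1 :=
    uniformContinuous_fst.comp uniformContinuous_subtype_val
  have hu : UniformContinuous fun a : PP 0 × QP => (a.1 : PM).1 :=
    hu0.comp uniformContinuous_fst
  obtain ⟨g, hg⟩ := near_swap {q | dist (q.1.1 : PM).1 (q.2.1 : PM).1 < ε / 2}
    (hu (Metric.dist_mem_uniformity hε2))
  obtain ⟨κ, hκ⟩ := near_collapse B hd h0 hz {q | dist (q.1 : PM).1 (q.2 : PM).1 < ε / 2}
    (hu0 (Metric.dist_mem_uniformity hε2))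
  have hκ' : ∀ a : PP d, dist (κ a : PM).1 (a : PM).1 < ε / 2 := by
    intro a
    obtain ⟨p, rfl⟩ := qP_surjective d a
    exact hκ p
  refine ⟨((Homeomorph.refl Circle).prodCongr e.symm).trans
    (g.trans (κ.symm.prodCongr (Homeomorph.refl QP))), fun x => ?_⟩
  have h1 : ((((Homeomorph.refl Circle).prodCongr e.symm).trans
      (g.trans (κ.symm.prodCongr (Homeomorph.refl QP)))) x).1 =
      κ.symm (g (x.1, (e.symm x.2).1, (e.symm x.2).2)).1 := rfl
  rw [h1]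
  have h2 := hκ' (κ.symm (g (x.1, (e.symm x.2).1, (e.symm x.2).2)).1)
  rw [Homeomorph.apply_symm_apply] at h2
  have h3 : dist ((g (x.1, (e.symm x.2).1, (e.symm x.2).2)).1 : PM).1 x.1 < ε / 2 :=
    hg x.1 (e.symm x.2).1 (e.symm x.2).2
  have h4 := dist_triangle_left
    ((κ.symm (g (x.1, (e.symm x.2).1, (e.symm x.2).2)).1 : PP d) : PM).1 x.1
    ((g (x.1, (e.symm x.2).1, (e.symm x.2).2)).1 : PM).1
  linarith

end Pool.Agent.MQ
end

section

/-! TASK R2: uniform version for continuous maps to `MF` on an open set of a uniform space.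

For each `x ∈ A` the set `{u ∈ U | rho (ε/2) (g u) (g x)}` is an open neighbourhood of `x`
(`isOpen_rho`, `rho_refl`); use the Lebesgue number lemma for the compact set `A`
(`lebesgue_number_lemma`), `rho_symm`, `rho_trans`. -/

set_option autoImplicit false

namespace Pool.Agent.MQ

open Set Topology Uniformity

theorem rho_unif {X : Type} [UniformSpace X] {U : Set X} (hU : IsOpen U) (g : C(U, MF)) {A : Set X}
    (hA : IsCompact A) (hAU : A ⊆ U) {ε : ℝ} (hε : 0 < ε) :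
    ∃ V ∈ 𝓤 X, ∀ x (hx : x ∈ A) (u : X), (u, x) ∈ V →
      ∃ hu : u ∈ U, rho ε (g ⟨u, hu⟩) (g ⟨x, hAU hx⟩) := by
  have hε2 : 0 < ε / 2 := by positivity
  set S : A → Set X := fun i =>
    Subtype.val '' {u : U | rho (ε / 2) (g u) (g ⟨i.1, hAU i.2⟩)} with hS
  have hopen : ∀ i, IsOpen (S i) := by
    intro i
    apply hU.isOpenMap_subtype_val
    exact (isOpen_rho (ε / 2) (g ⟨i.1, hAU i.2⟩)).preimage g.continuous
  have hcover : A ⊆ ⋃ i, S i := by
    intro x hx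
    exact Set.mem_iUnion.2 ⟨⟨x, hx⟩, ⟨x, hAU hx⟩, rho_refl hε2 _, rfl⟩
  obtain ⟨V, hV, hVS⟩ := lebesgue_number_lemma hA hopen hcover
  refine ⟨Prod.swap ⁻¹' V, tendsto_swap_uniformity hV, ?_⟩
  intro x hx u hu
  obtain ⟨i, hi⟩ := hVS x hx
  have hxS : x ∈ S i := hi (UniformSpace.mem_ball_self x hV)
  have huS : u ∈ S i := hi hu
  obtain ⟨⟨u', hu'⟩, hru, rfl⟩ := huS
  obtain ⟨⟨x', hx'⟩, hrx, rfl⟩ := hxS
  refine ⟨hu', ?_⟩
  have h1 := rho_trans hru (rho_symm hrx)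
  rw [add_halves] at h1
  exact h1

end Pool.Agent.MQ
end

section

/-! TASK F3b: the subset of `EB` belonging to a class in `MF`.

`kset m` is the set of all `jj (φ x)` with `mkM φ = m`; by `mkM_eq_iff` it is `range (jj ∘ φ)` for every
representative `φ`. -/

set_option autoImplicit false

namespace Pool.Agent.MQ

open Set Topology

/-- the set of a class -/
def kset (m : MF) : Set EB := {y | ∃ φ : Em, mkM φ = m ∧ ∃ x, y = jj (φ.1 x)}

theorem kset_mkM (φ : Em) : kset (mkM φ) = Set.range fun x => jj (φ.1 x) := by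
  ext y
  constructor
  · rintro ⟨ψ, hψ, x, rfl⟩
    obtain ⟨h, hh⟩ := (mkM_eq_iff φ ψ).1 hψ.symm
    exact ⟨h x, by simp only [hh x]⟩
  · rintro ⟨x, rfl⟩
    exact ⟨φ, rfl, x, rfl⟩

/-- close classes have close sets -/
theorem kset_close {ε : ℝ} {m m' : MF} (h : rho ε m m') : ∀ y ∈ kset m, ∃ y' ∈ kset m', ‖y - y'‖ < ε := by
  rintro y ⟨φ, hφ, x, rfl⟩
  obtain ⟨φ', hφ', hx⟩ := rho_rep h hφ
  exact ⟨jj (φ'.1 x), ⟨φ', hφ', x, rfl⟩, hx x⟩

/-- a class close to a class with a good parametrization has a good parametrization -/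
theorem exists_param {θ : EB → ℂ} {ε : ℝ} (hθ : ∀ y y', ‖y - y'‖ < ε → ‖θ y - θ y'‖ < 1 / 8)
    {φ0 : Em} (hφ0 : ∀ x : FF, ‖θ (jj (φ0.1 x)) - (x.1 : ℂ)‖ < 1 / 16) {m : MF}
    (h : rho ε m (mkM φ0)) : ∃ ψ, IsParam θ (kset m) ψ := by
  obtain ⟨φ, hφ, hx⟩ := rho_rep (rho_symm h) rfl
  refine ⟨⟨fun x => jj (φ.1 x), continuous_jj.comp φ.1.continuous⟩, ?_, ?_, ?_⟩
  · intro x x' hxx
    exact φ.2.injective (jj_injective hxx)
  · rw [← hφ, kset_mkM]
    rfl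
  · intro x
    have h1 := hθ _ _ (hx x)
    have h2 := hφ0 x
    have h3 : ‖θ (jj (φ.1 x)) - (x.1 : ℂ)‖ ≤
        ‖θ (jj (φ0.1 x)) - θ (jj (φ.1 x))‖ + ‖θ (jj (φ0.1 x)) - (x.1 : ℂ)‖ := by
      have h4 : θ (jj (φ.1 x)) - (x.1 : ℂ) =
          -(θ (jj (φ0.1 x)) - θ (jj (φ.1 x))) + (θ (jj (φ0.1 x)) - (x.1 : ℂ)) := by ring
      rw [h4]
      refine (norm_add_le _ _).trans ?_
      rw [norm_neg]
    show ‖θ (jj (φ.1 x)) - (x.1 : ℂ)‖ < 1 / 4
    linarith

end Pool.Agent.MQ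
end
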