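import Pool.Agent.Lib.MP_13800a_gt.GoodI

section

/-! TASK K2a: classes supported away from a set with an equivariant nonvanishing function.

This is the claim `key` in the proof of `CRC.kgood_index` (file `MP_13800a_gt/Index.lean`), relative to a
closed invariant set `T`: with `η > 0` such that `∀ x ∈ T, ∃ b, η ≤ ‖Φ b x‖` (compactness) and
`C b = {x ∈ T | η ≤ ‖Φ b x‖}` the same induction gives a closed invariant `Z ⊇ ⋃ C b = T` and
`y : KG n τ Z` with image `(1 + Lh) ^ (a * (n / n0)) oneK`; restrict `y` from `Z` to `T ⊆ Z`. -/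

set_option autoImplicit false

open scoped Matrix Kronecker
open Matrix

namespace Pool.Agent.CRC

private theorem kcut_norm_zt (n : ℕ) : ‖zt n‖ = 1 := by
  have h : zt n = Complex.exp (((2 * Real.pi / n : ℝ) : ℂ) * Complex.I) := by
    unfold zt
    congr 1
    push_cast
    ring
  rw [h]
  exact Complex.norm_exp_ofReal_mul_I _

private theorem kcut_zt_pow {n n0 : ℕ} (hn : n ≠ 0) (hn0 : n0 ∣ n) : zt n ^ (n / n0) = zt n0 := by
  obtain ⟨c, rfl⟩ := hn0
  have h0 : n0 ≠ 0 := by rintro rfl; simp at hn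
  have hc : c ≠ 0 := by rintro rfl; simp at hn
  rw [Nat.mul_div_cancel_left c (Nat.pos_of_ne_zero h0)]
  unfold zt
  rw [← Complex.exp_nat_mul]
  congr 1
  have h0' : (n0 : ℂ) ≠ 0 := by exact_mod_cast h0
  have hc' : (c : ℂ) ≠ 0 := by exact_mod_cast hc
  push_cast
  field_simp

theorem kcut {n n0 a : ℕ} {W : Type} [TopologicalSpace W] [CompactSpace W] [T2Space W]
    {τ : W → W} (hn : ∃ k, n = 2 ^ k) (hn0 : n0 ∣ n) (hτ : Continuous τ) (hτn : τ^[n] = id)
    {T : Set W} (hT : IsClosed T) (hTi : ∀ x ∈ T, τ x ∈ T) (Φ : Fin a → W → ℂ)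
    (hc : ∀ b, Continuous (Φ b)) (he : ∀ b x, Φ b (τ x) = zt n0 * Φ b x)
    (h0 : ∀ x ∈ T, ∃ b, Φ b x ≠ 0) :
    ∃ y : KG n τ T, ∀ h : PullData τ τ T (∅ : Set W) (id : W → W),
      pull h y = ((1 + Lh : AddMonoid.End (KG n τ (∅ : Set W))) ^ (a * (n / n0))) (oneK n τ) := by
  obtain ⟨k, rfl⟩ := hn
  have hnpos : 0 < 2 ^ k := by positivity
  obtain ⟨k0, hk0, rfl⟩ := (Nat.dvd_prime_pow Nat.prime_two).1 hn0
  have hw : 2 ^ k / 2 ^ k0 = 2 ^ (k - k0) := Nat.pow_div hk0 (by norm_num)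
  -- a uniform lower bound
  obtain ⟨δ, hδ, hδ'⟩ : ∃ δ : ℝ, 0 < δ ∧ ∀ x ∈ T, ∃ b, δ ≤ ‖Φ b x‖ := by
    by_cases hE : T.Nonempty
    · have hcont : Continuous (fun x => ∑ b, ‖Φ b x‖) :=
        continuous_finsetSum _ (fun b _ => (hc b).norm)
      obtain ⟨x0, hx0T, hx0⟩ := hT.isCompact.exists_isMinOn hE hcont.continuousOn
      have hpos : 0 < ∑ b, ‖Φ b x0‖ := by
        obtain ⟨b, hb⟩ := h0 x0 hx0T
        exact Finset.sum_pos' (fun _ _ => norm_nonneg _) ⟨b, Finset.mem_univ _, norm_pos_iff.2 hb⟩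
      have ha : 0 < a := by
        obtain ⟨b, -⟩ := h0 x0 hx0T
        exact b.pos
      refine ⟨(∑ b, ‖Φ b x0‖) / a, by positivity, fun x hx => ?_⟩
      by_contra hcon
      push Not at hcon
      have h1 : ∑ b, ‖Φ b x‖ < ∑ _b : Fin a, (∑ b, ‖Φ b x0‖) / a := by
        refine Finset.sum_lt_sum_of_nonempty ?_ (fun b _ => hcon b)
        exact ⟨⟨0, ha⟩, Finset.mem_univ _⟩
      have h2 : ∑ _b : Fin a, (∑ b, ‖Φ b x0‖) / a = ∑ b, ‖Φ b x0‖ := by
        rw [Finset.sum_const, Finset.card_univ, Fintype.card_fin, nsmul_eq_mul]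
        have : (a : ℝ) ≠ 0 := by exact_mod_cast ha.ne'
        field_simp
      have h3 : ∑ b, ‖Φ b x0‖ ≤ ∑ b, ‖Φ b x‖ := hx0 hx
      linarith
    · exact ⟨1, one_pos, fun x hx => (hE ⟨x, hx⟩).elim⟩
  set C : Fin a → Set W := fun b => T ∩ {x | δ ≤ ‖Φ b x‖} with hCdef
  have hC : ∀ b, IsClosed (C b) := fun b => hT.inter (isClosed_le continuous_const (hc b).norm)
  have hCi : ∀ b, ∀ q ∈ C b, τ q ∈ C b := by
    rintro b q ⟨hqT, hq⟩
    refine ⟨hTi q hqT, ?_⟩
    simp only [Set.mem_ofPred_eq] at hq ⊢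
    rw [he, norm_mul, kcut_norm_zt, one_mul]
    exact hq
  have key : ∀ i ≤ a, ∃ Z : Set W, IsClosed Z ∧ (∀ q ∈ Z, τ q ∈ Z) ∧
      (∀ b : Fin a, (b : ℕ) < i → C b ⊆ Z) ∧ ∃ y : KG (2 ^ k) τ Z,
        ∀ h : PullData τ τ Z (∅ : Set W) (id : W → W),
          pull h y = ((1 + Lh : AddMonoid.End (KG (2 ^ k) τ (∅ : Set W))) ^ (i * 2 ^ (k - k0)))
            (oneK (2 ^ k) τ) := by
    intro i
    induction i with
    | zero =>
      intro _
      refine ⟨∅, isClosed_empty, by simp, by simp, oneK (2 ^ k) τ, fun h => ?_⟩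
      rw [pull_id, Nat.zero_mul, pow_zero]
      rfl
    | succ i ih =>
      intro hi
      obtain ⟨Z, hZ, hZi, hZC, y, hy⟩ := ih (by omega)
      set b : Fin a := ⟨i, by omega⟩ with hb
      have hP : PullData τ (fun c : C b => (⟨τ c.1, hCi b c.1 c.2⟩ : C b)) Z
          (Subtype.val ⁻¹' Z) (Subtype.val : C b → W) :=
        ⟨continuous_subtype_val, fun _ => rfl, fun _ hq => hq⟩
      have hx : pull hP ((1 + (Lh : AddMonoid.End (KG (2 ^ k) τ Z)) ^ (2 ^ (k - k0)) :
          AddMonoid.End (KG (2 ^ k) τ Z)) y) = 0 := by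
        rw [pull_one_add_Lh_pow]
        show pull hP y + (Lh ^ (2 ^ (k - k0))) (pull hP y) = 0
        have hL : (Lh ^ (2 ^ (k - k0))) (pull hP y) = pull hP y := by
          refine Lh_pow_eq_self (s := fun c : C b => Φ b c.1)
            ((hc b).comp continuous_subtype_val) ?_ ?_ _
          · intro q hq
            have := q.2.2
            simp only [Set.mem_ofPred_eq] at this
            rw [hq, norm_zero] at this
            linarith
          · intro q
            show Φ b (τ q.1) = _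
            rw [he, ← hw, kcut_zt_pow hnpos.ne' hn0]
        rw [hL]
        exact KG.add_self _
      obtain ⟨y', hy'⟩ := exact_set hnpos hτ hτn hZ hZi (C b) (hC b) (hCi b) hP _ hx
      refine ⟨Z ∪ C b, hZ.union (hC b), ?_, ?_, y', ?_⟩
      · rintro q (hq | hq)
        · exact Or.inl (hZi q hq)
        · exact Or.inr (hCi b q hq)
      · intro c hci
        rcases Nat.lt_succ_iff_lt_or_eq.1 hci with h1 | h1
        · exact (hZC c h1).trans Set.subset_union_left
        · have : c = b := Fin.ext h1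
          rw [this]
          exact Set.subset_union_right
      · intro h'
        have hZe : PullData τ τ Z (∅ : Set W) (id : W → W) :=
          PullData.rel_id (Set.empty_subset _)
        have h1 : pull h' y' = pull hZe
            (pull (PullData.rel_id (τ := τ) (Set.subset_union_left : Z ⊆ Z ∪ C b)) y') :=
          (pull_pull (PullData.rel_id (τ := τ) (Set.subset_union_left : Z ⊆ Z ∪ C b)) hZe
            (show PullData τ τ (Z ∪ C b) (∅ : Set W) ((id : W → W) ∘ (id : W → W)) from h') y').symm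
        rw [h1, hy', pull_one_add_Lh_pow, hy hZe, Nat.succ_mul, Nat.add_comm, pow_add,
          ← one_add_pow_two_pow]
        rfl
  obtain ⟨Z, -, -, hZC, y, hy⟩ := key a le_rfl
  have hTZ : T ⊆ Z := by
    intro x hx
    obtain ⟨b, hb⟩ := hδ' x hx
    exact hZC b b.2 ⟨hx, hb⟩
  refine ⟨pull (PullData.rel_id (τ := τ) hTZ) y, fun h' => ?_⟩
  have hZe : PullData τ τ Z (∅ : Set W) (id : W → W) := PullData.rel_id (Set.empty_subset _)
  have h1 : pull h' (pull (PullData.rel_id (τ := τ) hTZ) y) = pull hZe y :=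
    pull_pull (PullData.rel_id (τ := τ) hTZ) h'
      (show PullData τ τ Z (∅ : Set W) ((id : W → W) ∘ (id : W → W)) from hZe) y
  rw [h1, hy hZe, hw]

end Pool.Agent.CRC
end

section

/-! TASK K2b: detection. A variant of `CRC.kgood_index` for closed sets which separate
`E × {0}` from `E × {1}`.

Let `W = E × UI` with `τ' = Prod.map τ id`, `n = 2 ^ c`, `T = {w | pos w = δ}`. (1) `kcut` gives
`y : KG n τ' T` whose image in `KG n τ' ∅` is `(1 + Lh) ^ (a * (n / 2 ^ c0)) oneK`. (2) `y = mk u`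
(`KG.ind`) with `u = 1` on `T`. Let `u' w = u w` if `pos w ≤ δ` and `u' w = 1` if `δ ≤ pos w`:
continuous because `u = 1` on `T`, an element over `W` rel `∅`. Its restrictions to `E × {0}` and
`E × {1}` are `u (·, 0)` and `1`, and `u'` is a homotopy between them (`KG.mk_ht`); so the restriction of
`(1 + Lh) ^ _ oneK` to `E × {0}` is `0`, i.e. `(1 + Lh) ^ (a * (n / 2 ^ c0)) oneK = 0` in `KG n τ ∅`
(`pull_one_add_pow`, `pull_oneK`). (3) So `m < a * 2 ^ (c - c0)`, otherwise `Good` fails (see the end of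
the proof of `kgood_index`). -/

set_option autoImplicit false

open scoped Matrix Kronecker
open Matrix

namespace Pool.Agent.CRC

theorem det_sep {E : Type} [TopologicalSpace E] [CompactSpace E] [T2Space E] {τ : E → E}
    (hτ : Continuous τ) {c m : ℕ} (hn : τ^[2 ^ c] = id) (h : Good (2 ^ c) τ m) {c0 : ℕ}
    (hc : c0 ≤ c) {a : ℕ} (pos : E × UI → ℝ) (hpos : Continuous pos)
    (hinv : ∀ e u, pos (τ e, u) = pos (e, u)) (δ : ℝ) (h0 : ∀ e, pos (e, 0) < δ)
    (h1 : ∀ e, δ < pos (e, 1)) (Φ : Fin a → E × UI → ℂ) (hΦ : ∀ b, Continuous (Φ b))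
    (he : ∀ b e u, Φ b (τ e, u) = zt (2 ^ c0) * Φ b (e, u))
    (hne : ∀ w, pos w = δ → ∃ b, Φ b w ≠ 0) :
    m < a * 2 ^ (c - c0) := by
  have hτ' : Continuous (Prod.map τ (id : UI → UI)) := hτ.prodMap continuous_id
  have hτn' : (Prod.map τ (id : UI → UI))^[2 ^ c] = id := by
    rw [Prod.map_iterate, hn, Function.iterate_id]
    rfl
  set T : Set (E × UI) := {w | pos w = δ} with hTdef
  have hT : IsClosed T := isClosed_eq hpos continuous_const
  have hinv' : ∀ w : E × UI, pos (Prod.map τ (id : UI → UI) w) = pos w := fun w => hinv w.1 w.2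
  have hTi : ∀ w ∈ T, Prod.map τ (id : UI → UI) w ∈ T := by
    intro w hw
    show pos (Prod.map τ (id : UI → UI) w) = δ
    rw [hinv']
    exact hw
  obtain ⟨y, hy⟩ := kcut (n := 2 ^ c) (n0 := 2 ^ c0) ⟨c, rfl⟩ (pow_dvd_pow 2 hc) hτ' hτn' hT hTi Φ hΦ
    (fun b w => he b w.1 w.2) hne
  rw [Nat.pow_div hc (by norm_num)] at hy
  obtain ⟨ι, fι, dι, ρ, u, hρ, hu, rfl⟩ := KG.ind y
  classical
  let u' : E × UI → UI → MM ι := fun w t => if pos w ≤ δ then u w t else 1
  have hu'cont : Continuous (fun p : (E × UI) × UI => u' p.1 p.2) := by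
    refine Continuous.if_le hu.cont continuous_const (hpos.comp continuous_fst) continuous_const ?_
    intro p hp
    exact hu.rel p.1 hp p.2
  have hle : ∀ w, pos w ≤ δ → ∀ t, u' w t = u w t := fun w hw t => if_pos hw
  have hge : ∀ w, δ < pos w → ∀ t, u' w t = 1 := fun w hw t => if_neg (not_le.2 hw)
  have hu' : IsEl ρ (Prod.map τ (id : UI → UI)) ((∅ : Set E) ×ˢ (Set.univ : Set UI)) u' := by
    refine ⟨hu'cont, ?_, ?_, ?_, ?_, ?_⟩
    · intro w t
      rcases le_or_gt (pos w) δ with hw | hw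
      · rw [hle w hw]; exact hu.unit w t
      · rw [hge w hw]; exact isUnit_one
    · intro w
      rcases le_or_gt (pos w) δ with hw | hw
      · rw [hle w hw]; exact hu.zero w
      · rw [hge w hw]; exact ⟨1, amp_one.symm⟩
    · intro w
      rcases le_or_gt (pos w) δ with hw | hw
      · rw [hle w hw]; exact hu.one w
      · rw [hge w hw]
    · rintro w ⟨hw, -⟩
      exact hw.elim
    · intro w t
      rcases le_or_gt (pos w) δ with hw | hw
      · rw [hle w hw, hle _ (by rw [hinv']; exact hw)]; exact hu.eqv w t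
      · rw [hge w hw, hge _ (by rw [hinv']; exact hw), one_mul, mul_one]
  have hid : PullData (Prod.map τ (id : UI → UI)) (Prod.map τ (id : UI → UI)) T
      (∅ : Set (E × UI)) (id : E × UI → E × UI) := PullData.rel_id (Set.empty_subset _)
  have hj : PullData (Prod.map τ (id : UI → UI)) τ (∅ : Set (E × UI)) (∅ : Set E)
      (fun e : E => (e, (0 : UI))) :=
    ⟨by fun_prop, fun _ => rfl, fun _ hq => hq.elim⟩
  have hjT : PullData (Prod.map τ (id : UI → UI)) τ T (∅ : Set E)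
      ((id : E × UI → E × UI) ∘ fun e : E => (e, (0 : UI))) :=
    ⟨by fun_prop, fun _ => rfl, fun _ hq => hq.elim⟩
  have hzero : ((1 + Lh : AddMonoid.End (KG (2 ^ c) τ (∅ : Set E))) ^ (a * 2 ^ (c - c0)))
      (oneK (2 ^ c) τ) = 0 := by
    have e1 : pull hj (pull hid (KG.mk hρ hu)) =
        ((1 + Lh : AddMonoid.End (KG (2 ^ c) τ (∅ : Set E))) ^ (a * 2 ^ (c - c0)))
          (oneK (2 ^ c) τ) := by
      rw [hy hid, pull_one_add_pow, pull_oneK]
    rw [← e1, pull_pull hid hj hjT, pull_mk]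
    have hht : Ht ρ τ (∅ : Set E) (fun (e : E) (t : UI) => u ((id : E × UI → E × UI) (e, (0 : UI))) t)
        (fun _ _ => 1) := by
      refine ⟨u', hu', ?_, ?_⟩
      · intro e t
        exact hle _ (h0 e).le t
      · intro e t
        exact hge _ (h1 e) t
    exact (KG.mk_ht hρ _ IsEl.const_one hht).trans (KG.mk_one hρ)
  by_contra hcon
  push Not at hcon
  obtain ⟨r, rfl⟩ := Nat.exists_eq_add_of_le hcon
  apply h
  rw [Nat.add_comm, pow_add]
  show ((1 + Lh : AddMonoid.End (KG (2 ^ c) τ (∅ : Set E))) ^ r)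
    (((1 + Lh : AddMonoid.End (KG (2 ^ c) τ (∅ : Set E))) ^ (a * 2 ^ (c - c0)))
      (oneK (2 ^ c) τ)) = 0
  rw [hzero, map_zero]

end Pool.Agent.CRC
end
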