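import Pool.Agent.Lib.MP_9c87eb_gt.Mg.G008
import Pool.Agent.Lib.MP_9c87eb_gt.AsmDefs

section

/-! TASK S6: bounded subsets of `Fin k → ℝ` have grids.

`N = 2 ^ k` colours `c : Fin k → Bool` (parities). For `η < δ/4` and `a : Fin k → ℤ` let
`l_a x = max 0 (1 - 4 * max_i dist (x i / η) [a i, a i + 1])` (or a product over `i` of such
functions): `= 1` on the cube `∏ [a i η, (a i + 1) η]`, support in the cube enlarged by `η/4`.
Cubes `a ≠ a'` with the same parities are at distance `≥ η`. Only finitely many `a` are needed for a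
bounded set (index them by `Fin m`, padding by `0`). -/

set_option autoImplicit false

namespace Pool.Agent.MQ

open Set Topology

private noncomputable def ph (t : ℝ) : ℝ := max 0 (1 - 4 * max 0 (max (-t) (t - 1)))

private theorem ph_cont : Continuous ph := by unfold ph; fun_prop

private theorem ph_nonneg (t : ℝ) : 0 ≤ ph t := le_max_left _ _

private theorem ph_le_one (t : ℝ) : ph t ≤ 1 := by
  refine max_le zero_le_one ?_
  have := le_max_left 0 (max (-t) (t - 1))
  linarith

private theorem ph_eq_one {t : ℝ} (h0 : 0 ≤ t) (h1 : t ≤ 1) : ph t = 1 := by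
  have h2 : max (-t) (t - 1) ≤ 0 := max_le (by linarith) (by linarith)
  unfold ph
  rw [max_eq_left h2]
  norm_num

private theorem ph_ne_zero {t : ℝ} (h : ph t ≠ 0) : -(1 / 4) < t ∧ t < 5 / 4 := by
  by_contra hcon
  apply h
  unfold ph
  apply max_eq_left
  have h1 : (1 / 4 : ℝ) ≤ max 0 (max (-t) (t - 1)) := by
    rw [not_and_or] at hcon
    rcases hcon with h' | h'
    · push Not at h'
      exact le_max_of_le_right (le_max_of_le_left (by linarith))
    · push Not at h'
      exact le_max_of_le_right (le_max_of_le_right (by linarith))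
  linarith

private noncomputable def lc {k : ℕ} (η : ℝ) (a : Fin k → ℤ) (x : Fin k → ℝ) : ℝ :=
  ∏ j, ph (x j / η - a j)

private theorem lc_cont {k : ℕ} (η : ℝ) (a : Fin k → ℤ) : Continuous (lc η a) := by
  unfold lc
  refine continuous_finsetProd _ fun j _ => ph_cont.comp ?_
  fun_prop

private theorem lc_mem {k : ℕ} (η : ℝ) (a : Fin k → ℤ) (x : Fin k → ℝ) :
    0 ≤ lc η a x ∧ lc η a x ≤ 1 :=
  ⟨Finset.prod_nonneg fun _ _ => ph_nonneg _,
    Finset.prod_le_one (fun _ _ => ph_nonneg _) fun _ _ => ph_le_one _⟩

private theorem lc_ne {k : ℕ} {η : ℝ} {a : Fin k → ℤ} {x : Fin k → ℝ} (h : lc η a x ≠ 0)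
    (j : Fin k) : -(1 / 4) < x j / η - a j ∧ x j / η - a j < 5 / 4 :=
  ph_ne_zero (Finset.prod_ne_zero_iff.1 h j (Finset.mem_univ j))

theorem hasGrid (k : ℕ) (A : Set (Fin k → ℝ)) (hA : Bornology.IsBounded A) : HasGrid A := by
  classical
  refine ⟨Fintype.card (Fin k → Bool), fun δ hδ => ?_⟩
  set η : ℝ := δ / 4 with hη
  have hη0 : 0 < η := by positivity
  obtain ⟨R, hR⟩ := hA.exists_norm_le
  set M : ℤ := ⌈R / η⌉ + 1 with hM
  let I : Type := Fin k → Set.Icc (-M) M
  let _ : Fintype I := inferInstanceAs (Fintype (Fin k → Set.Icc (-M) M))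
  let ec := Fintype.equivFin (Fin k → Bool)
  let ei := Fintype.equivFin I
  let av : Fin (Fintype.card I) → Fin k → ℤ := fun i j => ((ei.symm i) j : ℤ)
  let par : (Fin k → ℤ) → (Fin k → Bool) := fun a j => decide (a j % 2 = 0)
  refine ⟨Fintype.card I, fun c i p => if par (av i) = ec.symm c then lc η (av i) p else 0,
    ?_, ?_, ?_, ?_, ?_⟩
  · intro c i
    by_cases h : par (av i) = ec.symm c
    · simp only [h, if_true]
      exact (lc_cont η (av i)).comp continuous_subtype_val
    · simp only [h, if_false]
      exact continuous_const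
  · intro c i p
    by_cases h : par (av i) = ec.symm c
    · simp only [h, if_true]
      exact lc_mem _ _ _
    · simp only [h, if_false]
      exact ⟨le_refl _, zero_le_one⟩
  · intro p
    have hmem : ∀ j, ⌊(p : Fin k → ℝ) j / η⌋ ∈ Set.Icc (-M) M := by
      intro j
      have h1 : |(p : Fin k → ℝ) j| ≤ R := by
        have := norm_le_pi_norm (p : Fin k → ℝ) j
        rw [Real.norm_eq_abs] at this
        exact this.trans (hR p p.2)
      have h2 : |(p : Fin k → ℝ) j / η| ≤ R / η := by
        rw [abs_div, abs_of_pos hη0]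
        exact div_le_div_of_nonneg_right h1 hη0.le
      rw [abs_le] at h2
      have h3 : R / η ≤ ⌈R / η⌉ := Int.le_ceil _
      constructor
      · rw [Int.le_floor]
        push_cast [hM]
        linarith [h2.1]
      · have h4 : (⌊(p : Fin k → ℝ) j / η⌋ : ℝ) ≤ (M : ℝ) := by
          refine (Int.floor_le _).trans ?_
          push_cast [hM]
          linarith [h2.2]
        exact_mod_cast h4
    let a : I := fun j => ⟨⌊(p : Fin k → ℝ) j / η⌋, hmem j⟩
    refine ⟨ec (par (av (ei a))), ei a, ?_⟩
    simp only [Equiv.symm_apply_apply, if_true]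
    refine Finset.prod_eq_one fun j _ => ?_
    have hav : av (ei a) j = ⌊(p : Fin k → ℝ) j / η⌋ := by
      simp only [av, Equiv.symm_apply_apply, a]
    rw [hav]
    refine ph_eq_one ?_ ?_
    · have := Int.floor_le ((p : Fin k → ℝ) j / η)
      linarith
    · have := Int.lt_floor_add_one ((p : Fin k → ℝ) j / η)
      linarith
  · intro c i p q hp hq
    by_cases h : par (av i) = ec.symm c
    · simp only [h, if_true] at hp hq
      rw [Subtype.dist_eq, dist_pi_lt_iff hδ]
      intro j
      have h1 := lc_ne hp j
      have h2 := lc_ne hq j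
      have h3 : |(p : Fin k → ℝ) j / η - (q : Fin k → ℝ) j / η| < 3 / 2 := by
        rw [abs_lt]
        constructor <;> linarith [h1.1, h1.2, h2.1, h2.2]
      rw [← sub_div, abs_div, abs_of_pos hη0, div_lt_iff₀ hη0] at h3
      rw [Real.dist_eq]
      linarith
    · simp only [h, if_false, ne_eq, not_true_eq_false] at hp
  · intro c i i' p hii' hp
    by_contra hq
    by_cases h : par (av i) = ec.symm c
    · by_cases h' : par (av i') = ec.symm c
      · simp only [h, h', if_true] at hp hq
        apply hii'
        have hpar : par (av i) = par (av i') := h.trans h'.symm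
        apply ei.symm.injective
        funext j
        apply Subtype.ext
        have h1 := lc_ne hp j
        have h2 := lc_ne hq j
        have h3 : ((av i j : ℤ) : ℝ) - av i' j < 2 := by linarith [h1.1, h1.2, h2.1, h2.2]
        have h4 : ((av i' j : ℤ) : ℝ) - av i j < 2 := by linarith [h1.1, h1.2, h2.1, h2.2]
        have h5 : av i j - av i' j < 2 := by exact_mod_cast h3
        have h6 : av i' j - av i j < 2 := by exact_mod_cast h4
        have h7 : decide (av i j % 2 = 0) = decide (av i' j % 2 = 0) := congrFun hpar j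
        have h8 : (av i j % 2 = 0) ↔ (av i' j % 2 = 0) := by
          simpa only [decide_eq_decide] using h7
        change av i j = av i' j
        omega
      · simp only [h', if_false, not_true_eq_false] at hq
    · simp only [h, if_false, ne_eq, not_true_eq_false] at hp

end Pool.Agent.MQ
end

section

/-! TASK F3a: finite-dimensional approximation of the Hilbert cube. -/

set_option autoImplicit false

namespace Pool.Agent.MQ

open Set Topology Uniformity

/-- `Fin k → ℝ` to the Hilbert cube: clamp, and `0` in the coordinates `≥ k` -/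
noncomputable def incK (k : ℕ) (y : Fin k → ℝ) : HC := fun n =>
  if h : n < k then Set.projIcc 0 1 zero_le_one (y ⟨n, h⟩) else 0

/-- the first `k` coordinates -/
def resK (k : ℕ) (x : HC) : Fin k → ℝ := fun i => (x i : ℝ)

theorem continuous_resK (k : ℕ) : Continuous (resK k) := by
  refine continuous_pi fun i => ?_
  exact continuous_subtype_val.comp (continuous_apply (i : ℕ))

theorem uniformContinuous_incK (k : ℕ) : UniformContinuous (incK k) := by
  rw [uniformContinuous_pi]
  intro n
  by_cases h : n < k
  · have h1 : (fun y : Fin k → ℝ => incK k y n) =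
        fun y => Set.projIcc 0 1 zero_le_one (y ⟨n, h⟩) := by
      funext y
      simp only [incK, dif_pos h]
    rw [h1]
    exact (LipschitzWith.projIcc zero_le_one).uniformContinuous.comp
      (Pi.uniformContinuous_proj _ _)
  · have h1 : (fun y : Fin k → ℝ => incK k y n) = fun _ => (0 : unitInterval) := by
      funext y
      simp only [incK, dif_neg h]
    rw [h1]
    exact uniformContinuous_const

/-- entourages of the product contain `{(x, y) | x n = y n for n < k}` for some `k` -/
theorem exists_trunc (V : Set (HC × HC)) (hV : V ∈ 𝓤 HC) :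
    ∃ k : ℕ, ∀ x : HC, (incK k (resK k x), x) ∈ V := by
  have h : Filter.Tendsto (fun p : ℕ × HC => (incK p.1 (resK p.1 p.2), p.2))
      (Filter.atTop ×ˢ ⊤) (𝓤 HC) := by
    rw [Pi.uniformity, Filter.tendsto_iInf]
    intro n
    rw [Filter.tendsto_comap_iff]
    refine Filter.Tendsto.mono_right (Filter.tendsto_principal.2 ?_) refl_le_uniformity
    have h1 : ∀ᶠ k in (Filter.atTop : Filter ℕ), n < k := Filter.eventually_gt_atTop n
    filter_upwards [h1.prod_inl ⊤] with p hp
    show incK p.1 (resK p.1 p.2) n = p.2 n
    simp only [incK, dif_pos hp, resK]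
    exact Set.projIcc_val zero_le_one (p.2 n)
  have h2 := h hV
  rw [Filter.mem_map, Filter.mem_prod_top] at h2
  obtain ⟨k, hk⟩ := Filter.Eventually.exists (f := Filter.atTop) h2
  exact ⟨k, fun x => hk x⟩

end Pool.Agent.MQ
end
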