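import Pool.Agent.Lib.MP_9c87eb_gt.Mg.G014
import Pool.Agent.Lib.MP_9c87eb_gt.Glue

section

/-! TASK S4: one colour.

For `ε ≤ ε₁` (else decrease `ε`) let `δ` be the minimum of `ε/2` and of the `δ` of `loc_ext` for `ε/2`.
Induction over the pieces `i < m`: after `i` pieces there is a state over `C ∪ ⋃_{i' < i} {l i' = 1}` with
accuracy `ε` at the points with `1/2 ≤ l i' p` for some `i' < i`, and `δ` at all other points. On
`{1/2 ≤ l i}` all `l i'`, `i' ≠ i`, vanish, so there the accuracy is `δ`: apply `loc_ext` with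
`D = {1/2 ≤ l i}` and `glue`. -/

set_option autoImplicit false

namespace Pool.Agent.MQ

open Set Topology

private theorem isSt_mono_co {P : Type} [TopologicalSpace P] {E : Type} [NormedAddCommGroup E]
    {K : P → Set E} {θ : E → ℂ} {C C' : Set P} {acc acc' : P → ℝ} {s : P × Circle → E}
    {w : P × Circle → ℝ} (h : IsSt K θ C acc s w) (hC : C' ⊆ C)
    (hacc : ∀ p ∈ C', acc p ≤ acc' p) : IsSt K θ C' acc' s w where
  cs := h.cs.mono (Set.prod_mono hC (Set.Subset.refl _))
  cw := h.cw.mono (Set.prod_mono hC (Set.Subset.refl _))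
  near := fun p hp z => by
    obtain ⟨y, hy, hy'⟩ := h.near p (hC hp) z
    exact ⟨y, hy, hy'.trans_le (hacc p hp)⟩
  ne := fun p hp => h.ne p (hC hp)
  lift := fun p hp => h.lift p (hC hp)

theorem colour {P : Type} [MetricSpace P] [CompactSpace P] {E : Type} [NormedAddCommGroup E]
    [NormedSpace ℝ E] {K : P → Set E} {θ : E → ℂ} (hθ : UniformContinuous θ) (hK : HUC K)
    (hpar : ∀ p, ∃ ψ, IsParam θ (K p) ψ) {ε : ℝ} (hε : 0 < ε) :
    ∃ δ : ℝ, 0 < δ ∧ ∀ (m : ℕ) (l : Fin m → P → ℝ), (∀ i, Continuous (l i)) →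
      (∀ i p, 0 ≤ l i p ∧ l i p ≤ 1) → (∀ i p q, l i p ≠ 0 → l i q ≠ 0 → dist p q < δ) →
      (∀ i i' p, i ≠ i' → l i p ≠ 0 → l i' p = 0) → ∀ C : Set P, IsClosed C →
      ∀ s w, IsSt K θ C (fun _ => δ) s w →
      ∃ s' w', IsSt K θ (C ∪ ⋃ i, {p | l i p = 1}) (fun _ => ε) s' w' := by
  classical
  obtain ⟨ε₁, hε₁, hglue⟩ := glue (K := K) hθ hpar
  set ε' := min ε ε₁ with hε'
  have hε'0 : 0 < ε' := lt_min hε hε₁
  obtain ⟨δ₁, hδ₁, hloc⟩ := loc_ext hθ hK hpar (half_pos hε'0)
  refine ⟨min δ₁ (ε' / 2), lt_min hδ₁ (half_pos hε'0), ?_⟩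
  intro m l hlc hl01 hldist hldisj C hC s w hst
  set δ := min δ₁ (ε' / 2) with hδ
  have hδ1 : δ ≤ δ₁ := min_le_left _ _
  have hδ2 : δ ≤ ε' / 2 := min_le_right _ _
  set Ck : ℕ → Set P := fun k => {p | p ∈ C ∨ ∃ i : Fin m, i.val < k ∧ l i p = 1} with hCk
  set ac : ℕ → P → ℝ := fun k p => if ∃ i : Fin m, i.val < k ∧ 1 / 2 ≤ l i p then ε' else δ
    with hac
  have hacle : ∀ k p, ac k p ≤ ε' := by
    intro k p
    simp only [hac]
    split_ifs
    · exact le_refl _
    · linarith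
  have key : ∀ k, k ≤ m → IsClosed (Ck k) ∧ ∃ s w, IsSt K θ (Ck k) (ac k) s w := by
    intro k
    induction k with
    | zero =>
      intro _
      have h0 : Ck 0 = C := by
        ext p; simp [hCk]
      rw [h0]
      refine ⟨hC, s, w, isSt_mono_co hst (Set.Subset.refl _) ?_⟩
      intro p _
      have h1 : ac 0 p = δ := by
        simp [hac]
      rw [h1]
    | succ k ih =>
      intro hk
      obtain ⟨hcl, s1, w1, hst1⟩ := ih (Nat.le_of_succ_le hk)
      set i : Fin m := ⟨k, hk⟩ with hi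
      have hCs : Ck (k + 1) = Ck k ∪ {p | l i p = 1} := by
        ext p
        simp only [hCk, Set.mem_ofPred_eq, Set.mem_union]
        constructor
        · rintro (h | ⟨i', hi', h⟩)
          · exact Or.inl (Or.inl h)
          · rcases Nat.lt_succ_iff_lt_or_eq.1 hi' with h1 | h1
            · exact Or.inl (Or.inr ⟨i', h1, h⟩)
            · right
              have h2 : i' = i := Fin.ext h1
              rw [← h2]; exact h
        · rintro ((h | ⟨i', hi', h⟩) | h)
          · exact Or.inl h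
          · exact Or.inr ⟨i', Nat.lt_succ_of_lt hi', h⟩
          · exact Or.inr ⟨i, Nat.lt_succ_self k, h⟩
      have hcl1 : IsClosed {p | l i p = 1} := isClosed_eq (hlc i) continuous_const
      have hD : IsClosed {p | 1 / 2 ≤ l i p} := isClosed_le continuous_const (hlc i)
      have hDne : ∀ p, 1 / 2 ≤ l i p → l i p ≠ 0 := by
        intro p hp h0
        rw [h0] at hp; norm_num at hp
      have hacD : ∀ p, 1 / 2 ≤ l i p → ac k p = δ := by
        intro p hp
        simp only [hac]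
        rw [if_neg]
        rintro ⟨i', hi', h⟩
        have hne : i ≠ i' := by
          rintro rfl
          exact lt_irrefl _ hi'
        rw [hldisj i i' p hne (hDne p hp)] at h
        norm_num at h
      obtain ⟨s', w', hst', hclose⟩ := hloc (Ck k) {p | 1 / 2 ≤ l i p} hcl hD
        (fun p hp q hq => (hldist i p q (hDne p hp) (hDne q hq)).trans_le hδ1) s1 w1
        (isSt_mono_co hst1 Set.inter_subset_left
          (fun p hp => by rw [hacD p hp.2]; exact hδ1))
      obtain ⟨s2, w2, hst2⟩ := hglue ε' hε'0 (min_le_right _ _) (Ck k) hcl (ac k) (hacle k)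
        s1 w1 hst1 (l i) (hlc i) (hl01 i)
        (fun p _ hlp => by rw [hacD p hlp]; exact hδ2) s' w' hst'
        (fun p hp hlp z => hclose p ⟨hp, hlp⟩ z)
      refine ⟨?_, s2, w2, ?_⟩
      · rw [hCs]; exact hcl.union hcl1
      · rw [hCs]
        apply isSt_mono_co hst2 (Set.Subset.refl _)
        intro p _
        by_cases h1 : 1 / 2 ≤ l i p
        · rw [if_pos h1]
          have h2 : ac (k + 1) p = ε' := if_pos ⟨i, Nat.lt_succ_self k, h1⟩
          rw [h2]
        · rw [if_neg h1]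
          by_cases h3 : ∃ i : Fin m, i.val < k ∧ 1 / 2 ≤ l i p
          · have h4 : ac k p = ε' := if_pos h3
            obtain ⟨i', hi', h5⟩ := h3
            have h2 : ac (k + 1) p = ε' := if_pos ⟨i', Nat.lt_succ_of_lt hi', h5⟩
            rw [h2, h4]
          · have h4 : ac k p = δ := if_neg h3
            rw [h4]
            have h6 : δ ≤ ε' := by linarith
            simp only [hac]
            split_ifs
            · exact h6
            · exact le_refl _
  obtain ⟨-, s2, w2, hst2⟩ := key m (le_refl m)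
  refine ⟨s2, w2, isSt_mono_co hst2 ?_ ?_⟩
  · rintro p (hp | hp)
    · exact Or.inl hp
    · obtain ⟨i, hi⟩ := Set.mem_iUnion.1 hp
      exact Or.inr ⟨i, i.2, hi⟩
  · intro p _
    exact (hacle m p).trans (min_le_left _ _)

end Pool.Agent.MQ
end

section

/-! TASK S5: the section lemma.

Let `N` be the number of colours. Choose `a N = min ε 1`, `a c` = the `δ` of `colour` for `a (c+1)`
(also `≤ a (c+1)`), and a grid for `δ = min_c (a c)`. Start with the empty state (`C = ∅`), apply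
`colour` for each colour `c` with `ε = a (c+1)`; at the end `C = univ`. -/

set_option autoImplicit false

namespace Pool.Agent.MQ

open Set Topology

private theorem colours_aux {P : Type} [MetricSpace P] [CompactSpace P] {E : Type}
    [NormedAddCommGroup E] [NormedSpace ℝ E] {K : P → Set E} {θ : E → ℂ}
    (hθ : UniformContinuous θ) (hK : HUC K) (hpar : ∀ p, ∃ ψ, IsParam θ (K p) ψ) (N : ℕ) :
    ∀ ε : ℝ, 0 < ε → ∃ δ : ℝ, 0 < δ ∧ ∀ (m : ℕ) (l : Fin N → Fin m → P → ℝ),
      (∀ c i, Continuous (l c i)) → (∀ c i p, 0 ≤ l c i p ∧ l c i p ≤ 1) →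
      (∀ c i p q, l c i p ≠ 0 → l c i q ≠ 0 → dist p q < δ) →
      (∀ c i i' p, i ≠ i' → l c i p ≠ 0 → l c i' p = 0) → ∀ C : Set P, IsClosed C →
      ∀ s w, IsSt K θ C (fun _ => δ) s w →
      ∃ s' w', IsSt K θ (C ∪ ⋃ c, ⋃ i, {p | l c i p = 1}) (fun _ => ε) s' w' := by
  induction N with
  | zero =>
    intro ε hε
    refine ⟨ε, hε, ?_⟩
    intro m l _ _ _ _ C _ s w hst
    refine ⟨s, w, ?_⟩
    have h0 : C ∪ ⋃ c, ⋃ i, {p | l c i p = 1} = C := by simp
    rw [h0]
    exact hst
  | succ N ih =>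
    intro ε hε
    obtain ⟨δ₁, hδ₁, hcol⟩ := colour hθ hK hpar hε
    obtain ⟨δ₂, hδ₂, hih⟩ := ih δ₁ hδ₁
    refine ⟨min δ₁ δ₂, lt_min hδ₁ hδ₂, ?_⟩
    intro m l hlc hl01 hldist hldisj C hC s w hst
    have hst2 : IsSt K θ C (fun _ => δ₂) s w :=
      { cs := hst.cs
        cw := hst.cw
        near := fun p hp z => by
          obtain ⟨y, hy, hy'⟩ := hst.near p hp z
          exact ⟨y, hy, hy'.trans_le (min_le_right _ _)⟩
        ne := hst.ne
        lift := hst.lift }
    obtain ⟨s1, w1, hst1⟩ := hih m (fun c => l c.castSucc) (fun c i => hlc _ i)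
      (fun c i p => hl01 _ i p)
      (fun c i p q h1 h2 => (hldist _ i p q h1 h2).trans_le (min_le_right _ _))
      (fun c i i' p => hldisj _ i i' p) C hC s w hst2
    have hC1 : IsClosed (C ∪ ⋃ c : Fin N, ⋃ i : Fin m, {p | l c.castSucc i p = 1}) := by
      apply hC.union
      apply isClosed_iUnion_of_finite
      intro c
      apply isClosed_iUnion_of_finite
      intro i
      exact isClosed_eq (hlc _ i) continuous_const
    obtain ⟨s2, w2, hst3⟩ := hcol m (l (Fin.last N)) (hlc _) (hl01 _)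
      (fun i p q h1 h2 => (hldist _ i p q h1 h2).trans_le (min_le_left _ _))
      (fun i i' p => hldisj _ i i' p) _ hC1 s1 w1 hst1
    refine ⟨s2, w2, ?_⟩
    have hU : C ∪ ⋃ c : Fin (N + 1), ⋃ i : Fin m, {p | l c i p = 1} =
        (C ∪ ⋃ c : Fin N, ⋃ i : Fin m, {p | l c.castSucc i p = 1}) ∪
          ⋃ i : Fin m, {p | l (Fin.last N) i p = 1} := by
      ext p
      constructor
      · rintro (h | h)
        · exact Or.inl (Or.inl h)
        · obtain ⟨c, hc⟩ := Set.mem_iUnion.1 h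
          induction c using Fin.lastCases with
          | last => exact Or.inr hc
          | cast c => exact Or.inl (Or.inr (Set.mem_iUnion.2 ⟨c, hc⟩))
      · rintro ((h | h) | h)
        · exact Or.inl h
        · obtain ⟨c, hc⟩ := Set.mem_iUnion.1 h
          exact Or.inr (Set.mem_iUnion.2 ⟨c.castSucc, hc⟩)
        · exact Or.inr (Set.mem_iUnion.2 ⟨Fin.last N, h⟩)
    rw [hU]
    exact hst3

theorem section_lemma {P : Type} [MetricSpace P] [CompactSpace P] (hP : HasGrid P) {E : Type}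
    [NormedAddCommGroup E] [NormedSpace ℝ E] {K : P → Set E} {θ : E → ℂ} (hθ : UniformContinuous θ)
    (hK : HUC K) (hpar : ∀ p, ∃ ψ, IsParam θ (K p) ψ) {ε : ℝ} (hε : 0 < ε) :
    ∃ (s : C(P × Circle, E)) (w : C(P × Circle, ℝ)), IsSt K θ Set.univ (fun _ => ε) s w := by
  obtain ⟨N, hN⟩ := hP
  obtain ⟨δ, hδ, hcol⟩ := colours_aux hθ hK hpar N ε hε
  obtain ⟨m, l, hlc, hl01, hcov, hldist, hldisj⟩ := hN δ hδ
  have hst0 : IsSt K θ (∅ : Set P) (fun _ => δ) (fun _ => (0 : E)) (fun _ => (0 : ℝ)) :=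
    { cs := continuousOn_const
      cw := continuousOn_const
      near := fun p hp => absurd hp (Set.notMem_empty p)
      ne := fun p hp => absurd hp (Set.notMem_empty p)
      lift := fun p hp => absurd hp (Set.notMem_empty p) }
  obtain ⟨s, w, hst⟩ := hcol m l hlc hl01 hldist hldisj ∅ isClosed_empty _ _ hst0
  have hU : (∅ : Set P) ∪ ⋃ c, ⋃ i, {p | l c i p = 1} = Set.univ := by
    rw [Set.empty_union, Set.eq_univ_iff_forall]
    intro p
    obtain ⟨c, i, h⟩ := hcov p
    exact Set.mem_iUnion.2 ⟨c, Set.mem_iUnion.2 ⟨i, h⟩⟩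
  rw [hU] at hst
  have hcs := hst.cs
  have hcw := hst.cw
  rw [Set.univ_prod_univ, continuousOn_univ] at hcs hcw
  exact ⟨⟨s, hcs⟩, ⟨w, hcw⟩, hst⟩

end Pool.Agent.MQ
end
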