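import Pool.Agent.Lib.MP_9c87eb_gt.Defs
import Pool.Agent.Lib.MP_9c87eb_gt.Mg.G001

section

/-! TASK G6: the squeezing homeomorphisms of `[0,1] × QQ`.

Let `‖x‖_m = max_{i ≤ m} ‖x i‖`. For `s ≥ ε` put `S κ (s, x) = (s, x)`. For `s < ε` let
`σ = (ε - s) / ε ∈ (0, 1]`, `c = max(σ, ‖x‖_m) / max(σ, κ ‖x‖_m)` and
`S κ (s, x) = (ε - ε c σ, x')`, `x' i = (c κ) • x i` for `i ≤ m`, `x' i = x i` for `i > m`.
(In the coordinates `w = (σ, (x i)_{i ≤ m})` with the sup norm this is `w ↦ ‖w‖/‖T w‖ • T w`,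
`T (σ, u) = (σ, κ u)`; it preserves the sup norm, and `S κ⁻¹` is the inverse.)
For `0 < κ ≤ 1`: `1 ≤ c ≤ 1/κ`, so it is continuous at `σ = 0` (there `c κ → 1` where
`‖x‖_m > 0`, and `c κ x i → 0` where `x i → 0`). At `s = 0`: `σ = 1`, `c = 1`, `x' i = κ • x i`. -/

set_option autoImplicit false

namespace Pool.Agent.MQ

open Set Topology
open Pool.Agent.CRC (UI)

namespace Squeeze

/-- the coordinate space -/
abbrev WW (m : ℕ) : Type := ℝ × (Fin (m + 1) → VV)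

/-- the linear map -/
noncomputable def TT {m : ℕ} (κ : ℝ) (w : WW m) : WW m := (w.1, κ • w.2)

/-- the normalized linear map -/
noncomputable def RR {m : ℕ} (κ : ℝ) (w : WW m) : WW m := (‖w‖ / ‖TT κ w‖) • TT κ w

theorem continuous_TT {m : ℕ} (κ : ℝ) : Continuous (TT (m := m) κ) := by
  unfold TT
  fun_prop

theorem TT_ne_zero {m : ℕ} {κ : ℝ} (hκ : 0 < κ) {w : WW m} (hw : w ≠ 0) : TT κ w ≠ 0 := by
  intro h
  apply hw
  have h1 := congrArg Prod.fst h
  have h2 := congrArg Prod.snd h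
  simp only [TT, Prod.fst_zero, Prod.snd_zero] at h1 h2
  exact Prod.ext h1 ((smul_eq_zero_iff_right hκ.ne').1 h2)

theorem norm_RR {m : ℕ} {κ : ℝ} (hκ : 0 < κ) (w : WW m) : ‖RR κ w‖ = ‖w‖ := by
  by_cases hw : w = 0
  · subst hw
    simp [RR]
  · have h1 : ‖TT κ w‖ ≠ 0 := norm_ne_zero_iff.2 (TT_ne_zero hκ hw)
    unfold RR
    rw [norm_smul, norm_div, norm_norm, norm_norm]
    field_simp

theorem continuous_RR {m : ℕ} {κ : ℝ} (hκ : 0 < κ) : Continuous (RR (m := m) κ) := by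
  rw [continuous_iff_continuousAt]
  intro w
  by_cases hw : w = 0
  · subst hw
    have h0 : RR (m := m) κ 0 = 0 := by simp [RR]
    unfold ContinuousAt
    rw [h0]
    refine squeeze_zero_norm (a := fun w : WW m => ‖w‖) (fun w => (norm_RR hκ w).le) ?_
    have := (continuous_norm (E := WW m)).tendsto 0
    simpa using this
  · have h1 : ‖TT κ w‖ ≠ 0 := norm_ne_zero_iff.2 (TT_ne_zero hκ hw)
    have h2 : ContinuousAt (TT (m := m) κ) w := (continuous_TT κ).continuousAt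
    exact ((continuous_norm.continuousAt).div h2.norm h1).smul h2

theorem RR_RR {m : ℕ} {κ : ℝ} (hκ : 0 < κ) (w : WW m) : RR κ⁻¹ (RR κ w) = w := by
  by_cases hw : w = 0
  · subst hw
    simp [RR, TT]
  · have h1 : ‖TT κ w‖ ≠ 0 := norm_ne_zero_iff.2 (TT_ne_zero hκ hw)
    have h1' : 0 < ‖TT κ w‖ := lt_of_le_of_ne (norm_nonneg _) (Ne.symm h1)
    have hw1 : ‖w‖ ≠ 0 := norm_ne_zero_iff.2 hw
    have hw1' : 0 < ‖w‖ := lt_of_le_of_ne (norm_nonneg _) (Ne.symm hw1)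
    have h2 : TT κ⁻¹ (RR κ w) = (‖w‖ / ‖TT κ w‖) • w := by
      unfold RR TT
      ext
      · rfl
      all_goals
        simp only [Prod.smul_snd, Pi.smul_apply, Prod.smul_fst]
        rw [smul_comm κ⁻¹, smul_smul κ⁻¹ κ, inv_mul_cancel₀ hκ.ne', one_smul]
    have h3 : RR κ⁻¹ (RR κ w) = (‖RR κ w‖ / ‖TT κ⁻¹ (RR κ w)‖) • TT κ⁻¹ (RR κ w) := rfl
    rw [h3, norm_RR hκ, h2, norm_smul, norm_div, norm_norm, norm_norm, smul_smul]
    have h4 : ‖w‖ / (‖w‖ / ‖TT κ w‖ * ‖w‖) * (‖w‖ / ‖TT κ w‖) = 1 := by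
      field_simp
    rw [h4, one_smul]

theorem RR_zero_fst {m : ℕ} {κ : ℝ} (hκ : 0 < κ) (u : Fin (m + 1) → VV) :
    RR κ ((0 : ℝ), u) = ((0 : ℝ), u) := by
  by_cases hu : u = 0
  · subst hu
    have : ((0 : ℝ), (0 : Fin (m + 1) → VV)) = (0 : WW m) := rfl
    rw [this]
    simp [RR, TT]
  · have h0 : ‖u‖ ≠ 0 := norm_ne_zero_iff.2 hu
    have h1 : ‖((0 : ℝ), u)‖ = ‖u‖ := by
      rw [Prod.norm_def]
      simp
    have h2 : TT κ ((0 : ℝ), u) = ((0 : ℝ), κ • u) := rfl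
    have h3 : ‖((0 : ℝ), κ • u)‖ = κ * ‖u‖ := by
      rw [Prod.norm_def]
      simp only [norm_zero, norm_smul, Real.norm_of_nonneg hκ.le]
      exact max_eq_right (by positivity)
    unfold RR
    rw [h2, h1, h3]
    have h4 : ‖u‖ / (κ * ‖u‖) = κ⁻¹ := by field_simp
    rw [h4, Prod.smul_mk, smul_zero, smul_smul, inv_mul_cancel₀ hκ.ne', one_smul]

/-- if `‖w‖ = ‖T w‖ = 1` then `R w = T w` -/
theorem RR_eq_TT {m : ℕ} {κ : ℝ} (hκ : 0 < κ) (hκ1 : κ ≤ 1) (u : Fin (m + 1) → VV)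
    (hu : ‖u‖ ≤ 1) : RR κ ((1 : ℝ), u) = ((1 : ℝ), κ • u) := by
  have h1 : ‖((1 : ℝ), u)‖ = 1 := by
    rw [Prod.norm_def]
    simp only [norm_one]
    exact max_eq_left hu
  have h2 : TT κ ((1 : ℝ), u) = ((1 : ℝ), κ • u) := rfl
  have h3 : ‖((1 : ℝ), κ • u)‖ = 1 := by
    rw [Prod.norm_def]
    simp only [norm_one, norm_smul, Real.norm_of_nonneg hκ.le]
    exact max_eq_left (by nlinarith [norm_nonneg u])
  unfold RR
  rw [h2, h1, h3]
  simp

/-- coordinates -/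
noncomputable def wc (m : ℕ) (ε : ℝ) (p : UI × QQ) : WW m :=
  (max ((ε - (p.1 : ℝ)) / ε) 0, fun i => (p.2 i : VV))

theorem continuous_wc (m : ℕ) (ε : ℝ) : Continuous (wc m ε) := by
  unfold wc
  fun_prop

theorem norm_u_le (m : ℕ) (x : QQ) : ‖fun i : Fin (m + 1) => (x i : VV)‖ ≤ 1 := by
  rw [pi_norm_le_iff_of_nonneg zero_le_one]
  exact fun i => mem_closedBall_zero_iff.1 (x i).2

theorem norm_wc_le (m : ℕ) {ε : ℝ} (hε : 0 < ε) (p : UI × QQ) : ‖wc m ε p‖ ≤ 1 := by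
  unfold wc
  rw [Prod.norm_def]
  refine max_le ?_ (norm_u_le m p.2)
  simp only
  rw [Real.norm_of_nonneg (le_max_right _ _)]
  refine max_le ?_ zero_le_one
  rw [div_le_one hε]
  have := p.1.2.1
  linarith

/-- new first coordinate -/
noncomputable def s1 (m : ℕ) (ε κ : ℝ) (p : UI × QQ) : ℝ :=
  max (p.1 : ℝ) ε - ε * (RR κ (wc m ε p)).1

theorem RR_fst_nonneg {m : ℕ} {κ : ℝ} {w : WW m} (hw : 0 ≤ w.1) : 0 ≤ (RR κ w).1 := by
  unfold RR TT
  rw [Prod.smul_fst]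
  exact mul_nonneg (by positivity) hw

theorem wc_fst_nonneg (m : ℕ) (ε : ℝ) (p : UI × QQ) : 0 ≤ (wc m ε p).1 := le_max_right _ _

theorem RR_fst_le {m : ℕ} {ε κ : ℝ} (hε : 0 < ε) (hκ : 0 < κ) (p : UI × QQ) :
    (RR κ (wc m ε p)).1 ≤ 1 := by
  have h1 : ‖(RR κ (wc m ε p)).1‖ ≤ 1 :=
    (norm_fst_le _).trans ((norm_RR hκ _).le.trans (norm_wc_le m hε p))
  exact (le_abs_self _).trans h1

theorem s1_mem {m : ℕ} {ε κ : ℝ} (hε : 0 < ε) (hε1 : ε ≤ 1) (hκ : 0 < κ) (p : UI × QQ) :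
    s1 m ε κ p ∈ Set.Icc (0 : ℝ) 1 := by
  unfold s1
  have h1 := RR_fst_nonneg (κ := κ) (wc_fst_nonneg m ε p)
  have h2 := RR_fst_le (m := m) hε hκ p
  have h3 : ε * (RR κ (wc m ε p)).1 ≤ ε := by nlinarith
  have h4 : 0 ≤ ε * (RR κ (wc m ε p)).1 := mul_nonneg hε.le h1
  have h5 : max (p.1 : ℝ) ε ≤ 1 := max_le p.1.2.2 hε1
  have h6 : ε ≤ max (p.1 : ℝ) ε := le_max_right _ _
  exact ⟨by linarith, by linarith⟩

theorem x1_mem {m : ℕ} {ε κ : ℝ} (hε : 0 < ε) (hκ : 0 < κ) (p : UI × QQ) (i : Fin (m + 1)) :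
    (RR κ (wc m ε p)).2 i ∈ Metric.closedBall (0 : VV) 1 := by
  rw [mem_closedBall_zero_iff]
  exact (norm_le_pi_norm _ i).trans
    ((norm_snd_le _).trans ((norm_RR hκ _).le.trans (norm_wc_le m hε p)))

/-- the squeezing map -/
noncomputable def SS (m : ℕ) {ε κ : ℝ} (hε : 0 < ε) (hε1 : ε ≤ 1) (hκ : 0 < κ) (p : UI × QQ) :
    UI × QQ :=
  (⟨s1 m ε κ p, s1_mem hε hε1 hκ p⟩, fun i => if h : i < m + 1 then
    ⟨(RR κ (wc m ε p)).2 ⟨i, h⟩, x1_mem hε hκ p ⟨i, h⟩⟩ else p.2 i)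

theorem SS_lt (m : ℕ) {ε κ : ℝ} (hε : 0 < ε) (hε1 : ε ≤ 1) (hκ : 0 < κ) (p : UI × QQ) {i : ℕ}
    (h : i < m + 1) : ((SS m hε hε1 hκ p).2 i : VV) = (RR κ (wc m ε p)).2 ⟨i, h⟩ := by
  change ((if h : i < m + 1 then (⟨(RR κ (wc m ε p)).2 ⟨i, h⟩, x1_mem hε hκ p ⟨i, h⟩⟩ : DD)
    else p.2 i : DD) : VV) = _
  rw [dif_pos h]

theorem SS_ge (m : ℕ) {ε κ : ℝ} (hε : 0 < ε) (hε1 : ε ≤ 1) (hκ : 0 < κ) (p : UI × QQ) {i : ℕ}
    (h : ¬ i < m + 1) : (SS m hε hε1 hκ p).2 i = p.2 i := by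
  change (if h : i < m + 1 then (⟨(RR κ (wc m ε p)).2 ⟨i, h⟩, x1_mem hε hκ p ⟨i, h⟩⟩ : DD)
    else p.2 i : DD) = _
  rw [dif_neg h]

theorem continuous_SS (m : ℕ) {ε κ : ℝ} (hε : 0 < ε) (hε1 : ε ≤ 1) (hκ : 0 < κ) :
    Continuous (SS m hε hε1 hκ) := by
  have hR : Continuous fun p : UI × QQ => RR κ (wc m ε p) :=
    (continuous_RR hκ).comp (continuous_wc m ε)
  unfold SS
  refine Continuous.prodMk (Continuous.subtype_mk ?_ _) (continuous_pi fun i => ?_)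
  · unfold s1
    have h1 : Continuous fun p : UI × QQ => (p.1 : ℝ) := by fun_prop
    exact (h1.max continuous_const).sub (continuous_const.mul (continuous_fst.comp hR))
  · by_cases h : i < m + 1
    · simp only [h, dif_pos]
      exact Continuous.subtype_mk ((continuous_apply _).comp (continuous_snd.comp hR)) _
    · simp only [h, dif_neg, not_false_iff]
      exact (continuous_apply i).comp continuous_snd

theorem max_SS (m : ℕ) {ε κ : ℝ} (hε : 0 < ε) (hε1 : ε ≤ 1) (hκ : 0 < κ) (p : UI × QQ) :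
    max ((SS m hε hε1 hκ p).1 : ℝ) ε = max (p.1 : ℝ) ε := by
  have h0 : ((SS m hε hε1 hκ p).1 : ℝ) = max (p.1 : ℝ) ε - ε * (RR κ (wc m ε p)).1 := rfl
  rcases le_total (p.1 : ℝ) ε with h | h
  · rw [max_eq_right h]
    apply max_eq_right
    rw [h0, max_eq_right h]
    have h1 := RR_fst_nonneg (κ := κ) (wc_fst_nonneg m ε p)
    nlinarith [mul_nonneg hε.le h1]
  · have h2 : wc m ε p = ((0 : ℝ), fun i : Fin (m + 1) => (p.2 i : VV)) := by
      unfold wc
      rw [max_eq_right]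
      exact div_nonpos_of_nonpos_of_nonneg (by linarith) hε.le
    rw [h0, h2, RR_zero_fst hκ, mul_zero, sub_zero, max_eq_left h, max_eq_left h]

theorem wc_SS (m : ℕ) {ε κ : ℝ} (hε : 0 < ε) (hε1 : ε ≤ 1) (hκ : 0 < κ) (p : UI × QQ) :
    wc m ε (SS m hε hε1 hκ p) = RR κ (wc m ε p) := by
  refine Prod.ext ?_ ?_
  · have h0 : ((SS m hε hε1 hκ p).1 : ℝ) = max (p.1 : ℝ) ε - ε * (RR κ (wc m ε p)).1 := rfl
    have h00 : (wc m ε (SS m hε hε1 hκ p)).1 =
      max ((ε - ((SS m hε hε1 hκ p).1 : ℝ)) / ε) 0 := rfl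
    rw [h00, h0]
    have h1 := RR_fst_nonneg (κ := κ) (wc_fst_nonneg m ε p)
    rcases le_total (p.1 : ℝ) ε with h | h
    · rw [max_eq_right h]
      have h3 : (ε - (ε - ε * (RR κ (wc m ε p)).1)) / ε = (RR κ (wc m ε p)).1 := by
        field_simp
        ring
      rw [h3, max_eq_left h1]
    · have h2 : wc m ε p = ((0 : ℝ), fun i : Fin (m + 1) => (p.2 i : VV)) := by
        unfold wc
        rw [max_eq_right]
        exact div_nonpos_of_nonpos_of_nonneg (by linarith) hε.le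
      rw [h2, RR_zero_fst hκ, mul_zero, sub_zero, max_eq_left h, max_eq_right]
      exact div_nonpos_of_nonpos_of_nonneg (by linarith) hε.le
  · funext i
    have h00 : (wc m ε (SS m hε hε1 hκ p)).2 i = ((SS m hε hε1 hκ p).2 i : VV) := rfl
    rw [h00, SS_lt m hε hε1 hκ p i.2]

theorem SS_SS (m : ℕ) {ε κ : ℝ} (hε : 0 < ε) (hε1 : ε ≤ 1) (hκ : 0 < κ) (hκ' : 0 < κ⁻¹)
    (p : UI × QQ) : SS m hε hε1 hκ' (SS m hε hε1 hκ p) = p := by
  refine Prod.ext (Subtype.ext ?_) (funext fun i => ?_)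
  · have h0 : ((SS m hε hε1 hκ' (SS m hε hε1 hκ p)).1 : ℝ) =
      max ((SS m hε hε1 hκ p).1 : ℝ) ε - ε * (RR κ⁻¹ (wc m ε (SS m hε hε1 hκ p))).1 := rfl
    rw [h0, max_SS, wc_SS, RR_RR hκ]
    have h1 : (wc m ε p).1 = max ((ε - (p.1 : ℝ)) / ε) 0 := rfl
    rw [h1]
    rcases le_total (p.1 : ℝ) ε with h | h
    · rw [max_eq_right h, max_eq_left (div_nonneg (by linarith) hε.le)]
      field_simp
      ring
    · rw [max_eq_left h, max_eq_right (div_nonpos_of_nonpos_of_nonneg (by linarith) hε.le)]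
      ring
  · by_cases h : i < m + 1
    · apply Subtype.ext
      have h0 : ((SS m hε hε1 hκ' (SS m hε hε1 hκ p)).2 i : VV) =
          (RR κ⁻¹ (wc m ε (SS m hε hε1 hκ p))).2 ⟨i, h⟩ :=
        SS_lt m hε hε1 hκ' _ h
      rw [h0, wc_SS, RR_RR hκ]
      rfl
    · rw [SS_ge m hε hε1 hκ' _ h, SS_ge m hε hε1 hκ _ h]

end Squeeze

open Squeeze

theorem exists_squeeze (m : ℕ) (ε κ : ℝ) (hε : 0 < ε) (hε1 : ε ≤ 1) (hκ : 0 < κ) (hκ1 : κ ≤ 1) :
    ∃ S : (UI × QQ) ≃ₜ (UI × QQ), (∀ p : UI × QQ, ε ≤ (p.1 : ℝ) → S p = p) ∧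
      (∀ p : UI × QQ, (p.1 : ℝ) ≤ ε → ((S p).1 : ℝ) ≤ ε) ∧
      (∀ x : QQ, (∀ i ≤ m, (x i : VV) = 0) → S (0, x) = (0, x)) ∧
      ∀ x : QQ, (S (0, x)).1 = 0 ∧ ∀ i ≤ m, ‖((S (0, x)).2 i : VV)‖ ≤ κ := by
  have hκ' : 0 < κ⁻¹ := inv_pos.2 hκ
  have hinv : κ⁻¹⁻¹ = κ := inv_inv κ
  have hw0 : ∀ x : QQ, wc m ε (0, x) = ((1 : ℝ), fun i : Fin (m + 1) => (x i : VV)) := by
    intro x
    unfold wc
    have h1 : (ε - (((0 : UI) : ℝ))) / ε = 1 := by
      rw [show ((0 : UI) : ℝ) = 0 from rfl, sub_zero, div_self hε.ne']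
    simp only [h1]
    rw [max_eq_left zero_le_one]
  refine ⟨{ toFun := SS m hε hε1 hκ
            invFun := SS m hε hε1 hκ'
            left_inv := SS_SS m hε hε1 hκ hκ'
            right_inv := ?_
            continuous_toFun := continuous_SS m hε hε1 hκ
            continuous_invFun := continuous_SS m hε hε1 hκ' }, ?_, ?_, ?_, ?_⟩
  · intro p
    have h := SS_SS m hε hε1 hκ' (by rw [hinv]; exact hκ) p
    simp only [hinv] at h
    exact h
  · intro p hp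
    have h2 : wc m ε p = ((0 : ℝ), fun i : Fin (m + 1) => (p.2 i : VV)) := by
      unfold wc
      rw [max_eq_right]
      exact div_nonpos_of_nonpos_of_nonneg (by linarith) hε.le
    change SS m hε hε1 hκ p = p
    refine Prod.ext (Subtype.ext ?_) (funext fun i => ?_)
    · change max (p.1 : ℝ) ε - ε * (RR κ (wc m ε p)).1 = p.1
      rw [h2, RR_zero_fst hκ, max_eq_left hp]
      ring
    · by_cases h : i < m + 1
      · apply Subtype.ext
        have h0 : ((SS m hε hε1 hκ p).2 i : VV) = (RR κ (wc m ε p)).2 ⟨i, h⟩ :=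
          SS_lt m hε hε1 hκ p h
        rw [h0, h2, RR_zero_fst hκ]
      · exact SS_ge m hε hε1 hκ p h
  · intro p hp
    change max (p.1 : ℝ) ε - ε * (RR κ (wc m ε p)).1 ≤ ε
    rw [max_eq_right hp]
    have h1 := RR_fst_nonneg (κ := κ) (wc_fst_nonneg m ε p)
    nlinarith [mul_nonneg hε.le h1]
  · intro x hx
    have hu : (fun i : Fin (m + 1) => (x i : VV)) = 0 := by
      funext i
      exact hx i (Nat.lt_succ_iff.1 i.2)
    have h1 : RR κ (wc m ε (0, x)) = ((1 : ℝ), (0 : Fin (m + 1) → VV)) := by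
      rw [hw0, RR_eq_TT hκ hκ1 _ (norm_u_le m x), hu, smul_zero]
    change SS m hε hε1 hκ (0, x) = (0, x)
    refine Prod.ext (Subtype.ext ?_) (funext fun i => ?_)
    · change max ((0 : UI) : ℝ) ε - ε * (RR κ (wc m ε (0, x))).1 = ((0 : UI) : ℝ)
      rw [h1, show ((0 : UI) : ℝ) = 0 from rfl, max_eq_right hε.le]
      ring
    · by_cases h : i < m + 1
      · apply Subtype.ext
        have h0 : ((SS m hε hε1 hκ (0, x)).2 i : VV) = (RR κ (wc m ε (0, x))).2 ⟨i, h⟩ :=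
          SS_lt m hε hε1 hκ _ h
        rw [h0, h1]
        exact (hx i (Nat.lt_succ_iff.1 h)).symm
      · exact SS_ge m hε hε1 hκ _ h
  · intro x
    have h1 : RR κ (wc m ε (0, x)) = ((1 : ℝ), κ • fun i : Fin (m + 1) => (x i : VV)) := by
      rw [hw0, RR_eq_TT hκ hκ1 _ (norm_u_le m x)]
    refine ⟨Subtype.ext ?_, fun i hi => ?_⟩
    · change max ((0 : UI) : ℝ) ε - ε * (RR κ (wc m ε (0, x))).1 = ((0 : UI) : ℝ)
      rw [h1, show ((0 : UI) : ℝ) = 0 from rfl, max_eq_right hε.le]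
      ring
    · have h : i < m + 1 := Nat.lt_succ_iff.2 hi
      have h0 : ((SS m hε hε1 hκ (0, x)).2 i : VV) = (RR κ (wc m ε (0, x))).2 ⟨i, h⟩ :=
        SS_lt m hε hε1 hκ _ h
      change ‖((SS m hε hε1 hκ (0, x)).2 i : VV)‖ ≤ κ
      rw [h0, h1]
      change ‖κ • (x i : VV)‖ ≤ κ
      rw [norm_smul, Real.norm_of_nonneg hκ.le]
      have := mem_closedBall_zero_iff.1 (x i).2
      nlinarith

end Pool.Agent.MQ
end

section

/-! TASK G3: homeomorphisms of the ball moving `z / 4` to `0`.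

For `z : S3` put `a = quart z` (`‖a‖ ≤ 1/4`), `b = (1 - ‖a‖)⁻¹ • a` (`‖b‖ ≤ 1/3`) and
`P z u = u - max 0 (1 - ‖u‖) • b`. On `VV` this is the identity plus a `1/3`-Lipschitz map, hence
bijective (Banach fixed point theorem for `u ↦ w + max 0 (1 - ‖u‖) • b`), and it is the identity
outside the open unit ball, so it is a bijection of the closed unit ball. `P z a = 0`. -/

set_option autoImplicit false

namespace Pool.Agent.MQ

open Set Topology
open Pool.Agent.CRC (S3 rot)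

private noncomputable def pmB (z : S3) : VV := (1 - ‖quart z‖)⁻¹ • quart z

private theorem pmB_norm (z : S3) : ‖pmB z‖ ≤ 1 / 3 := by
  have h := norm_quart_le z
  have h0 := norm_nonneg (quart z)
  unfold pmB
  rw [norm_smul, norm_inv, Real.norm_eq_abs, abs_of_nonneg (by linarith), inv_mul_eq_div,
    div_le_iff₀ (by linarith)]
  linarith

private theorem pmT_lip (u u' : VV) : |max 0 (1 - ‖u‖) - max 0 (1 - ‖u'‖)| ≤ ‖u - u'‖ := by
  have h1 : |max 0 (1 - ‖u‖) - max 0 (1 - ‖u'‖)| ≤ |(1 - ‖u‖) - (1 - ‖u'‖)| := by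
    have := abs_max_sub_max_le_abs (1 - ‖u‖) (1 - ‖u'‖) 0
    rwa [max_comm 0, max_comm 0]
  refine h1.trans ?_
  have h2 : (1 - ‖u‖) - (1 - ‖u'‖) = -(‖u‖ - ‖u'‖) := by ring
  rw [h2, abs_neg]
  exact abs_norm_sub_norm_le u u'

private noncomputable def pmF (z : S3) (u : VV) : VV := u - max 0 (1 - ‖u‖) • pmB z

private theorem pmF_inj (z : S3) : Function.Injective (pmF z) := by
  intro u u' h
  unfold pmF at h
  have h1 : u - u' = (max 0 (1 - ‖u‖) - max 0 (1 - ‖u'‖)) • pmB z := by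
    rw [sub_smul]
    have h2 := sub_eq_sub_iff_add_eq_add.mp h
    rw [sub_eq_sub_iff_add_eq_add]
    rw [h2]
    exact add_comm _ _
  have h3 : ‖u - u'‖ ≤ ‖u - u'‖ * (1 / 3) := by
    conv_lhs => rw [h1]
    rw [norm_smul, Real.norm_eq_abs]
    exact mul_le_mul (pmT_lip u u') (pmB_norm z) (norm_nonneg _) (norm_nonneg _)
  have h4 : ‖u - u'‖ = 0 := by
    have := norm_nonneg (u - u')
    linarith
  exact sub_eq_zero.mp (norm_eq_zero.mp h4)

private theorem pmF_surj (z : S3) (w : VV) : ∃ u, pmF z u = w := by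
  have hc : ContractingWith (1 / 3 : NNReal) (fun u : VV => w + max 0 (1 - ‖u‖) • pmB z) := by
    refine ⟨by norm_num, LipschitzWith.of_dist_le_mul fun u u' => ?_⟩
    rw [dist_eq_norm, dist_eq_norm, add_sub_add_left_eq_sub, ← sub_smul, norm_smul,
      Real.norm_eq_abs, mul_comm]
    have : ((1 / 3 : NNReal) : ℝ) = 1 / 3 := by norm_num
    rw [this]
    exact mul_le_mul (pmB_norm z) (pmT_lip u u') (abs_nonneg _) (by norm_num)
  refine ⟨hc.fixedPoint, ?_⟩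
  have h := hc.fixedPoint_isFixedPt
  unfold Function.IsFixedPt at h
  unfold pmF
  rw [sub_eq_iff_eq_add]
  exact h.symm

private theorem pmF_mem (z : S3) {u : VV} (hu : ‖u‖ ≤ 1) : ‖pmF z u‖ ≤ 1 := by
  unfold pmF
  have h1 : max 0 (1 - ‖u‖) = 1 - ‖u‖ := max_eq_right (by linarith)
  rw [h1]
  have h2 : ‖(1 - ‖u‖) • pmB z‖ ≤ (1 - ‖u‖) * (1 / 3) := by
    rw [norm_smul, Real.norm_eq_abs, abs_of_nonneg (by linarith)]
    exact mul_le_mul_of_nonneg_left (pmB_norm z) (by linarith)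
  have h3 := norm_sub_le u ((1 - ‖u‖) • pmB z)
  linarith

private theorem pmF_quart (z : S3) : pmF z (quart z) = 0 := by
  have h := norm_quart_le z
  unfold pmF pmB
  rw [max_eq_right (by linarith), smul_smul, mul_inv_cancel₀ (by linarith), one_smul, sub_self]

theorem exists_push : ∃ P : S3 → DD → DD, Continuous (fun p : S3 × DD => P p.1 p.2) ∧
    (∀ z, Function.Bijective (P z)) ∧ ∀ z (x : DD), (P z x : VV) = 0 ↔ (x : VV) = quart z := by
  refine ⟨fun z x => ⟨pmF z x.1, ?_⟩, ?_, ?_, ?_⟩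
  · rw [mem_closedBall_zero_iff]
    exact pmF_mem z (mem_closedBall_zero_iff.mp x.2)
  · refine Continuous.subtype_mk ?_ _
    have hq : Continuous fun p : S3 × DD => quart p.1 := continuous_quart.comp continuous_fst
    have hx : Continuous fun p : S3 × DD => (p.2 : VV) :=
      continuous_subtype_val.comp continuous_snd
    unfold pmF pmB
    refine hx.sub ((continuous_const.max (continuous_const.sub hx.norm)).smul
      (Continuous.smul (Continuous.inv₀ (continuous_const.sub hq.norm) fun p => ?_) hq))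
    have h := norm_quart_le p.1
    have h1 : (0 : ℝ) < 1 - ‖quart p.1‖ := by linarith
    exact h1.ne'
  · intro z
    constructor
    · intro x x' h
      exact Subtype.ext (pmF_inj z (congrArg Subtype.val h))
    · intro w
      obtain ⟨u, hu⟩ := pmF_surj z w.1
      have hw := mem_closedBall_zero_iff.mp w.2
      have hu1 : ‖u‖ ≤ 1 := by
        by_contra hcon
        push Not at hcon
        unfold pmF at hu
        rw [max_eq_left (by linarith), zero_smul, sub_zero] at hu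
        rw [hu] at hcon
        linarith
      exact ⟨⟨u, mem_closedBall_zero_iff.mpr hu1⟩, Subtype.ext hu⟩
  · intro z x
    constructor
    · intro h
      refine pmF_inj z ?_
      rw [pmF_quart]
      exact h
    · intro h
      change pmF z x.1 = 0
      rw [h]
      exact pmF_quart z

end Pool.Agent.MQ
end
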