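import Pool.Agent.Lib.MP_9c87eb_gt.Defs

section

/-! TASK G1: normalized rotations of `VV × VV` and the induced maps of `DD × DD`.

`rotL φ (a, b) = (cos φ • a - sin φ • b, sin φ • a + cos φ • b)`, `nrot φ w = (‖w‖ / ‖rotL φ w‖) • rotL φ w`
(equal to `0` for `w = 0`). It preserves the (sup) norm of `VV × VV`, `nrot (-φ) (nrot φ w) = w`,
and is jointly continuous (at `w = 0` because the norm is preserved). -/

set_option autoImplicit false

namespace Pool.Agent.MQ

open Set Topology

/-- rotation -/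
noncomputable def rotL (φ : ℝ) (w : VV × VV) : VV × VV :=
  (Real.cos φ • w.1 - Real.sin φ • w.2, Real.sin φ • w.1 + Real.cos φ • w.2)

/-- normalized rotation -/
noncomputable def nrot (φ : ℝ) (w : VV × VV) : VV × VV := (‖w‖ / ‖rotL φ w‖) • rotL φ w

private theorem rotL_neg_rotL (φ : ℝ) (w : VV × VV) : rotL (-φ) (rotL φ w) = w := by
  have hsc : Real.cos φ * Real.cos φ + Real.sin φ * Real.sin φ = 1 := by
    have := Real.cos_sq_add_sin_sq φ
    nlinarith
  obtain ⟨a, b⟩ := w
  simp only [rotL, Real.cos_neg, Real.sin_neg]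
  refine Prod.ext ?_ ?_
  · change Real.cos φ • (Real.cos φ • a - Real.sin φ • b) -
      (-Real.sin φ) • (Real.sin φ • a + Real.cos φ • b) = a
    have : Real.cos φ • (Real.cos φ • a - Real.sin φ • b) -
      (-Real.sin φ) • (Real.sin φ • a + Real.cos φ • b) =
      (Real.cos φ * Real.cos φ + Real.sin φ * Real.sin φ) • a := by
      module
    rw [this, hsc, one_smul]
  · change (-Real.sin φ) • (Real.cos φ • a - Real.sin φ • b) +
      Real.cos φ • (Real.sin φ • a + Real.cos φ • b) = b
    have : (-Real.sin φ) • (Real.cos φ • a - Real.sin φ • b) +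
      Real.cos φ • (Real.sin φ • a + Real.cos φ • b) =
      (Real.cos φ * Real.cos φ + Real.sin φ * Real.sin φ) • b := by
      module
    rw [this, hsc, one_smul]

private theorem rotL_smul (φ c : ℝ) (w : VV × VV) : rotL φ (c • w) = c • rotL φ w := by
  obtain ⟨a, b⟩ := w
  refine Prod.ext ?_ ?_
  · change Real.cos φ • (c • a) - Real.sin φ • (c • b) = c • (Real.cos φ • a - Real.sin φ • b)
    module
  · change Real.sin φ • (c • a) + Real.cos φ • (c • b) = c • (Real.sin φ • a + Real.cos φ • b)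
    module

private theorem rotL_zero' (φ : ℝ) : rotL φ 0 = 0 := by
  have := rotL_smul φ 0 0
  simpa using this

private theorem rotL_ne_zero (φ : ℝ) {w : VV × VV} (hw : w ≠ 0) : rotL φ w ≠ 0 := by
  intro h
  apply hw
  rw [← rotL_neg_rotL φ w, h, rotL_zero']

private theorem nrot_zero' (φ : ℝ) : nrot φ 0 = 0 := by
  simp [nrot, rotL_zero']

private theorem norm_nrot (φ : ℝ) (w : VV × VV) : ‖nrot φ w‖ = ‖w‖ := by
  by_cases hw : w = 0
  · rw [hw, nrot_zero']
  · have h := norm_pos_iff.2 (rotL_ne_zero φ hw)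
    unfold nrot
    rw [norm_smul, Real.norm_eq_abs, abs_of_nonneg (by positivity)]
    field_simp

private theorem nrot_neg_nrot (φ : ℝ) (w : VV × VV) : nrot (-φ) (nrot φ w) = w := by
  by_cases hw : w = 0
  · rw [hw, nrot_zero', nrot_zero']
  · have h := norm_pos_iff.2 (rotL_ne_zero φ hw)
    have hw' := norm_pos_iff.2 hw
    have hn := norm_nrot φ w
    have h1 : rotL (-φ) (nrot φ w) = (‖w‖ / ‖rotL φ w‖) • w := by
      unfold nrot
      rw [rotL_smul, rotL_neg_rotL]
    have hc : 0 < ‖w‖ / ‖rotL φ w‖ := by positivity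
    conv_lhs => unfold nrot
    rw [show ‖(‖w‖ / ‖rotL φ w‖) • rotL φ w‖ = ‖w‖ from hn]
    change (‖w‖ / ‖rotL (-φ) (nrot φ w)‖) • rotL (-φ) (nrot φ w) = w
    rw [h1, norm_smul, Real.norm_eq_abs, abs_of_pos hc, smul_smul]
    have : ‖w‖ / (‖w‖ / ‖rotL φ w‖ * ‖w‖) * (‖w‖ / ‖rotL φ w‖) = 1 := by
      field_simp
    rw [this, one_smul]

private theorem continuous_rotL : Continuous fun p : ℝ × (VV × VV) => rotL p.1 p.2 := by
  unfold rotL
  fun_prop

private theorem continuous_nrot : Continuous fun p : ℝ × (VV × VV) => nrot p.1 p.2 := by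
  rw [continuous_iff_continuousAt]
  rintro ⟨φ, w⟩
  by_cases hw : w = 0
  · subst hw
    change Filter.Tendsto (fun p : ℝ × (VV × VV) => nrot p.1 p.2) (𝓝 (φ, 0)) (𝓝 (nrot φ 0))
    rw [nrot_zero' φ, tendsto_zero_iff_norm_tendsto_zero]
    simp only [norm_nrot]
    have : Continuous fun p : ℝ × (VV × VV) => ‖p.2‖ := by fun_prop
    have h := this.tendsto (φ, 0)
    simpa using h
  · unfold nrot
    have h1 : ContinuousAt (fun p : ℝ × (VV × VV) => ‖p.2‖ / ‖rotL p.1 p.2‖) (φ, w) :=
      ContinuousAt.div (continuous_snd.norm).continuousAt continuous_rotL.norm.continuousAt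
        (norm_ne_zero_iff.2 (rotL_ne_zero φ hw))
    exact h1.smul continuous_rotL.continuousAt

private theorem nrot_pi (a b : VV) : nrot (Real.pi / 2) (a, b) = (-b, a) := by
  have h1 : rotL (Real.pi / 2) (a, b) = (-b, a) := by
    simp [rotL]
  have h2 : ‖((-b, a) : VV × VV)‖ = ‖((a, b) : VV × VV)‖ := by
    rw [Prod.norm_mk (-b) a, Prod.norm_mk a b, norm_neg b, max_comm]
  unfold nrot
  rw [h1, h2]
  by_cases h : ((a, b) : VV × VV) = 0
  · have ha : a = 0 := congrArg Prod.fst h
    have hb : b = 0 := congrArg Prod.snd h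
    rw [ha, hb]; simp; rfl
  · rw [div_self (norm_ne_zero_iff.2 h), one_smul]

/-- There is a jointly continuous family `r φ : DD × DD → DD × DD` with `r (-φ) ∘ r φ = id`,
`r 0 = id` and such that `r (π/2) (a, b)` has second coordinate `a` and a first coordinate depending
only on `b`. -/
theorem exists_nrot : ∃ r : ℝ → DD × DD → DD × DD, Continuous (fun p : ℝ × (DD × DD) => r p.1 p.2) ∧
    (∀ φ w, r (-φ) (r φ w) = w) ∧ (∀ w, r 0 w = w) ∧
    (∀ a b, (r (Real.pi / 2) (a, b)).2 = a) ∧
    (∀ a a' b, (r (Real.pi / 2) (a, b)).1 = (r (Real.pi / 2) (a', b)).1) := by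
  have hmem : ∀ (φ : ℝ) (w : DD × DD), ‖nrot φ (w.1.1, w.2.1)‖ ≤ 1 := by
    intro φ w
    rw [norm_nrot, Prod.norm_mk]
    exact max_le (mem_closedBall_zero_iff.1 w.1.2) (mem_closedBall_zero_iff.1 w.2.2)
  refine ⟨fun φ w => (⟨(nrot φ (w.1.1, w.2.1)).1, ?_⟩, ⟨(nrot φ (w.1.1, w.2.1)).2, ?_⟩),
    ?_, fun φ w => ?_, fun w => ?_, fun a b => ?_, fun a a' b => ?_⟩
  · exact mem_closedBall_zero_iff.2 ((norm_fst_le _).trans (hmem φ w))
  · exact mem_closedBall_zero_iff.2 ((norm_snd_le _).trans (hmem φ w))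
  · have hc : Continuous fun p : ℝ × (DD × DD) => nrot p.1 (p.2.1.1, p.2.2.1) :=
      continuous_nrot.comp (continuous_fst.prodMk
        ((continuous_subtype_val.comp (continuous_fst.comp continuous_snd)).prodMk
          (continuous_subtype_val.comp (continuous_snd.comp continuous_snd))))
    exact (Continuous.subtype_mk (continuous_fst.comp hc) _).prodMk
      (Continuous.subtype_mk (continuous_snd.comp hc) _)
  · have h := nrot_neg_nrot φ (w.1.1, w.2.1)
    refine Prod.ext (Subtype.ext ?_) (Subtype.ext ?_)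
    · exact congrArg Prod.fst h
    · exact congrArg Prod.snd h
  · have h : nrot 0 (w.1.1, w.2.1) = (w.1.1, w.2.1) := by
      have h1 : rotL 0 (w.1.1, w.2.1) = (w.1.1, w.2.1) := by
        simp [rotL]
      by_cases hw : (w.1.1, w.2.1) = (0 : VV × VV)
      · rw [hw, nrot_zero']
      · unfold nrot
        rw [h1, div_self (norm_ne_zero_iff.2 hw), one_smul]
    refine Prod.ext (Subtype.ext ?_) (Subtype.ext ?_)
    · exact congrArg Prod.fst h
    · exact congrArg Prod.snd h
  · exact Subtype.ext (congrArg Prod.snd (nrot_pi a.1 b.1))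
  · refine Subtype.ext ?_
    change (nrot (Real.pi / 2) (a.1, b.1)).1 = (nrot (Real.pi / 2) (a'.1, b.1)).1
    rw [nrot_pi, nrot_pi]

end Pool.Agent.MQ
end

section

/-! TASK G2a: the swapping homeomorphisms of `S¹ × QQ × QP`.

`Θ (z, x, y) = (z, x', y')` where for all `i` `(x' i, y' N i) = r (φ z) (x i, y N i)` (`r` from
`exists_nrot`), `y' j = y j` for `j ≠ N`, and `φ z = (π/2) * max 0 (1 - ‖z - 1‖ / ε)`. The inverse
uses `r (-φ z)` (and `r φ ∘ r (-φ) = id`). `Function.update`. -/

set_option autoImplicit false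

namespace Pool.Agent.MQ

open Set Topology

theorem exists_swap (N : ℕ) (ε : ℝ) (hε : 0 < ε) :
    ∃ Θ : (Circle × QQ × QP) ≃ₜ (Circle × QQ × QP), (∀ p, (Θ p).1 = p.1) ∧
      (∀ p : Circle × QQ × QP, ε ≤ ‖(p.1 : ℂ) - 1‖ → Θ p = p) ∧
      (∀ p, ∀ j ≠ N, (Θ p).2.2 j = p.2.2 j) ∧
      ∀ x x' y, (Θ (1, x, y)).2.1 = (Θ (1, x', y)).2.1 := by
  classical
  obtain ⟨r, hc, hinv, h0, h2, h1⟩ := exists_nrot
  let ph : Circle → ℝ := fun z => (Real.pi / 2) * max 0 (1 - ‖(z : ℂ) - 1‖ / ε)
  have hph : Continuous ph := by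
    refine continuous_const.mul (continuous_const.max (continuous_const.sub ?_))
    have hco : Continuous fun z : Circle => (z : ℂ) := by fun_prop
    exact ((hco.sub continuous_const).norm).div_const ε
  let T : ℝ → (Circle × QQ × QP) → (Circle × QQ × QP) := fun σ p =>
    (p.1, fun i => (r (σ * ph p.1) (p.2.1 i, p.2.2 N i)).1,
      Function.update p.2.2 N (fun i => (r (σ * ph p.1) (p.2.1 i, p.2.2 N i)).2))
  have hTc : ∀ σ, Continuous (T σ) := by
    intro σ
    have hr : ∀ i : ℕ, Continuous fun p : Circle × QQ × QP =>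
        r (σ * ph p.1) (p.2.1 i, p.2.2 N i) := by
      intro i
      have h3 : Continuous fun p : Circle × QQ × QP =>
          ((σ * ph p.1, (p.2.1 i, p.2.2 N i)) : ℝ × (DD × DD)) := by
        refine (continuous_const.mul (hph.comp continuous_fst)).prodMk (Continuous.prodMk ?_ ?_)
        · exact (continuous_apply i).comp (continuous_fst.comp continuous_snd)
        · exact (continuous_apply i).comp ((continuous_apply N).comp
            (continuous_snd.comp continuous_snd))
      exact hc.comp h3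
    refine continuous_fst.prodMk (Continuous.prodMk ?_ ?_)
    · exact continuous_pi fun i => continuous_fst.comp (hr i)
    · exact (continuous_snd.comp continuous_snd).update N
        (continuous_pi fun i => continuous_snd.comp (hr i))
  have hTT : ∀ σ p, T (-σ) (T σ p) = p := by
    intro σ p
    obtain ⟨z, x, y⟩ := p
    simp only [T, Function.update_self, Prod.mk.eta, neg_mul, hinv, Function.update_idem]
    refine Prod.ext rfl (Prod.ext rfl ?_)
    exact Function.update_eq_self N y
  let Θ : (Circle × QQ × QP) ≃ₜ (Circle × QQ × QP) :=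
    { toFun := T 1
      invFun := T (-1)
      left_inv := fun p => hTT 1 p
      right_inv := fun p => by
        have h3 := hTT (-1) p
        rwa [neg_neg] at h3
      continuous_toFun := hTc 1
      continuous_invFun := hTc (-1) }
  refine ⟨Θ, fun p => rfl, fun p hp => ?_, fun p j hj => ?_, fun x x' y => ?_⟩
  · obtain ⟨z, x, y⟩ := p
    have h3 : ph z = 0 := by
      have h4 : 1 - ‖(z : ℂ) - 1‖ / ε ≤ 0 := by
        rw [sub_nonpos, one_le_div hε]
        exact hp
      simp only [ph, max_eq_left h4, mul_zero]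
    show T 1 (z, x, y) = (z, x, y)
    simp only [T, h3, mul_zero, h0]
    refine Prod.ext rfl (Prod.ext rfl ?_)
    exact Function.update_eq_self N y
  · show (T 1 p).2.2 j = p.2.2 j
    simp only [T]
    exact Function.update_of_ne hj _ _
  · show (T 1 (1, x, y)).2.1 = (T 1 (1, x', y)).2.1
    have h3 : ph 1 = Real.pi / 2 := by
      simp [ph]
    simp only [T, h3, one_mul]
    funext i
    exact h1 _ _ _

end Pool.Agent.MQ
end
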