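import Pool.Agent.Lib.MP_9c87eb_gt.Mg.G004
import Pool.Agent.Lib.MP_9c87eb_gt.Mg.G009
import Pool.Agent.Lib.MP_9c87eb_gt.Mg.G005
import Pool.Agent.Lib.MP_9c87eb_gt.AsmDefs

section

/-! TASK G2b: `S¹ × QQ × QP → PP 0 × QP`, `(z, x, y) ↦ (cP (z, x), y)` is approximable by
homeomorphisms.

`bing` with `Θ` from `exists_swap N ε`, `N` large, `ε` small. (a) If `Θ p = (z, x', y')`, then
`cP (z, x')` and `cP (z, x)` differ only if `‖z - 1‖ < ε`, and then by `≤ 2ε` in each third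
coordinate (`cm`); `y'` differs from `y` in the index `N` only. (b) The fibres of the map are points and
the sets `{1} × QQ × {y}` (`cP_eq_iff`); for `z = 1` the coordinate `x'` depends only on `y`, and
`y' j = y j` for `j ≠ N`. Entourages of `ℕ → QQ` contain `{(y, y') | ∀ j ∈ I, y j = y' j}` for some
finite `I`: take `N ∉ I` (`Pi.uniformity`, `Filter.mem_iInf`). -/

set_option autoImplicit false

namespace Pool.Agent.MQ

open Set Topology Uniformity

instance g2b_instCircle : (𝓤 Circle).IsCountablyGenerated :=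
  EMetric.instIsCountablyGeneratedUniformity

instance g2b_instPP (d : QQ → ℝ) : (𝓤 (PP d)).IsCountablyGenerated := by
  rw [uniformity_subtype]
  infer_instance

/-- entourages of a product contain `{(x, y) | ∀ n ∈ I, x n = y n}` for some finite `I` -/
theorem g2b_pi_ent {ι : Type} {α : ι → Type} [∀ i, UniformSpace (α i)]
    (V : Set ((∀ i, α i) × (∀ i, α i))) (hV : V ∈ 𝓤 (∀ i, α i)) :
    ∃ I : Finset ι, ∀ x y : ∀ i, α i, (∀ i ∈ I, x i = y i) → (x, y) ∈ V := by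
  classical
  have h : Filter.Tendsto (fun p : Finset ι × ((∀ i, α i) × (∀ i, α i)) =>
      (p.2.1, p.1.piecewise p.2.1 p.2.2)) (Filter.atTop ×ˢ ⊤) (𝓤 (∀ i, α i)) := by
    rw [Pi.uniformity, Filter.tendsto_iInf]
    intro n
    rw [Filter.tendsto_comap_iff]
    refine Filter.Tendsto.mono_right (Filter.tendsto_principal.2 ?_) refl_le_uniformity
    have h1 : ∀ᶠ k in (Filter.atTop : Filter (Finset ι)), n ∈ k := by
      filter_upwards [Filter.eventually_ge_atTop ({n} : Finset ι)] with k hk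
      exact hk (Finset.mem_singleton_self n)
    filter_upwards [h1.prod_inl ⊤] with p hp
    show p.2.1 n = p.1.piecewise p.2.1 p.2.2 n
    rw [Finset.piecewise_eq_of_mem _ _ _ hp]
  have h2 := h hV
  rw [Filter.mem_map, Filter.mem_prod_top] at h2
  obtain ⟨k, hk⟩ := Filter.Eventually.exists (f := Filter.atTop) h2
  refine ⟨k, fun x y hxy => ?_⟩
  have h3 := hk (x, y)
  have h4 : k.piecewise x y = y := by
    funext i
    by_cases hi : i ∈ k
    · rw [Finset.piecewise_eq_of_mem _ _ _ hi, hxy i hi]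
    · rw [Finset.piecewise_eq_of_notMem _ _ _ hi]
  rw [mem_preimage] at h3
  dsimp only at h3
  rwa [h4] at h3

/-- near `z = 1` the map `cP (z, ·)` is almost constant -/
theorem g2b_near (U : Set (PP 0 × PP 0)) (hU : U ∈ 𝓤 (PP 0)) :
    ∃ ε : ℝ, 0 < ε ∧ ∀ (z : Circle) (x x' : QQ), ‖(z : ℂ) - 1‖ < ε →
      (cP (z, x), cP (z, x')) ∈ U := by
  have h1 : ∀ᶠ z in 𝓝 (1 : Circle), ∀ w ∈ (univ : Set (QQ × QQ)),
      (cP (z, w.1), cP (z, w.2)) ∈ U := by
    refine isCompact_univ.eventually_forall_of_forall_eventually fun w _ => ?_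
    have hc : Continuous fun q : Circle × (QQ × QQ) => (cP (q.1, q.2.1), cP (q.1, q.2.2)) := by
      refine Continuous.prodMk (continuous_cP.comp ?_) (continuous_cP.comp ?_)
      · exact continuous_fst.prodMk (continuous_fst.comp continuous_snd)
      · exact continuous_fst.prodMk (continuous_snd.comp continuous_snd)
    have h2 := hc.tendsto ((1 : Circle), w)
    have h3 : cP (1, w.2) = cP (1, w.1) := (cP_eq_iff _ _).2 (Or.inr ⟨rfl, rfl⟩)
    dsimp only at h2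
    rw [h3] at h2
    exact h2 (nhds_le_uniformity _ hU)
  rw [Metric.eventually_nhds_iff] at h1
  obtain ⟨ε, hε, h⟩ := h1
  refine ⟨ε, hε, fun z x x' hz => ?_⟩
  refine h ?_ (x, x') (mem_univ _)
  show dist (z : ℂ) ((1 : Circle) : ℂ) < ε
  rw [Circle.coe_one, dist_eq_norm]
  exact hz

theorem near_swap (V : Set ((PP 0 × QP) × (PP 0 × QP))) (hV : V ∈ 𝓤 (PP 0 × QP)) :
    ∃ g : (Circle × QQ × QP) ≃ₜ (PP 0 × QP),
      ∀ z x y, (g (z, x, y), (cP (z, x), y)) ∈ V := by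
  let f : Circle × QQ × QP → PP 0 × QP := fun p => (cP (p.1, p.2.1), p.2.2)
  have hf : Continuous f := by
    refine Continuous.prodMk (continuous_cP.comp ?_) (continuous_snd.comp continuous_snd)
    exact continuous_fst.prodMk (continuous_fst.comp continuous_snd)
  have hs : Function.Surjective f := by
    rintro ⟨a, y⟩
    obtain ⟨p, hp⟩ := cP_surjective a
    exact ⟨(p.1, p.2, y), by simp only [f, Prod.mk.eta, hp]⟩
  suffices h : ∀ V ∈ 𝓤 (Circle × QQ × QP), ∀ V' ∈ 𝓤 (PP 0 × QP),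
      ∃ Θ : (Circle × QQ × QP) ≃ₜ (Circle × QQ × QP), (∀ x, (f (Θ x), f x) ∈ V') ∧
        ∀ x x', f x = f x' → (Θ x, Θ x') ∈ V by
    obtain ⟨g, hg⟩ := bing f hf hs h V hV
    exact ⟨g, fun z x y => hg (z, x, y)⟩
  intro V₁ hV₁ V₂ hV₂
  obtain ⟨A, hA, B, hB, hAB⟩ := entourageProd_subset hV₁
  obtain ⟨B₁, hB₁, B₂, hB₂, hBB⟩ := entourageProd_subset hB
  obtain ⟨I₁, hI₁⟩ := g2b_pi_ent B₂ hB₂
  obtain ⟨U, hU, W, hW, hUW⟩ := entourageProd_subset hV₂
  obtain ⟨I₂, hI₂⟩ := g2b_pi_ent W hW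
  obtain ⟨ε, hε, hnear⟩ := g2b_near U hU
  obtain ⟨N, hN⟩ := Infinite.exists_notMem_finset (I₁ ∪ I₂)
  rw [Finset.mem_union, not_or] at hN
  obtain ⟨Θ, h1, h2, h3, h4⟩ := exists_swap N ε hε
  refine ⟨Θ, fun p => ?_, fun p p' hpp => ?_⟩
  · refine hUW ⟨?_, ?_⟩
    · show (cP ((Θ p).1, (Θ p).2.1), cP (p.1, p.2.1)) ∈ U
      by_cases hz : ‖(p.1 : ℂ) - 1‖ < ε
      · rw [h1]
        exact hnear _ _ _ hz
      · rw [h2 p (not_lt.1 hz)]
        exact refl_mem_uniformity hU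
    · show ((Θ p).2.2, p.2.2) ∈ W
      refine hI₂ _ _ fun i hi => h3 p i ?_
      rintro rfl
      exact hN.2 hi
  · obtain ⟨z, x, y⟩ := p
    obtain ⟨z', x', y'⟩ := p'
    have hy : y = y' := congrArg Prod.snd hpp
    have hc : cP (z, x) = cP (z', x') := congrArg Prod.fst hpp
    subst hy
    rcases (cP_eq_iff _ _).1 hc with h5 | ⟨h5, h6⟩
    · obtain ⟨rfl, rfl⟩ := Prod.mk.inj h5
      exact refl_mem_uniformity hV₁
    · dsimp only at h5 h6
      subst h5 h6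
      refine hAB ⟨?_, hBB ⟨?_, ?_⟩⟩
      · show ((Θ (1, x, y)).1, (Θ (1, x', y)).1) ∈ A
        rw [h1, h1]
        exact refl_mem_uniformity hA
      · show ((Θ (1, x, y)).2.1, (Θ (1, x', y)).2.1) ∈ B₁
        rw [h4 x x' y]
        exact refl_mem_uniformity hB₁
      · show ((Θ (1, x, y)).2.2, (Θ (1, x', y)).2.2) ∈ B₂
        refine hI₁ _ _ fun i hi => ?_
        have hiN : i ≠ N := by
          rintro rfl
          exact hN.1 hi
        rw [h3 _ i hiN, h3 _ i hiN]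

end Pool.Agent.MQ
end

section

/-! TASK F4a: constants for the final contradiction.

The set `T = {x : F | th x * exp(i vth x) ∈ Circle.exp '' [δ0/4, 3δ0/4]}` is compact and on it some
`Psi b x ≠ 0` (`nonvan`), so `max_b ‖Psi b x‖ ≥ 4κ` on `T` for some `κ > 0`. There is `r > 0` such that a point of
the circle at distance `< r` from a point of `Circle.exp '' [3δ0/8, 5δ0/8]` lies in
`Circle.exp '' [δ0/4, 3δ0/4]` (`0 < δ0 ≤ 1`; e.g. `Circle.exp` is a local homeomorphism, compactness of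
the arc; or use `Complex.arg`). -/

set_option autoImplicit false

namespace Pool.Agent.MQ

open Set Topology

theorem exists_consts (𝔽 : Fib) : ∃ κ r : ℝ, 0 < κ ∧ 0 < r ∧ ∀ (x : 𝔽.F) (α : ℝ),
    3 * 𝔽.δ0 / 8 ≤ α → α ≤ 5 * 𝔽.δ0 / 8 →
    dist (𝔽.th x * Circle.exp (𝔽.vth x)) (Circle.exp α) < r → ∃ b, 4 * κ ≤ ‖𝔽.Psi b x‖ := by
  have hδ := 𝔽.δ0_pos
  have hK : IsCompact ((Set.univ : Set 𝔽.F) ×ˢ Set.Icc (3 * 𝔽.δ0 / 8) (5 * 𝔽.δ0 / 8)) :=
    isCompact_univ.prod isCompact_Icc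
  have hc : Continuous fun p : 𝔽.F × ℝ =>
      max (dist (𝔽.th p.1 * Circle.exp (𝔽.vth p.1)) (Circle.exp p.2))
        (max ‖𝔽.Psi 0 p.1‖ ‖𝔽.Psi 1 p.1‖) := by
    have h1 := 𝔽.th_cont.comp (continuous_fst : Continuous fun p : 𝔽.F × ℝ => p.1)
    have h2 := Circle.exp.continuous.comp
      (𝔽.vth_cont.comp (continuous_fst : Continuous fun p : 𝔽.F × ℝ => p.1))
    have h3 := Circle.exp.continuous.comp (continuous_snd : Continuous fun p : 𝔽.F × ℝ => p.2)
    have h4 := ((𝔽.Psi_cont 0).comp (continuous_fst : Continuous fun p : 𝔽.F × ℝ => p.1)).norm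
    have h5 := ((𝔽.Psi_cont 1).comp (continuous_fst : Continuous fun p : 𝔽.F × ℝ => p.1)).norm
    exact ((h1.mul h2).dist h3).max (h4.max h5)
  obtain ⟨m, hm, hmin⟩ := hK.exists_forall_le' (a := 0) hc.continuousOn (by
    rintro ⟨x, α⟩ ⟨-, hα1, hα2⟩
    simp only at hα1 hα2 ⊢
    by_contra hcon
    push Not at hcon
    have hd : dist (𝔽.th x * Circle.exp (𝔽.vth x)) (Circle.exp α) ≤ 0 :=
      (le_max_left _ _).trans hcon
    have h0 : ‖𝔽.Psi 0 x‖ ≤ 0 := (le_max_left _ _).trans ((le_max_right _ _).trans hcon)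
    have h1 : ‖𝔽.Psi 1 x‖ ≤ 0 := (le_max_right _ _).trans ((le_max_right _ _).trans hcon)
    obtain ⟨b, hb⟩ := 𝔽.nonvan x α (by linarith) (by linarith)
      (dist_le_zero.1 hd)
    fin_cases b
    · exact hb (norm_le_zero_iff.1 h0)
    · exact hb (norm_le_zero_iff.1 h1))
  refine ⟨m / 4, m, by positivity, hm, fun x α h1 h2 h3 => ?_⟩
  have h4 : m ≤ max (dist (𝔽.th x * Circle.exp (𝔽.vth x)) (Circle.exp α))
      (max ‖𝔽.Psi 0 x‖ ‖𝔽.Psi 1 x‖) := hmin (x, α) ⟨mem_univ _, h1, h2⟩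
  rcases le_max_iff.1 h4 with h5 | h5
  · exact absurd h3 (not_lt.2 h5)
  · rcases le_max_iff.1 h5 with h6 | h6
    · exact ⟨0, by linarith⟩
    · exact ⟨1, by linarith⟩

end Pool.Agent.MQ
end
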