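import Pool.Agent.Lib.MP_9c87eb_gt.Mg.G008

section

/-! TASK S1b: extension of states near one point.

Let `ψ : FF → E` be the parametrization of `K0`, `(δ₀, a, b)` from `exists_retr` for `ε`, `δ = min δ₀ (ε/2)`
(so a point within `δ` of `K0`, or the first point of a chain `‖s - y‖ < δ`, `‖y - y'‖ < δ`, `y' ∈ K0`, is
within `2 δ₀` of `K0`). Given a state `(s, w)` over `C ∩ D` of accuracy `δ`, put
`v = arg (a s / θ s)` (`|v| < π/2` since `Re > 0`), `w₁ = w + v`, `x₁ = b s` on `(C ∩ D) × S¹`. Then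
`a s / ‖a s‖ = z exp(i w₁)` because `θ s / ‖θ s‖ = z exp(i w)`. Extend `w₁`, `x₁` to `P × S¹`
(Tietze, `P × S¹` compact Hausdorff; a real valued continuous function on a closed set extends) to
`W`, `X` and put `s' = ψ (z exp(iW), X)`, `w' = W + arg (θ s' / (z exp(iW)))` (`Re > 0` because
`‖θ (ψ (z', x)) - z'‖ < 1/4`); both are continuous on all of `P × S¹`. `s' ∈ K0` is within `δ < ε` of
`K p` for `p ∈ D`. On `C ∩ D`: `s' = ψ (a s / ‖a s‖, b s)` is `ε`-close to `s`, and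
`|w' - w| ≤ |arg (θ s'/..)| + |v| < π` (`Complex.abs_arg_lt_pi_div_two_iff`). -/

set_option autoImplicit false

namespace Pool.Agent.MQ

open Set Topology

private theorem arg_identity {t u : ℂ} (hu : ‖u‖ = 1) :
    t = (‖t‖ : ℂ) * (u * (Circle.exp (Complex.arg (t / u)) : ℂ)) := by
  have hu0 : u ≠ 0 := by
    rintro rfl
    simp at hu
  have h1 := Complex.norm_mul_exp_arg_mul_I (t / u)
  rw [norm_div, hu, div_one] at h1
  rw [Circle.coe_exp]
  calc t = (t / u) * u := by field_simp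
    _ = ((‖t‖ : ℂ) * Complex.exp ((Complex.arg (t / u) : ℂ) * Complex.I)) * u := by rw [h1]
    _ = _ := by ring

theorem loc_ext_pt {P : Type} [MetricSpace P] [CompactSpace P] {E : Type} [NormedAddCommGroup E]
    [NormedSpace ℝ E] {K : P → Set E} {θ : E → ℂ} (hθ : UniformContinuous θ) {K0 : Set E}
    {ψ : C(FF, E)} (hψ : IsParam θ K0 ψ) {ε : ℝ} (hε : 0 < ε) :
    ∃ δ : ℝ, 0 < δ ∧ ∀ C D : Set P, IsClosed C → IsClosed D →
      (∀ p ∈ D, ∀ y ∈ K p, ∃ y' ∈ K0, ‖y - y'‖ < δ) →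
      (∀ p ∈ D, ∀ y ∈ K0, ∃ y' ∈ K p, ‖y - y'‖ < δ) →
      ∀ s w, IsSt K θ (C ∩ D) (fun _ => δ) s w →
      ∃ (s' : C(P × Circle, E)) (w' : C(P × Circle, ℝ)), IsSt K θ D (fun _ => ε) s' w' ∧
        ∀ p ∈ C ∩ D, ∀ z, ‖s' (p, z) - s (p, z)‖ < ε ∧ |w' (p, z) - w (p, z)| < Real.pi := by
  obtain ⟨δ₀, a, b, hδ₀, hretr⟩ := exists_retr hθ hψ hε
  refine ⟨min δ₀ ε, lt_min hδ₀ hε, ?_⟩
  intro C D hC hD hK1 hK2 s w hst
  set T : Set (P × Circle) := (C ∩ D) ×ˢ (Set.univ : Set Circle) with hT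
  have hTc : IsClosed T := (hC.inter hD).prod isClosed_univ
  -- the retraction applies on `T`
  have hR : ∀ t ∈ T, θ (s t) ≠ 0 ∧ a (s t) ≠ 0 ∧ 0 < (a (s t) / θ (s t)).re ∧
        ∀ ζ : Circle, (ζ : ℂ) = a (s t) / (‖a (s t)‖ : ℂ) → ‖ψ (ζ, b (s t)) - s t‖ < ε := by
    rintro ⟨p, z⟩ ht
    have hp : p ∈ C ∩ D := ht.1
    obtain ⟨y, hy, hy1⟩ := hst.near p hp z
    obtain ⟨y', hy', hy2⟩ := hK1 p hp.2 y hy
    apply hretr y' hy' (s (p, z))
    have h1 : ‖s (p, z) - y‖ < δ₀ := hy1.trans_le (min_le_left _ _)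
    have h2 : ‖y - y'‖ < δ₀ := hy2.trans_le (min_le_left _ _)
    calc ‖s (p, z) - y'‖ = ‖(s (p, z) - y) + (y - y')‖ := by congr 1; abel
      _ ≤ ‖s (p, z) - y‖ + ‖y - y'‖ := norm_add_le _ _
      _ < 2 * δ₀ := by linarith
  have hθs : ContinuousOn (fun t => θ (s t)) T := hθ.continuous.comp_continuousOn hst.cs
  have has : ContinuousOn (fun t => a (s t)) T := a.continuous.comp_continuousOn hst.cs
  have hv : ContinuousOn (fun t => Complex.arg (a (s t) / θ (s t))) T := by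
    intro t ht
    obtain ⟨h1, h2, h3, -⟩ := hR t ht
    have h4 : ContinuousAt Complex.arg (a (s t) / θ (s t)) :=
      Complex.continuousAt_arg (Complex.mem_slitPlane_iff.2 (Or.inl h3))
    have h5 : ContinuousWithinAt (fun t => a (s t) / θ (s t)) T t :=
      (has t ht).div (hθs t ht) h1
    exact ContinuousAt.comp_continuousWithinAt (f := fun t => a (s t) / θ (s t)) h4 h5
  have hw1 : ContinuousOn (fun t => w t + Complex.arg (a (s t) / θ (s t))) T := hst.cw.add hv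
  have hx1 : ContinuousOn (fun t => b (s t)) T := b.continuous.comp_continuousOn hst.cs
  obtain ⟨W, hW⟩ := ContinuousMap.exists_restrict_eq hTc
    (⟨T.domRestrict (fun t => w t + Complex.arg (a (s t) / θ (s t))),
      continuousOn_iff_continuous_domRestrict.1 hw1⟩ : C(T, ℝ))
  obtain ⟨X, hX⟩ := ContinuousMap.exists_restrict_eq hTc
    (⟨T.domRestrict (fun t => b (s t)), continuousOn_iff_continuous_domRestrict.1 hx1⟩ : C(T, HC))
  have hW' : ∀ t ∈ T, W t = w t + Complex.arg (a (s t) / θ (s t)) := fun t ht =>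
    congrArg (fun f : C(T, ℝ) => f ⟨t, ht⟩) hW
  have hX' : ∀ t ∈ T, X t = b (s t) := fun t ht =>
    congrArg (fun f : C(T, HC) => f ⟨t, ht⟩) hX
  -- the unit number
  set u : P × Circle → Circle := fun t => t.2 * Circle.exp (W t) with hu
  have huc : Continuous u := continuous_snd.mul (Circle.exp.continuous.comp W.continuous)
  set s' : C(P × Circle, E) := ⟨fun t => ψ (u t, X t),
    ψ.continuous.comp (huc.prodMk X.continuous)⟩ with hs'
  have hs'u : ∀ t, ‖θ (s' t) - (u t : ℂ)‖ < 1 / 4 := fun t => hψ.close (u t, X t)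
  have hre : ∀ t, 0 < (θ (s' t) / (u t : ℂ)).re := by
    intro t
    have h1 : ‖θ (s' t) / (u t : ℂ) - 1‖ < 1 / 4 := by
      have h2 : θ (s' t) / (u t : ℂ) - 1 = (θ (s' t) - (u t : ℂ)) / (u t : ℂ) := by
        rw [sub_div, div_self (Circle.coe_ne_zero _)]
      rw [h2, norm_div, Circle.norm_coe, div_one]
      exact hs'u t
    have h3 : |(θ (s' t) / (u t : ℂ) - 1).re| < 1 / 4 := (Complex.abs_re_le_norm _).trans_lt h1
    rw [Complex.sub_re, Complex.one_re] at h3
    have := (abs_lt.1 h3).1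
    linarith
  have hw'c : Continuous (fun t => W t + Complex.arg (θ (s' t) / (u t : ℂ))) := by
    apply W.continuous.add
    rw [continuous_iff_continuousAt]
    intro t
    have h4 : ContinuousAt Complex.arg (θ (s' t) / (u t : ℂ)) :=
      Complex.continuousAt_arg (Complex.mem_slitPlane_iff.2 (Or.inl (hre t)))
    have h5 : Continuous (fun t => θ (s' t) / (u t : ℂ)) :=
      (hθ.continuous.comp s'.continuous).div (continuous_subtype_val.comp huc)
        (fun t => Circle.coe_ne_zero _)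
    exact ContinuousAt.comp (f := fun t => θ (s' t) / (u t : ℂ)) h4 h5.continuousAt
  set w' : C(P × Circle, ℝ) := ⟨fun t => W t + Complex.arg (θ (s' t) / (u t : ℂ)), hw'c⟩ with hw'
  have hpos : ∀ t, θ (s' t) ≠ 0 := by
    intro t h0
    have := hs'u t
    rw [h0, zero_sub, norm_neg, Circle.norm_coe] at this
    norm_num at this
  refine ⟨s', w', ⟨s'.continuous.continuousOn, w'.continuous.continuousOn, ?_, ?_, ?_⟩, ?_⟩
  · intro p hp z
    have h1 : s' (p, z) ∈ K0 := by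
      rw [← hψ.rng]
      exact ⟨_, rfl⟩
    obtain ⟨y', hy', h2⟩ := hK2 p hp _ h1
    exact ⟨y', hy', h2.trans_le (min_le_right _ _)⟩
  · intro p _ z
    exact hpos (p, z)
  · intro p _ z
    have h1 := arg_identity (t := θ (s' (p, z))) (u := (u (p, z) : ℂ)) (Circle.norm_coe _)
    have h2 : (u (p, z) : ℂ) = (z : ℂ) * (Circle.exp (W (p, z)) : ℂ) := by
      simp [hu]
    have h3 : (Circle.exp (w' (p, z)) : ℂ) = (Circle.exp (W (p, z)) : ℂ) *
        (Circle.exp (Complex.arg (θ (s' (p, z)) / (u (p, z) : ℂ))) : ℂ) := by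
      rw [← Circle.coe_mul, ← Circle.exp_add]
      rfl
    rw [h3]
    refine h1.trans ?_
    rw [← mul_assoc (z : ℂ), ← h2]
  · intro p hp z
    have ht : (p, z) ∈ T := ⟨hp, Set.mem_univ _⟩
    obtain ⟨h1, h2, h3, h4⟩ := hR (p, z) ht
    set A := a (s (p, z)) with hA
    set Θ := θ (s (p, z)) with hΘ
    -- `u = a s / ‖a s‖`
    have huA : (u (p, z) : ℂ) = A / (‖A‖ : ℂ) := by
      have h5 := hst.lift p hp z
      have h6 := arg_identity (t := A) (u := (z : ℂ) * (Circle.exp (w (p, z)) : ℂ))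
        (by rw [norm_mul, Circle.norm_coe, Circle.norm_coe, one_mul])
      have hΘn : (‖Θ‖ : ℂ) ≠ 0 := by
        exact_mod_cast (norm_pos_iff.2 h1).ne'
      have hAn : (‖A‖ : ℂ) ≠ 0 := by
        exact_mod_cast (norm_pos_iff.2 h2).ne'
      have h7 : Complex.arg (A / ((z : ℂ) * (Circle.exp (w (p, z)) : ℂ))) =
          Complex.arg (A / Θ) := by
        have h8 : A / ((z : ℂ) * (Circle.exp (w (p, z)) : ℂ)) = (‖Θ‖ : ℂ) * (A / Θ) := by
          rw [← hΘ] at h5
          have hne : (z : ℂ) * (Circle.exp (w (p, z)) : ℂ) ≠ 0 :=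
            mul_ne_zero (Circle.coe_ne_zero _) (Circle.coe_ne_zero _)
          rw [div_eq_iff hne]
          calc A = (A / Θ) * Θ := by field_simp
            _ = (A / Θ) * ((‖Θ‖ : ℂ) * ((z : ℂ) * (Circle.exp (w (p, z)) : ℂ))) := by
                rw [← h5]
            _ = _ := by ring
        rw [h8, Complex.arg_real_mul _ (norm_pos_iff.2 h1)]
      have h9 : (u (p, z) : ℂ) = (z : ℂ) * (Circle.exp (w (p, z)) : ℂ) *
          (Circle.exp (Complex.arg (A / Θ)) : ℂ) := by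
        have h10 : u (p, z) = z * (Circle.exp (w (p, z)) * Circle.exp (Complex.arg (A / Θ))) := by
          rw [← Circle.exp_add]
          show z * Circle.exp (W (p, z)) = _
          rw [hW' (p, z) ht]
        rw [h10]
        push_cast
        ring
      rw [h9, eq_div_iff hAn]
      rw [h7] at h6
      calc _ = (‖A‖ : ℂ) * ((z : ℂ) * (Circle.exp (w (p, z)) : ℂ) *
            (Circle.exp (Complex.arg (A / Θ)) : ℂ)) := by ring
        _ = A := h6.symm
    constructor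
    · have h5 := h4 (u (p, z)) huA
      show ‖ψ (u (p, z), X (p, z)) - s (p, z)‖ < ε
      rw [hX' (p, z) ht]
      exact h5
    · show |W (p, z) + Complex.arg (θ (s' (p, z)) / (u (p, z) : ℂ)) - w (p, z)| < Real.pi
      rw [hW' (p, z) ht]
      have h5 : |Complex.arg (A / Θ)| < Real.pi / 2 :=
        Complex.abs_arg_lt_pi_div_two_iff.2 (Or.inl h3)
      have h6 : |Complex.arg (θ (s' (p, z)) / (u (p, z) : ℂ))| < Real.pi / 2 :=
        Complex.abs_arg_lt_pi_div_two_iff.2 (Or.inl (hre (p, z)))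
      have h7 : w (p, z) + Complex.arg (A / Θ) +
          Complex.arg (θ (s' (p, z)) / (u (p, z) : ℂ)) - w (p, z) =
          Complex.arg (A / Θ) + Complex.arg (θ (s' (p, z)) / (u (p, z) : ℂ)) := by ring
      rw [h7]
      calc _ ≤ |Complex.arg (A / Θ)| + |Complex.arg (θ (s' (p, z)) / (u (p, z) : ℂ))| :=
            abs_add_le _ _
        _ < Real.pi / 2 + Real.pi / 2 := add_lt_add h5 h6
        _ = Real.pi := by ring

end Pool.Agent.MQ
end

section

/-! TASK S2: uniform version of `loc_ext_pt` (cover the compact space `P` by finitely many balls;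
Lebesgue number). -/

set_option autoImplicit false

namespace Pool.Agent.MQ

open Set Topology

private theorem exists_le_finset {P : Type} (f : P → ℝ) (hf : ∀ p, 0 < f p) (t : Finset P) :
    ∃ δ : ℝ, 0 < δ ∧ ∀ p ∈ t, δ ≤ f p := by
  classical
  induction t using Finset.induction_on with
  | empty => exact ⟨1, one_pos, by simp⟩
  | insert a t _ ih =>
    obtain ⟨δ, hδ, h⟩ := ih
    refine ⟨min δ (f a), lt_min hδ (hf a), ?_⟩
    intro p hp
    rcases Finset.mem_insert.1 hp with rfl | hp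
    · exact min_le_right _ _
    · exact (min_le_left _ _).trans (h p hp)

private theorem isSt_mono_acc {P : Type} [TopologicalSpace P] {E : Type} [NormedAddCommGroup E]
    {K : P → Set E} {θ : E → ℂ} {C : Set P} {acc acc' : P → ℝ} {s : P × Circle → E}
    {w : P × Circle → ℝ} (h : IsSt K θ C acc s w) (hacc : ∀ p ∈ C, acc p ≤ acc' p) :
    IsSt K θ C acc' s w where
  cs := h.cs
  cw := h.cw
  near := fun p hp z => by
    obtain ⟨y, hy, hy'⟩ := h.near p hp z
    exact ⟨y, hy, hy'.trans_le (hacc p hp)⟩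
  ne := h.ne
  lift := h.lift

theorem loc_ext {P : Type} [MetricSpace P] [CompactSpace P] {E : Type} [NormedAddCommGroup E]
    [NormedSpace ℝ E] {K : P → Set E} {θ : E → ℂ} (hθ : UniformContinuous θ) (hK : HUC K)
    (hpar : ∀ p, ∃ ψ, IsParam θ (K p) ψ) {ε : ℝ} (hε : 0 < ε) :
    ∃ δ : ℝ, 0 < δ ∧ ∀ C D : Set P, IsClosed C → IsClosed D → (∀ p ∈ D, ∀ q ∈ D, dist p q < δ) →
      ∀ s w, IsSt K θ (C ∩ D) (fun _ => δ) s w →
      ∃ (s' : C(P × Circle, E)) (w' : C(P × Circle, ℝ)), IsSt K θ D (fun _ => ε) s' w' ∧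
        ∀ p ∈ C ∩ D, ∀ z, ‖s' (p, z) - s (p, z)‖ < ε ∧ |w' (p, z) - w (p, z)| < Real.pi := by
  have hpt : ∀ p0 : P, ∃ δ : ℝ, 0 < δ ∧ ∀ C D : Set P, IsClosed C → IsClosed D →
      (∀ p ∈ D, ∀ y ∈ K p, ∃ y' ∈ K p0, ‖y - y'‖ < δ) →
      (∀ p ∈ D, ∀ y ∈ K p0, ∃ y' ∈ K p, ‖y - y'‖ < δ) →
      ∀ s w, IsSt K θ (C ∩ D) (fun _ => δ) s w →
      ∃ (s' : C(P × Circle, E)) (w' : C(P × Circle, ℝ)), IsSt K θ D (fun _ => ε) s' w' ∧
        ∀ p ∈ C ∩ D, ∀ z, ‖s' (p, z) - s (p, z)‖ < ε ∧ |w' (p, z) - w (p, z)| < Real.pi := by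
    intro p0
    obtain ⟨ψ, hψ⟩ := hpar p0
    exact loc_ext_pt hθ hψ hε
  choose d hd hd' using hpt
  have hr : ∀ p0 : P, ∃ ρ : ℝ, 0 < ρ ∧ ∀ p q, dist p q < ρ → ∀ y ∈ K p, ∃ y' ∈ K q,
      ‖y - y'‖ < d p0 := fun p0 => hK (d p0) (hd p0)
  choose ρ hρ hρ' using hr
  obtain ⟨t, ht⟩ := CompactSpace.elim_nhds_subcover (fun p => Metric.ball p (ρ p / 2))
    (fun p => Metric.ball_mem_nhds p (half_pos (hρ p)))
  obtain ⟨δ, hδ, hδt⟩ := exists_le_finset (fun p => min (d p) (ρ p / 2))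
    (fun p => lt_min (hd p) (half_pos (hρ p))) t
  refine ⟨δ, hδ, ?_⟩
  intro C D hC hD hdiam s w hst
  rcases D.eq_empty_or_nonempty with hDe | ⟨q, hq⟩
  · subst hDe
    refine ⟨0, 0, ⟨?_, ?_, ?_, ?_, ?_⟩, ?_⟩
    · exact (0 : C(P × Circle, E)).continuous.continuousOn
    · exact (0 : C(P × Circle, ℝ)).continuous.continuousOn
    · intro p hp; exact absurd hp (Set.notMem_empty p)
    · intro p hp; exact absurd hp (Set.notMem_empty p)
    · intro p hp; exact absurd hp (Set.notMem_empty p)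
    · intro p hp; exact absurd hp.2 (Set.notMem_empty p)
  · have hq' : q ∈ ⋃ x ∈ t, Metric.ball x (ρ x / 2) := by rw [ht]; trivial
    obtain ⟨p0, hp0, hqp⟩ := Set.mem_iUnion₂.1 hq'
    have h1 : δ ≤ d p0 := (hδt p0 hp0).trans (min_le_left _ _)
    have h2 : δ ≤ ρ p0 / 2 := (hδt p0 hp0).trans (min_le_right _ _)
    have h3 : ∀ p ∈ D, dist p p0 < ρ p0 := by
      intro p hp
      have h4 := hdiam p hp q hq
      have h5 : dist q p0 < ρ p0 / 2 := hqp
      calc dist p p0 ≤ dist p q + dist q p0 := dist_triangle _ _ _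
        _ < ρ p0 := by linarith
    exact hd' p0 C D hC hD (fun p hp => hρ' p0 p p0 (h3 p hp))
      (fun p hp => hρ' p0 p0 p (by rw [dist_comm]; exact h3 p hp)) s w
      (isSt_mono_acc hst fun p _ => h1)

end Pool.Agent.MQ
end
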